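import Mathlib

namespace Pool.Agent.H47.TL

section
variable {R A B C : Type*} [CommRing R]

/-- bilinear extension of a product with weights (same formula as in `act`) -/
noncomputable def bil (mul : A → B → C) (w : A → B → R) (x : A →₀ R) (m : B →₀ R) : C →₀ R :=
  Finsupp.sum x fun f c => Finsupp.sum m fun g d => Finsupp.single (mul f g) (c * d * w f g)

variable (mul : A → B → C) (w : A → B → R)

theorem bil_add_left (x y : A →₀ R) (m : B →₀ R) :
    bil mul w (x + y) m = bil mul w x m + bil mul w y m := by
  unfold bil
  refine Finsupp.sum_add_index' (fun f => ?_) (fun f c d => ?_)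
  · simp
  · rw [← Finsupp.sum_add]
    refine Finsupp.sum_congr fun g _ => ?_
    rw [add_mul, add_mul, Finsupp.single_add]

theorem bil_add_right (x : A →₀ R) (m m' : B →₀ R) :
    bil mul w x (m + m') = bil mul w x m + bil mul w x m' := by
  unfold bil
  rw [← Finsupp.sum_add]
  refine Finsupp.sum_congr fun f _ => ?_
  refine Finsupp.sum_add_index' (fun f => ?_) (fun f c d => ?_)
  · simp
  · rw [mul_add, add_mul, Finsupp.single_add]

theorem bil_smul_left (r : R) (x : A →₀ R) (m : B →₀ R) :
    bil mul w (r • x) m = r • bil mul w x m := by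
  unfold bil
  rw [Finsupp.sum_smul_index (fun f => by simp), Finsupp.smul_sum]
  refine Finsupp.sum_congr fun f _ => ?_
  rw [Finsupp.smul_sum]
  refine Finsupp.sum_congr fun g _ => ?_
  rw [Finsupp.smul_single, smul_eq_mul, mul_assoc, mul_assoc, mul_assoc]

theorem bil_smul_right (r : R) (x : A →₀ R) (m : B →₀ R) :
    bil mul w x (r • m) = r • bil mul w x m := by
  unfold bil
  rw [Finsupp.smul_sum]
  refine Finsupp.sum_congr fun f _ => ?_
  rw [Finsupp.sum_smul_index (fun f => by simp), Finsupp.smul_sum]
  refine Finsupp.sum_congr fun g _ => ?_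
  rw [Finsupp.smul_single, smul_eq_mul]
  congr 1
  ring

theorem bil_single (f : A) (g : B) : bil mul w (Finsupp.single f 1) (Finsupp.single g 1) =
    w f g • Finsupp.single (mul f g) 1 := by
  unfold bil
  rw [Finsupp.sum_single_index (by simp), Finsupp.sum_single_index (by simp),
    Finsupp.smul_single, smul_eq_mul, one_mul, one_mul, mul_one]

end

end Pool.Agent.H47.TL
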