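import Pool.Agent.H47.TL.Comb
import Pool.Agent.H47.TL.Bil

namespace Pool.Agent.H47.TL

universe u

/-- noncrossing perfect matchings of `P` points on a line -/
abbrev Dg (P : ℕ) := {f : ℕ → ℕ // NCM P f}

instance finite_Dg (P : ℕ) : Finite (Dg P) := by
  let φ : Dg P → (Fin P → Fin P) := fun f x => ⟨f.1 x.1, f.2.lt x.2⟩
  apply Finite.of_injective φ
  intro f g h
  apply Subtype.ext
  funext x
  by_cases hx : x < P
  · have := congrFun h ⟨x, hx⟩
    exact congrArg Fin.val this
  · rw [f.2.out (by omega), g.2.out (by omega)]

noncomputable instance fintype_Dg (P : ℕ) : Fintype (Dg P) := Fintype.ofFinite _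

noncomputable instance decEq_Dg (P : ℕ) : DecidableEq (Dg P) := Classical.decEq _

theorem mulD_ncm {l m k : ℕ} (f : Dg (l + m)) (g : Dg (m + k)) :
    NCM (l + k) (cmp l m f.1 g.1).2 := cmp_ncm f.2 g.2

/-- the diagram obtained by composing two diagrams (closed loops deleted) -/
def mulD {l m k : ℕ} (f : Dg (l + m)) (g : Dg (m + k)) : Dg (l + k) :=
  ⟨(cmp l m f.1 g.1).2, mulD_ncm f g⟩

/-- the number of closed loops arising in the composition of two diagrams -/
def loops {l m k : ℕ} (f : Dg (l + m)) (g : Dg (m + k)) : ℕ := (cmp l m f.1 g.1).1

/-- the free module on the diagrams with `L` left and `k` right nodes -/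
def TLM (R : Type u) [CommRing R] (_a : R) (L k : ℕ) : Type u := Dg (L + k) →₀ R

section
variable (R : Type u) [CommRing R] (a : R) (L k : ℕ)

noncomputable instance TLM.instAddCommGroup : AddCommGroup (TLM R a L k) :=
  Finsupp.instAddCommGroup

noncomputable instance TLM.instModule : Module R (TLM R a L k) := Finsupp.module _ _

/-- the Temperley-Lieb algebra on `L` strands -/
abbrev TLA : Type u := TLM R a L L

end

section
variable {R : Type u} [CommRing R] {a : R} {L k : ℕ}

/-- a diagram as an element of the module -/
noncomputable def bs (a : R) (f : Dg (L + k)) : TLM R a L k := Finsupp.single f (1 : R)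

theorem TLM.induction {p : TLM R a L k → Prop} (x : TLM R a L k) (h0 : p 0)
    (hadd : ∀ x y, p x → p y → p (x + y)) (hs : ∀ (c : R) (f : Dg (L + k)), p (c • bs a f)) :
    p x := by
  induction x using Finsupp.induction_linear with
  | zero => exact h0
  | add f g hf hg => exact hadd f g hf hg
  | single f c =>
    have := hs c f
    unfold bs at this
    have e : c • (Finsupp.single f (1 : R) : Dg (L + k) →₀ R) = Finsupp.single f c := by
      rw [Finsupp.smul_single, smul_eq_mul, mul_one]
    rw [← e]
    exact this

/-- a linear map defined on the diagrams -/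
noncomputable def lft {M : Type*} [AddCommGroup M] [Module R M] (v : Dg (L + k) → M) :
    TLM R a L k →ₗ[R] M := Finsupp.linearCombination R v

@[simp] theorem lft_bs {M : Type*} [AddCommGroup M] [Module R M] (v : Dg (L + k) → M)
    (f : Dg (L + k)) : lft v (bs a f) = v f := by
  exact (Finsupp.linearCombination_single R (1 : R) f).trans (one_smul R _)

theorem TLM.hom_ext {M : Type*} [AddCommGroup M] [Module R M] {φ ψ : TLM R a L k →ₗ[R] M}
    (h : ∀ f, φ (bs a f) = ψ (bs a f)) : φ = ψ := by
  apply LinearMap.ext
  intro x
  induction x using TLM.induction with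
  | h0 => rw [map_zero, map_zero]
  | hadd x y hx hy => rw [map_add, map_add, hx, hy]
  | hs c f => rw [map_smul, map_smul, h]

/-- The bilinear action of the algebra on the module of diagrams: the diagram `f` maps the
diagram `g` to `a ^ (number of closed loops)` times the composed diagram. -/
noncomputable def act (R : Type u) [CommRing R] (a : R) (L k : ℕ) (x : TLA R a L)
    (m : TLM R a L k) : TLM R a L k :=
  Finsupp.sum x fun f c => Finsupp.sum m fun g d =>
    Finsupp.single (mulD f g) (c * d * a ^ loops f g)

theorem act_add_left (x y : TLA R a L) (m : TLM R a L k) :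
    act R a L k (x + y) m = act R a L k x m + act R a L k y m :=
  bil_add_left (C := Dg (L + k)) mulD (fun f g => a ^ loops f g) x y m

theorem act_add_right (x : TLA R a L) (m m' : TLM R a L k) :
    act R a L k x (m + m') = act R a L k x m + act R a L k x m' :=
  bil_add_right (C := Dg (L + k)) mulD (fun f g => a ^ loops f g) x m m'

theorem act_smul_left (r : R) (x : TLA R a L) (m : TLM R a L k) :
    act R a L k (r • x) m = r • act R a L k x m :=
  bil_smul_left (C := Dg (L + k)) mulD (fun f g => a ^ loops f g) r x m

theorem act_smul_right (r : R) (x : TLA R a L) (m : TLM R a L k) :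
    act R a L k x (r • m) = r • act R a L k x m :=
  bil_smul_right (C := Dg (L + k)) mulD (fun f g => a ^ loops f g) r x m

theorem act_zero_right (x : TLA R a L) : act R a L k x 0 = 0 := by
  have := act_smul_right (a := a) (0 : R) x (0 : TLM R a L k)
  rwa [zero_smul, zero_smul] at this

theorem act_zero_left (m : TLM R a L k) : act R a L k 0 m = 0 := by
  have := act_smul_left (a := a) (0 : R) (0 : TLA R a L) m
  rwa [zero_smul, zero_smul] at this

theorem act_bs (f : Dg (L + L)) (g : Dg (L + k)) :
    act R a L k (bs a f) (bs a g) = a ^ loops f g • bs a (mulD f g) :=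
  bil_single (C := Dg (L + k)) mulD (fun f g => a ^ loops f g) f g

/-- the action as a linear map -/
noncomputable def actL (R : Type u) [CommRing R] (a : R) (L k : ℕ) :
    TLA R a L →ₗ[R] TLM R a L k →ₗ[R] TLM R a L k :=
  LinearMap.mk₂ R (act R a L k) act_add_left act_smul_left act_add_right act_smul_right

theorem actL_apply (x : TLA R a L) (m : TLM R a L k) : actL R a L k x m = act R a L k x m := rfl

theorem one_ncm (L : ℕ) : NCM (L + L) (idd L) := idd_ncm L

/-- the identity diagram -/
def one' (L : ℕ) : Dg (L + L) := ⟨idd L, one_ncm L⟩

theorem act_assoc (x y : TLA R a L) (m : TLM R a L k) :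
    act R a L k (act R a L L x y) m = act R a L k x (act R a L k y m) := by
  induction x using TLM.induction with
  | h0 => rw [act_zero_left, act_zero_left, act_zero_left]
  | hadd x y hx hy => rw [act_add_left, act_add_left, act_add_left, hx, hy]
  | hs c f =>
    induction y using TLM.induction with
    | h0 => rw [act_zero_left, act_zero_right, act_zero_right, act_zero_left]
    | hadd x y hx hy =>
      rw [act_add_left, act_add_right, act_add_right, act_add_left, hx, hy]
    | hs d g =>
      induction m using TLM.induction with
      | h0 => rw [act_zero_right, act_zero_right, act_zero_right]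
      | hadd x y hx hy => rw [act_add_right, act_add_right, act_add_right, hx, hy]
      | hs e h =>
        simp only [act_smul_left, act_smul_right, act_bs]
        have h1 := cmp_assoc f.2 g.2 h.2
        have h2 : mulD (mulD f g) h = mulD f (mulD g h) := Subtype.ext h1.2
        have h3 : a ^ loops f g * a ^ loops (mulD f g) h =
            a ^ loops g h * a ^ loops f (mulD g h) := by
          rw [← pow_add, ← pow_add]
          exact congrArg (a ^ ·) h1.1
        rw [h2]
        simp only [smul_smul]
        congr 1
        linear_combination (e * d * c) * h3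

theorem act_one (m : TLM R a L k) : act R a L k (bs a (one' L)) m = m := by
  induction m using TLM.induction with
  | h0 => rw [act_zero_right]
  | hadd x y hx hy => rw [act_add_right, hx, hy]
  | hs c f =>
    have h := id_cmp f.2
    have h1 : loops (one' L) f = 0 := congrArg Prod.fst h
    have h2 : mulD (one' L) f = f := Subtype.ext (congrArg Prod.snd h)
    rw [act_smul_right, act_bs, h1, h2, pow_zero, one_smul]

theorem act_one' (x : TLA R a L) : act R a L L x (bs a (one' L)) = x := by
  induction x using TLM.induction with
  | h0 => rw [act_zero_left]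
  | hadd x y hx hy => rw [act_add_left, hx, hy]
  | hs c f =>
    have h := cmp_id f.2
    have h1 : loops f (one' L) = 0 := congrArg Prod.fst h
    have h2 : mulD f (one' L) = f := Subtype.ext (congrArg Prod.snd h)
    rw [act_smul_left, act_bs, h1, h2, pow_zero, one_smul]

noncomputable instance TLA.instRing : Ring (TLA R a L) :=
  { TLM.instAddCommGroup R a L L with
    mul := act R a L L
    one := bs a (one' L)
    left_distrib := act_add_right
    right_distrib := act_add_left
    zero_mul := act_zero_left
    mul_zero := act_zero_right
    mul_assoc := act_assoc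
    one_mul := act_one
    mul_one := act_one' }

theorem TLA.mul_def (x y : TLA R a L) : x * y = act R a L L x y := rfl

theorem TLA.one_def : (1 : TLA R a L) = bs a (one' L) := rfl

theorem TLA.smul_mul_assoc' (r : R) (x y : TLA R a L) : r • x * y = r • (x * y) :=
  act_smul_left r x y

theorem TLA.mul_smul_comm' (r : R) (x y : TLA R a L) : x * r • y = r • (x * y) :=
  act_smul_right r x y

noncomputable instance TLA.instAlgebra : Algebra R (TLA R a L) :=
  Algebra.ofModule TLA.smul_mul_assoc' TLA.mul_smul_comm'

noncomputable instance TLM.instModuleTLA : Module (TLA R a L) (TLM R a L k) where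
  smul := act R a L k
  one_smul := act_one
  mul_smul := act_assoc
  smul_zero := act_zero_right
  smul_add := act_add_right
  add_smul := act_add_left
  zero_smul := act_zero_left

theorem smul_def' (x : TLA R a L) (m : TLM R a L k) : x • m = act R a L k x m := rfl

instance : IsScalarTower R (TLA R a L) (TLM R a L k) where
  smul_assoc r x m := act_smul_left r x m

instance : SMulCommClass R (TLA R a L) (TLM R a L k) where
  smul_comm r x m := (act_smul_right r x m).symm

theorem bs_smul_bs (f : Dg (L + L)) (g : Dg (L + k)) :
    bs a f • bs a g = a ^ loops f g • bs a (mulD f g) := act_bs f g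

theorem bs_mul_bs (f g : Dg (L + L)) :
    bs a f * bs a g = a ^ loops f g • bs a (mulD f g) := act_bs f g

end

end Pool.Agent.H47.TL
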