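import Mathlib

open CategoryTheory Abelian

namespace Pool.Agent.H47.TL

universe w v u t

/-- every element is killed by an element of `S` -/
def ST {R : Type*} [CommRing R] (S : Submonoid R) (M : Type*) [AddCommGroup M] [Module R M] :
    Prop := ∀ x : M, ∃ s ∈ S, s • x = 0

section
variable {R : Type t} [CommRing R] {C : Type u} [Category.{v} C] [Abelian C] [Linear R C]
  [HasExt.{w} C]

/-- composition with `θ` is injective in positive degrees and surjective, up to `S`-torsion -/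
structure Good (S : Submonoid R) (T : C) {X Y : C} {d : ℕ} (θ : Ext X Y d) : Prop where
  inj : ∀ i, 1 ≤ i → ∀ z : Ext Y T i, ∀ j (h : d + i = j), θ.comp z h = 0 → ∃ s ∈ S, s • z = 0
  surj : ∀ i j (h : d + i = j) (y : Ext X T j), ∃ s ∈ S, ∃ z : Ext Y T i, θ.comp z h = s • y

theorem Good.comp {S : Submonoid R} {T X Y Z : C} {d e c : ℕ} {θ : Ext X Y d} {η : Ext Y Z e}
    (hθ : Good S T θ) (hη : Good S T η) (h : d + e = c) : Good S T (θ.comp η h) := by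
  constructor
  · intro i hi z j hj hz
    rw [Ext.comp_assoc θ η z h (rfl : e + i = e + i) (by omega)] at hz
    obtain ⟨s, hs, h1⟩ := hθ.inj (e + i) (by omega) _ j (by omega) hz
    rw [← Ext.comp_smul] at h1
    obtain ⟨s', hs', h2⟩ := hη.inj i hi _ _ rfl h1
    exact ⟨s' * s, S.mul_mem hs' hs, by rw [mul_smul, h2]⟩
  · intro i j hj y
    obtain ⟨s, hs, z1, h1⟩ := hθ.surj (e + i) j (by omega) y
    obtain ⟨s', hs', z, h2⟩ := hη.surj i (e + i) rfl z1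
    refine ⟨s' * s, S.mul_mem hs' hs, z, ?_⟩
    rw [Ext.comp_assoc θ η z h (rfl : e + i = e + i) (by omega), h2, Ext.comp_smul, h1, mul_smul]

theorem Good.mono {S S' : Submonoid R} (hS : S ≤ S') {T X Y : C} {d : ℕ} {θ : Ext X Y d}
    (hθ : Good S T θ) : Good S' T θ := by
  constructor
  · intro i hi z j hj hz
    obtain ⟨s, hs, h1⟩ := hθ.inj i hi z j hj hz
    exact ⟨s, hS hs, h1⟩
  · intro i j hj y
    obtain ⟨s, hs, z, h1⟩ := hθ.surj i j hj y
    exact ⟨s, hS hs, z, h1⟩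

theorem good_ext {S : Submonoid R} {T : C} {E : ShortComplex C} (hE : E.ShortExact)
    (h2 : ∀ i, 1 ≤ i → ST S (Ext E.X₂ T i)) : Good S T hE.extClass := by
  constructor
  · intro i hi z j hj hz
    obtain ⟨x, hx⟩ := Ext.contravariant_sequence_exact₁ hE _ z hj hz
    obtain ⟨s, hs, h⟩ := h2 i hi x
    exact ⟨s, hs, by rw [← hx, ← Ext.comp_smul, h, Ext.comp_zero]⟩
  · intro i j hj y
    obtain ⟨s, hs, h⟩ := h2 j (by omega) ((Ext.mk₀ E.g).comp y (zero_add j))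
    rw [← Ext.comp_smul] at h
    obtain ⟨z, hz⟩ := Ext.contravariant_sequence_exact₃ hE _ (s • y) h hj
    exact ⟨s, hs, z, hz⟩

theorem good_mk₀ {S : Submonoid R} (T : C) {X Y : C} (φ : X ⟶ Y) (ψ : Y ⟶ X) {s : R} (hs : s ∈ S)
    (h1 : φ ≫ ψ = s • 𝟙 X) (h2 : ψ ≫ φ = s • 𝟙 Y) : Good S T (Ext.mk₀ φ) := by
  constructor
  · intro i _ z j hj hz
    obtain rfl : j = i := by omega
    refine ⟨s, hs, ?_⟩
    have h3 := Ext.mk₀_comp_mk₀_assoc ψ φ z
    rw [hz, Ext.comp_zero, h2, Ext.mk₀_smul, Ext.smul_comp, Ext.mk₀_id_comp] at h3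
    exact h3.symm
  · intro i j hj y
    obtain rfl : j = i := by omega
    refine ⟨s, hs, (Ext.mk₀ ψ).comp y (zero_add _), ?_⟩
    rw [Ext.mk₀_comp_mk₀_assoc φ ψ y, h1, Ext.mk₀_smul, Ext.smul_comp, Ext.mk₀_id_comp]

theorem good_iso {S : Submonoid R} (T : C) {X Y : C} (e : X ≅ Y) : Good S T (Ext.mk₀ e.hom) :=
  good_mk₀ T e.hom e.inv S.one_mem (by rw [e.hom_inv_id, one_smul]) (by rw [e.inv_hom_id, one_smul])

theorem ST_third {S : Submonoid R} {T : C} {E : ShortComplex C} (hE : E.ShortExact) {i : ℕ}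
    (h1 : ST S (Ext E.X₁ T i)) (h2 : ST S (Ext E.X₂ T (1 + i))) :
    ST S (Ext E.X₃ T (1 + i)) := by
  intro y
  obtain ⟨s, hs, h⟩ := h2 ((Ext.mk₀ E.g).comp y (zero_add _))
  rw [← Ext.comp_smul] at h
  obtain ⟨z, hz⟩ := Ext.contravariant_sequence_exact₃ hE _ (s • y) h rfl
  obtain ⟨s', hs', h'⟩ := h1 z
  exact ⟨s' * s, S.mul_mem hs' hs, by rw [mul_smul, ← hz, ← Ext.comp_smul, h', Ext.comp_zero]⟩

theorem ST_third_zero {S : Submonoid R} {T : C} {E : ShortComplex C} (hE : E.ShortExact)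
    (h2 : ST S (Ext E.X₂ T 0)) : ST S (Ext E.X₃ T 0) := by
  intro y
  obtain ⟨s, hs, h⟩ := h2 ((Ext.mk₀ E.g).comp y (zero_add _))
  rw [← Ext.comp_smul] at h
  refine ⟨s, hs, ?_⟩
  have := hE.epi_g
  have h3 := Ext.precomp_mk₀_injective_of_epi T E.g
  apply h3
  rw [map_zero]
  exact h

theorem ST_first {S : Submonoid R} {T : C} {E : ShortComplex C} (hE : E.ShortExact) {i : ℕ}
    (h2 : ST S (Ext E.X₂ T i)) (h3 : ST S (Ext E.X₃ T (1 + i))) : ST S (Ext E.X₁ T i) := by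
  intro z
  obtain ⟨s, hs, h⟩ := h3 (hE.extClass.comp z rfl)
  rw [← Ext.comp_smul] at h
  obtain ⟨x, hx⟩ := Ext.contravariant_sequence_exact₁ hE _ (s • z) rfl h
  obtain ⟨s', hs', h'⟩ := h2 x
  exact ⟨s' * s, S.mul_mem hs' hs, by rw [mul_smul, ← hx, ← Ext.comp_smul, h', Ext.comp_zero]⟩

/-- transfer of torsion along mutually inverse maps up to `s` -/
theorem ST_of_maps {S : Submonoid R} {T X Y : C} (φ : X ⟶ Y) (ψ : Y ⟶ X) {s : R} (hs : s ∈ S)
    (h1 : φ ≫ ψ = s • 𝟙 X) {i : ℕ} (h : ST S (Ext Y T i)) : ST S (Ext X T i) := by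
  intro x
  obtain ⟨s', hs', h'⟩ := h ((Ext.mk₀ ψ).comp x (zero_add _))
  refine ⟨s' * s, S.mul_mem hs' hs, ?_⟩
  have h3 := Ext.mk₀_comp_mk₀_assoc φ ψ x
  rw [h1, Ext.mk₀_smul, Ext.smul_comp, Ext.mk₀_id_comp] at h3
  rw [mul_smul, ← h3, ← Ext.comp_smul, h', Ext.comp_zero]

/-- the engine -/
theorem engine (S : Submonoid R) (a : R) (T : C) (n : ℕ)
    (W Q V P : ℕ → C) (f : ∀ j, W j ⟶ Q j) (g : ∀ j, Q j ⟶ W (j + 1))
    (f' : ∀ j, V (j + 1) ⟶ P j) (g' : ∀ j, P j ⟶ V j)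
    (w : ∀ j, f j ≫ g j = 0) (w' : ∀ j, f' j ≫ g' j = 0)
    (hE : ∀ j, j < n + 1 → (ShortComplex.mk (f j) (g j) (w j)).ShortExact)
    (hE' : ∀ j, j < n + 1 → (ShortComplex.mk (f' j) (g' j) (w' j)).ShortExact)
    (hQ : ∀ j, j < n + 1 → ∀ i, 1 ≤ i → ∀ z : Ext (Q j) T i, z = 0)
    (hW0 : ∀ j, j < n + 1 → ∀ z : Ext (W j) T 0, z = 0)
    (hP : ∀ j, j < n + 1 → ∀ i, 1 ≤ i → ST S (Ext (P j) T i))
    (hP0 : ∀ j, j < n → ST S (Ext (P j) T 0))
    (hV : ∀ j, j < n + 1 → ∀ z : Ext (V j) T 0, a • z = 0 → z = 0)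
    (φ : W 0 ⟶ V 0) (ψ : V 0 ⟶ W 0) (s0 : R) (hs0 : s0 ∈ S) (h1 : φ ≫ ψ = s0 • 𝟙 (W 0))
    (h2 : ψ ≫ φ = s0 • 𝟙 (V 0))
    (P0 : C) (α : W 0 ⟶ P0) (β : P0 ⟶ W 0) (hαβ : α ≫ β = a • 𝟙 (W 0))
    (hP0' : ∀ i, 1 ≤ i → ∀ z : Ext P0 T i, z = 0)
    (e1 : T ≅ W (n + 1)) (e2 : V (n + 1) ≅ T)
    (hS : ∀ s ∈ S, ∃ t c : R, t * s = 1 + a * c)
    (htop : ∀ (k : P n ⟶ T) (r : R), f' n ≫ k = r • e2.hom → a ∣ r) :
    ∃ x : Ext T T (2 * (n + 1)),
      (∀ i, 1 ≤ i → ∀ z : Ext T T i, x.comp z rfl = 0 → z = 0) ∧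
      (∀ i, ∀ y : Ext T T (2 * (n + 1) + (i + 1)), ∃ z : Ext T T (i + 1), x.comp z rfl = y) ∧
      (∀ y : Ext T T (2 * (n + 1)), ∃ z : Ext T T 0, x.comp z (add_zero _) = y) ∧
      (∀ i, 1 ≤ i → ∀ z : Ext T T i, a • z = 0) ∧
      (∀ i, 1 ≤ i → i < 2 * (n + 1) → ∀ z : Ext T T i, z = 0) ∧
      (∀ r : R, r • x = 0 → a ∣ r) := by
  -- torsion
  have htor : ∀ (X : C) (i : ℕ) (z : Ext X T i), a • z = 0 → (∃ s ∈ S, s • z = 0) → z = 0 := by
    rintro X i z ha ⟨s, hs, hz⟩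
    obtain ⟨t, c, htc⟩ := hS s hs
    have h3 : (t * s) • z = 0 := by rw [mul_smul, hz, smul_zero]
    rw [htc, add_smul, one_smul, mul_comm a c, mul_smul, ha, smul_zero, add_zero] at h3
    exact h3
  -- first chain
  have hu : ∀ j, j ≤ n + 1 → ∃ u : Ext (W j) (W 0) j, Good (⊥ : Submonoid R) T u := by
    intro j
    induction j with
    | zero => intro _; exact ⟨Ext.mk₀ (𝟙 _), good_iso T (Iso.refl _)⟩
    | succ j ih =>
      intro hj
      obtain ⟨u, hu⟩ := ih (by omega)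
      have h3 : Good (⊥ : Submonoid R) T (hE j (by omega)).extClass :=
        good_ext _ (fun i hi z => ⟨1, Submonoid.one_mem _, by
          rw [one_smul]; exact hQ j (by omega) i hi z⟩)
      exact ⟨_, h3.comp hu (by omega : 1 + j = j + 1)⟩
  -- vanishing for the first chain
  have hvan : ∀ j, j ≤ n + 1 → ∀ i, 1 ≤ i → i ≤ j → ∀ z : Ext (W j) T i, z = 0 := by
    intro j
    induction j with
    | zero => intro _ i h3 h4; omega
    | succ j ih =>
      intro hj i h3 h4 z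
      obtain ⟨i', rfl⟩ : ∃ i', i = 1 + i' := ⟨i - 1, by omega⟩
      have h5 : Good (⊥ : Submonoid R) T (hE j (by omega)).extClass :=
        good_ext _ (fun i hi z => ⟨1, Submonoid.one_mem _, by
          rw [one_smul]; exact hQ j (by omega) i hi z⟩)
      obtain ⟨s, hs, z1, hz1⟩ := h5.surj i' (1 + i') rfl z
      rw [Submonoid.mem_bot] at hs
      subst hs
      rw [one_smul] at hz1
      have h6 : z1 = 0 := by
        rcases Nat.eq_zero_or_pos i' with h7 | h7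
        · subst h7
          exact hW0 j (by omega) z1
        · exact ih (by omega) i' h7 (by omega) z1
      rw [← hz1, h6, Ext.comp_zero]
  obtain ⟨u, hu⟩ := hu (n + 1) le_rfl
  -- a-torsion for `W 0`
  have haW : ∀ i, 1 ≤ i → ∀ z : Ext (W 0) T i, a • z = 0 := by
    intro i hi z
    have h3 := Ext.mk₀_comp_mk₀_assoc α β z
    rw [hαβ, Ext.mk₀_smul, Ext.smul_comp, Ext.mk₀_id_comp,
      hP0' i hi ((Ext.mk₀ β).comp z (zero_add _)), Ext.comp_zero] at h3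
    exact h3.symm
  have haWn : ∀ i, 1 ≤ i → ∀ z : Ext (W (n + 1)) T i, a • z = 0 := by
    intro i hi z
    by_cases h3 : i ≤ n + 1
    · rw [hvan (n + 1) le_rfl i hi h3 z, smul_zero]
    · obtain ⟨i', rfl⟩ : ∃ i', i = n + 1 + i' := ⟨i - (n + 1), by omega⟩
      obtain ⟨s, hs, z1, hz1⟩ := hu.surj i' (n + 1 + i') rfl z
      rw [Submonoid.mem_bot] at hs
      subst hs
      rw [one_smul] at hz1
      rw [← hz1, ← Ext.comp_smul, haW i' (by omega), Ext.comp_zero]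
  have haT : ∀ i, 1 ≤ i → ∀ z : Ext T T i, a • z = 0 := by
    intro i hi z
    have h3 := Ext.mk₀_comp_mk₀_assoc e1.hom e1.inv z
    rw [e1.hom_inv_id, Ext.mk₀_id_comp] at h3
    rw [← h3, ← Ext.comp_smul, haWn i hi, Ext.comp_zero]
  -- second chain
  have hv : ∀ j, j ≤ n + 1 → ∃ v : Ext (V 0) (V j) j, Good S T v := by
    intro j
    induction j with
    | zero => intro _; exact ⟨Ext.mk₀ (𝟙 _), good_iso T (Iso.refl _)⟩
    | succ j ih =>
      intro hj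
      obtain ⟨v, hv⟩ := ih (by omega)
      have h3 : Good S T (hE' j (by omega)).extClass :=
        good_ext _ (fun i hi => hP j (by omega) i hi)
      exact ⟨_, hv.comp h3 (by omega : j + 1 = j + 1)⟩
  have hφ : Good S T (Ext.mk₀ φ) := good_mk₀ T φ ψ hs0 h1 h2
  have huS : Good S T u := hu.mono bot_le
  -- vanishing of intermediate groups
  have hmid : ∀ j, 1 ≤ j → j < n + 1 → ∀ z : Ext (W (n + 1)) T (n + 1 + j), z = 0 := by
    intro j hj1 hj2 y
    obtain ⟨j', rfl⟩ : ∃ j', j = j' + 1 := ⟨j - 1, by omega⟩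
    obtain ⟨v, hv⟩ := hv j' (by omega)
    have hθ := (huS.comp hφ (add_zero _)).comp hv (rfl : n + 1 + j' = n + 1 + j')
    have hC : Good S T (hE' j' (by omega)).extClass :=
      good_ext _ (fun i hi => hP j' (by omega) i hi)
    have hθ' := hθ.comp hC (rfl : n + 1 + j' + 1 = n + 1 + j' + 1)
    obtain ⟨s, hs, k, hk⟩ := hθ'.surj 0 (n + 1 + (j' + 1)) (by omega) y
    have h3 : (((u.comp (Ext.mk₀ φ) (add_zero _)).comp v rfl).comp
        (hE' j' (by omega)).extClass rfl).comp (a • k)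
        (by omega : n + 1 + j' + 1 + 0 = n + 1 + (j' + 1)) = 0 := by
      rw [Ext.comp_smul, hk, smul_comm, haWn _ (by omega), smul_zero]
    rw [Ext.comp_assoc _ _ (a • k) rfl (rfl : 1 + 0 = 1 + 0) (by omega)] at h3
    obtain ⟨s', hs', h4⟩ := hθ.inj (1 + 0) (by omega) _ _ (by omega) h3
    rw [← Ext.comp_smul] at h4
    obtain ⟨x2, hx2⟩ := Ext.contravariant_sequence_exact₁ (hE' j' (by omega)) _ _ rfl h4
    obtain ⟨s'', hs'', h5⟩ := hP0 j' (by omega) x2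
    have h6 : a • ((s'' * s') • k) = 0 := by
      have h7 : s'' • (s' • (a • k)) = 0 := by
        rw [← hx2, ← Ext.comp_smul]
        have h8 : s'' • x2 = 0 := h5
        rw [h8, Ext.comp_zero]
      rw [smul_comm, mul_smul]
      exact h7
    have h7 := hV (j' + 1) (by omega) _ h6
    apply htor _ _ y (haWn _ (by omega) y)
    refine ⟨s'' * s' * s, S.mul_mem (S.mul_mem hs'' hs') hs, ?_⟩
    rw [mul_smul, ← hk, ← Ext.comp_smul, h7, Ext.comp_zero]
  obtain ⟨v, hvv⟩ := hv n (by omega)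
  have hC : Good S T (hE' n (by omega)).extClass :=
    good_ext _ (fun i hi => hP n (by omega) i hi)
  have hθ := ((good_iso (S := S) T e1).comp (huS.comp hφ (add_zero _)) (zero_add _)).comp hvv
    (rfl : n + 1 + n = n + 1 + n)
  have hθ2 := hθ.comp hC (by omega : n + 1 + n + 1 = 2 * (n + 1))
  have hx := hθ2.comp (good_iso (S := S) T e2) (add_zero _)
  refine ⟨(((((Ext.mk₀ e1.hom).comp (u.comp (Ext.mk₀ φ) (add_zero _)) (zero_add _)).comp v
    (rfl : n + 1 + n = n + 1 + n)).comp (hE' n (by omega)).extClass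
    (by omega : n + 1 + n + 1 = 2 * (n + 1))).comp (Ext.mk₀ e2.hom) (add_zero _)),
    fun i hi z hz => ?_, fun i y => ?_, fun y => ?_, haT, fun i hi1 hi2 z => ?_,
    fun r hr => ?_⟩
  · exact htor _ _ z (haT i hi z) (hx.inj i hi z _ rfl hz)
  · obtain ⟨s, hs, z, hz⟩ := hx.surj (i + 1) _ rfl y
    obtain ⟨t, c, htc⟩ := hS s hs
    refine ⟨t • z, ?_⟩
    rw [Ext.comp_smul, hz, smul_smul, htc, add_smul, one_smul, mul_comm a c, mul_smul,
      haT _ (by omega) y, smul_zero, add_zero]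
  · obtain ⟨s, hs, z, hz⟩ := hx.surj 0 _ (add_zero _) y
    obtain ⟨t, c, htc⟩ := hS s hs
    refine ⟨t • z, ?_⟩
    rw [Ext.comp_smul, hz, smul_smul, htc, add_smul, one_smul, mul_comm a c, mul_smul,
      haT _ (by omega) y, smul_zero, add_zero]
  · have h3 := Ext.mk₀_comp_mk₀_assoc e1.hom e1.inv z
    rw [e1.hom_inv_id, Ext.mk₀_id_comp] at h3
    rw [← h3]
    by_cases h4 : i ≤ n + 1
    · rw [hvan (n + 1) le_rfl i hi1 h4 ((Ext.mk₀ e1.inv).comp z (zero_add _)), Ext.comp_zero]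
    · obtain ⟨j, rfl⟩ : ∃ j, i = n + 1 + j := ⟨i - (n + 1), by omega⟩
      rw [hmid j (by omega) (by omega) ((Ext.mk₀ e1.inv).comp z (zero_add _)), Ext.comp_zero]
  · rw [← Ext.comp_smul, Ext.comp_assoc _ _ (r • Ext.mk₀ e2.hom) _ (add_zero 1) (by omega)] at hr
    obtain ⟨s, hs, h3⟩ := hθ.inj 1 le_rfl _ _ (by omega) hr
    rw [← Ext.comp_smul] at h3
    obtain ⟨x2, hx2⟩ := Ext.contravariant_sequence_exact₁ (hE' n (by omega)) _ _ (add_zero 1) h3
    obtain ⟨k, rfl⟩ := (Ext.mk₀_bijective _ _).2 x2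
    have h4 : f' n ≫ k = (s * r) • e2.hom := by
      apply (Ext.mk₀_bijective _ _).1
      rw [← Ext.mk₀_comp_mk₀, Ext.mk₀_smul, mul_smul]
      exact hx2
    obtain ⟨c, hc⟩ := htop k (s * r) h4
    obtain ⟨t, c', htc⟩ := hS s hs
    refine ⟨t * c - c' * r, ?_⟩
    linear_combination t * hc - r * htc

end

end Pool.Agent.H47.TL
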