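import Mathlib

open CategoryTheory Abelian DirectSum

namespace Pool.Agent.H47.TL

universe w v u t

section
variable {C : Type u} [Category.{v} C] [Abelian C] [HasExt.{w} C]

/-- the degree `i` part of the Yoneda algebra of `T` -/
abbrev YE (T : C) (i : ℕ) : Type w := Ext.{w} T T i

/-- the identity of `T` as an element of degree `0` -/
noncomputable def YE.one (T : C) : YE T 0 := Ext.mk₀ (𝟙 T)

/-- The Yoneda product: `x * y` is the composite of `x` and `y` (first `x`, then `y`). -/
noncomputable def YE.mul {T : C} {i j : ℕ} (x : YE T i) (y : YE T j) : YE T (i + j) :=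
  x.comp y rfl

theorem YE.mk_comp {T : C} {i j c : ℕ} (x : YE T i) (y : YE T j) (h : i + j = c) :
    (GradedMonoid.mk (i + j) (YE.mul x y) : GradedMonoid (YE T)) =
      GradedMonoid.mk c (x.comp y h) := by
  subst h; rfl

theorem YE.one_mul' {T : C} (x : GradedMonoid (YE T)) :
    GradedMonoid.mk (0 + x.1) (YE.mul (YE.one T) x.2) = x := by
  rw [YE.mk_comp _ _ (zero_add x.1), YE.one, Ext.mk₀_id_comp]
  rfl

theorem YE.mul_one' {T : C} (x : GradedMonoid (YE T)) :
    GradedMonoid.mk (x.1 + 0) (YE.mul x.2 (YE.one T)) = x := by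
  rw [YE.mk_comp _ _ (add_zero x.1), YE.one, Ext.comp_mk₀_id]
  rfl

theorem YE.mul_assoc' {T : C} (x y z : GradedMonoid (YE T)) :
    (GradedMonoid.mk (x.1 + y.1 + z.1) (YE.mul (YE.mul x.2 y.2) z.2) : GradedMonoid (YE T)) =
      GradedMonoid.mk (x.1 + (y.1 + z.1)) (YE.mul x.2 (YE.mul y.2 z.2)) := by
  rw [YE.mk_comp (YE.mul x.2 y.2) z.2 (add_assoc x.1 y.1 z.1)]
  unfold YE.mul
  rw [Ext.comp_assoc x.2 y.2 z.2 rfl rfl (by omega)]

theorem YE.mul_zero' {T : C} {i j : ℕ} (x : YE T i) : YE.mul x (0 : YE T j) = 0 :=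
  Ext.comp_zero x T _ _ _

theorem YE.zero_mul' {T : C} {i j : ℕ} (y : YE T j) : YE.mul (0 : YE T i) y = 0 :=
  Ext.zero_comp T _ y _ rfl

theorem YE.mul_add' {T : C} {i j : ℕ} (x : YE T i) (y z : YE T j) :
    YE.mul x (y + z) = YE.mul x y + YE.mul x z := Ext.comp_add x y z rfl

theorem YE.add_mul' {T : C} {i j : ℕ} (x y : YE T i) (z : YE T j) :
    YE.mul (x + y) z = YE.mul x z + YE.mul y z := Ext.add_comp x y z rfl

/-- integers in degree `0` -/
noncomputable def YE.int (T : C) (m : ℤ) : YE T 0 := m • YE.one T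

/-- natural numbers in degree `0` -/
noncomputable def YE.nat (T : C) (m : ℕ) : YE T 0 := m • YE.one T

theorem YE.nat_zero (T : C) : YE.nat T 0 = 0 := zero_smul _ _

theorem YE.nat_succ (T : C) (m : ℕ) : YE.nat T (m + 1) = YE.nat T m + YE.one T := by
  unfold YE.nat
  rw [add_smul, one_smul]

theorem YE.int_nat (T : C) (m : ℕ) : YE.int T m = YE.nat T m := natCast_zsmul _ _

theorem YE.int_neg (T : C) (m : ℕ) : YE.int T (Int.negSucc m) = -YE.nat T (m + 1) :=
  negSucc_zsmul _ _

noncomputable instance YE.gOne (T : C) : GradedMonoid.GOne (YE T) := ⟨YE.one T⟩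

noncomputable instance YE.gMul (T : C) : GradedMonoid.GMul (YE T) := ⟨YE.mul⟩

noncomputable instance YE.gMonoid (T : C) : GradedMonoid.GMonoid (YE T) where
  one_mul := YE.one_mul'
  mul_one := YE.mul_one'
  mul_assoc := YE.mul_assoc'

/-- The Yoneda algebra is a graded ring. -/
noncomputable instance YE.gRing (T : C) : DirectSum.GRing (YE T) where
  toGMonoid := YE.gMonoid T
  mul_zero := YE.mul_zero'
  zero_mul := YE.zero_mul'
  mul_add := YE.mul_add'
  add_mul := YE.add_mul'
  natCast := YE.nat T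
  natCast_zero := YE.nat_zero T
  natCast_succ := YE.nat_succ T
  intCast := YE.int T
  intCast_ofNat := YE.int_nat T
  intCast_negSucc_ofNat := YE.int_neg T

end

section
variable {R : Type t} [CommRing R] {C : Type u} [Category.{v} C] [Abelian C] [Linear R C]
  [HasExt.{w} C]

/-- the scalar `r` in degree `0`: `r` times the identity of `T` -/
noncomputable def YE.scal (R : Type t) [CommRing R] {C : Type u} [Category.{v} C] [Abelian C]
    [Linear R C] [HasExt.{w} C] (T : C) : R →+ YE T 0 :=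
  (LinearMap.toSpanSingleton R (Ext.{w} T T 0) (YE.one T)).toAddMonoidHom

theorem YE.scal_apply (T : C) (r : R) : YE.scal R T r = (r • (YE.one T) : Ext.{w} T T 0) := rfl

theorem YE.scal_one (T : C) : YE.scal R T 1 = YE.one T := one_smul R (YE.one T : Ext.{w} T T 0)

theorem YE.scal_mul (T : C) (r s : R) :
    (GradedMonoid.mk 0 (YE.scal R T (r * s)) : GradedMonoid (YE T)) =
      GradedMonoid.mk (0 + 0) (YE.mul (YE.scal R T r) (YE.scal R T s)) := by
  rw [YE.mk_comp _ _ (add_zero 0), YE.scal_apply, YE.scal_apply, YE.scal_apply, Ext.comp_smul,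
    Ext.smul_comp, YE.one, Ext.mk₀_id_comp, smul_smul, mul_comm s r]

theorem YE.scal_comm (T : C) (r : R) (x : GradedMonoid (YE T)) :
    (GradedMonoid.mk (0 + x.1) (YE.mul (YE.scal R T r) x.2) : GradedMonoid (YE T)) =
      GradedMonoid.mk (x.1 + 0) (YE.mul x.2 (YE.scal R T r)) := by
  rw [YE.mk_comp _ _ (zero_add x.1), YE.mk_comp _ _ (add_zero x.1), YE.scal_apply, Ext.comp_smul,
    Ext.smul_comp, YE.one, Ext.mk₀_id_comp, Ext.comp_mk₀_id]

theorem YE.scal_smul (T : C) (r : R) (x : GradedMonoid (YE T)) :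
    (GradedMonoid.mk x.1 (r • x.2) : GradedMonoid (YE T)) =
      GradedMonoid.mk (0 + x.1) (YE.mul (YE.scal R T r) x.2) := by
  rw [YE.mk_comp _ _ (zero_add x.1), YE.scal_apply, Ext.smul_comp, YE.one, Ext.mk₀_id_comp]

/-- scalars act on the Yoneda algebra through the `R`-linear structure -/
noncomputable instance YE.gAlgebra (T : C) : DirectSum.GAlgebra R (YE T) where
  toFun := YE.scal R T
  map_one := YE.scal_one T
  map_mul := YE.scal_mul T
  commutes := YE.scal_comm T
  smul_def := YE.scal_smul T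

end

end Pool.Agent.H47.TL
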