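import Pool.Agent.H47.TL.TrivMod
import Pool.Agent.H47.TL.YonDefs

open CategoryTheory Abelian DirectSum
open scoped ModuleCat.Algebra

namespace Pool.Agent.H47.TL

universe u t

/-- the trivial module as an object of the category of modules -/
noncomputable abbrev TT (R : Type u) [CommRing R] (a : R) (L : ℕ) : ModuleCat.{u} (TLA R a L) :=
  ModuleCat.of (TLA R a L) (Triv R a L)

instance hasExt_TL (R : Type u) [CommRing R] (a : R) (L : ℕ) :
    HasExt.{u} (ModuleCat.{u} (TLA R a L)) := inferInstance

/-- The Yoneda algebra `Ext^*(R, R)` over the Temperley-Lieb algebra on `L` strands: the direct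
sum of the groups `Ext^i(R, R)` with the composition product. -/
def YTL (R : Type u) [CommRing R] (a : R) (L : ℕ) : Type u := ⨁ i, YE.{u} (TT R a L) i

section
variable {R : Type u} [CommRing R] {a : R} {L : ℕ}

noncomputable instance YTL.instRing : Ring (YTL R a L) := DirectSum.ring (YE (TT R a L))

noncomputable instance YTL.instAlgebra : Algebra R (YTL R a L) :=
  DirectSum.instAlgebra R (YE (TT R a L))

end

/-- the degree `i` part `Ext^i(R, R)` of the Yoneda algebra -/
noncomputable def YTL.deg (R : Type u) [CommRing R] (a : R) (L i : ℕ) : Submodule R (YTL R a L) :=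
  LinearMap.range (DirectSum.lof R ℕ (YE (TT R a L)) i)

open Polynomial in
/-- `R[x]/(a x)` -/
abbrev RXa (R : Type t) [CommRing R] (a : R) : Type t := R[X] ⧸ Ideal.span {(C a * X : R[X])}

/-- the class of `x` in `R[x]/(a x)` -/
noncomputable def xcl (R : Type t) [CommRing R] (a : R) : RXa R a :=
  Ideal.Quotient.mk _ Polynomial.X

/-- the degree `i` part of `R[x]/(a x)` where `x` has degree `N` -/
noncomputable def grp (R : Type t) [CommRing R] (a : R) (N i : ℕ) : Submodule R (RXa R a) :=
  Submodule.span R {y | ∃ j : ℕ, N * j = i ∧ y = xcl R a ^ j}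

end Pool.Agent.H47.TL
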