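import Pool.Agent.H47.TL.Dual

namespace Pool.Agent.H47.TL

universe u

theorem cup_idd_ne {L b b' : ℕ} (hb : b < b') (hb' : b' ≤ L) :
    cupf b (idd L) ≠ cupf b' (idd L) := by
  intro h
  have h1 := congrFun h (b + 1)
  rw [cupf_right] at h1
  by_cases e : b + 1 = b'
  · subst e
    rw [cupf_left] at h1
    omega
  · unfold cupf idd up dn at h1
    split_ifs at h1 <;> omega

theorem cup_idd_ncm {L b : ℕ} (hb : b ≤ L) : NCM (L + 1 + (L + 1)) (cupf b (idd L)) :=
  (cupf_ncm (idd_ncm L) (by omega : b ≤ L + L)).cast (by ring)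

/-- which diagrams give the identity after a cap -/
theorem cap_eq_idd {L l : ℕ} (hl : l + 1 ≤ L) {f : ℕ → ℕ} (hf : NCM (L + 1 + (L + 1)) f)
    (h : capf l f = idd L) :
    f = cupf l (idd L) ∨ f = cupf (l + 1) (idd L) ∨ ∃ l', l = l' + 1 ∧ f = cupf l' (idd L) := by
  have h1 : ∃ b, b ≤ L ∧ f = cupf b (idd L) := by
    apply eq_cup_idd hf
    intro p hp1 hp2 hp3
    have h2 := capf_arc hf (l := l) hp3 (by omega) (by omega) (by omega)
    rw [h] at h2
    unfold dn idd at h2
    split_ifs at h2 <;> omega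
  obtain ⟨b, hb, rfl⟩ := h1
  by_cases e1 : b = l
  · left; rw [e1]
  · by_cases e2 : b = l + 1
    · right; left; rw [e2]
    · by_cases e3 : l = b + 1
      · right; right; exact ⟨b, e3, rfl⟩
      · exfalso
        have h2 := capf_arc hf (l := l) (b := b) (cupf_left _ _) e1 e2 (Ne.symm e3)
        rw [h] at h2
        unfold dn idd at h2
        split_ifs at h2 <;> omega

section
variable {R : Type u} [CommRing R] {a : R}

/-- the underlying element of the base ring -/
def tv {L : ℕ} (t : Triv R a L) : R := t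

/-- the coefficient functional of the diagram `cupf b (idd L)` -/
noncomputable def xi (R : Type u) [CommRing R] (a : R) (L b : ℕ) : DM R a (L + 1) (L + 1) :=
  lft (fun f => by classical exact if f.1 = cupf b (idd L) then (1 : R) else 0)

theorem ev_xi {L b : ℕ} (f : Dg (L + 1 + (L + 1))) [Decidable (f.1 = cupf b (idd L))] :
    ev (xi R a L b) (bs a f) = if f.1 = cupf b (idd L) then 1 else 0 := by
  refine (lft_bs (a := a) (L := L + 1) (k := L + 1) _ f).trans ?_
  congr

theorem xi_mem {L b : ℕ} (hb : b ≤ L) : xi R a L b ∈ VV a (L + 1) (L + 1) 1 := by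
  classical
  rw [mem_VV]
  rintro g ⟨p, hp1, hp2, hp3⟩
  rw [ev_xi, if_neg]
  intro h
  rw [h] at hp3
  unfold cupf idd up dn at hp3
  split_ifs at hp3 <;> omega

theorem ev_UU {L l : ℕ} (hl : l + 2 ≤ L + 1) (ξ : DM R a (L + 1) (L + 1))
    (f : Dg (L + 1 + (L + 1))) :
    ev (UU a l hl • ξ) (bs a f) = a ^ capc l f.1 * ev ξ (bs a (UD l hl f)) := by
  rw [ev_act, st_UU, UU_smul_bs, ev_smul']

theorem UU_xi_zero {L : ℕ} (hl : 0 + 2 ≤ L + 1) :
    UU a 0 hl • xi R a L 0 = a • xi R a L 0 + xi R a L 1 := by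
  classical
  apply DM.ext
  intro f
  rw [ev_UU, ev_add, ev_smul, ev_xi, ev_xi, ev_xi]
  have hinj : ∀ g : Dg (L + 1 + (L + 1)), (UD 0 hl g).1 = cupf 0 (idd L) ↔
      capf 0 g.1 = idd L := by
    intro g
    constructor
    · intro h
      have h1 : capf 0 (cupf 0 (capf 0 g.1)) = capf 0 (cupf 0 (idd L)) := congrArg (capf 0) h
      rwa [capf_cupf, capf_cupf] at h1
    · intro h
      change cupf 0 (capf 0 g.1) = _
      rw [h]
  simp only [hinj]
  have hz := capf_cupf_succ (idd_ncm L) (by omega : 0 + 1 ≤ L + L)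
  by_cases h0 : f.1 = cupf 0 (idd L)
  · have h1 : f.1 ≠ cupf 1 (idd L) := by
      rw [h0]; exact cup_idd_ne (by omega) (by omega)
    have h2 : capf 0 f.1 = idd L := by rw [h0, capf_cupf]
    have h3 : capc 0 f.1 = 1 := by rw [h0, capc_cupf]
    rw [if_pos h2, if_pos h0, if_neg h1, h3]
    ring
  · by_cases h1 : f.1 = cupf 1 (idd L)
    · have h2 : capf 0 f.1 = idd L := by rw [h1]; exact hz.1
      have h3 : capc 0 f.1 = 0 := by rw [h1]; exact hz.2
      rw [if_pos h2, if_neg h0, if_pos h1, h3]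
      ring
    · have h2 : ¬ capf 0 f.1 = idd L := by
        intro h2
        rcases cap_eq_idd (by omega : 0 + 1 ≤ L) f.2 h2 with h | h | ⟨l', h, _⟩
        · exact h0 h
        · exact h1 h
        · omega
      rw [if_neg h2, if_neg h0, if_neg h1]
      ring

theorem UU_xi_succ {L l : ℕ} (hl : l + 1 + 2 ≤ L + 1) :
    UU a (l + 1) hl • xi R a L (l + 1) =
      xi R a L l + a • xi R a L (l + 1) + xi R a L (l + 2) := by
  classical
  apply DM.ext
  intro f
  rw [ev_UU, ev_add, ev_add, ev_smul, ev_xi, ev_xi, ev_xi, ev_xi]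
  have hinj : ∀ g : Dg (L + 1 + (L + 1)), (UD (l + 1) hl g).1 = cupf (l + 1) (idd L) ↔
      capf (l + 1) g.1 = idd L := by
    intro g
    constructor
    · intro h
      have h1 : capf (l + 1) (cupf (l + 1) (capf (l + 1) g.1)) =
        capf (l + 1) (cupf (l + 1) (idd L)) := congrArg (capf (l + 1)) h
      rwa [capf_cupf, capf_cupf] at h1
    · intro h
      change cupf (l + 1) (capf (l + 1) g.1) = _
      rw [h]
  simp only [hinj]
  have hz := capf_cupf_succ (idd_ncm L) (by omega : l + 1 + 1 ≤ L + L)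
  have hz' := capf_succ_cupf (idd_ncm L) (by omega : l + 1 ≤ L + L)
  by_cases h0 : f.1 = cupf (l + 1) (idd L)
  · have h1 : f.1 ≠ cupf (l + 2) (idd L) := by
      rw [h0]; exact cup_idd_ne (by omega) (by omega)
    have h1' : f.1 ≠ cupf l (idd L) := by
      rw [h0]; exact (cup_idd_ne (by omega) (by omega)).symm
    have h2 : capf (l + 1) f.1 = idd L := by rw [h0, capf_cupf]
    have h3 : capc (l + 1) f.1 = 1 := by rw [h0, capc_cupf]
    rw [if_pos h2, if_pos h0, if_neg h1, if_neg h1', h3]
    ring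
  · by_cases h1 : f.1 = cupf (l + 2) (idd L)
    · have h1' : f.1 ≠ cupf l (idd L) := by
        rw [h1]; exact (cup_idd_ne (by omega) (by omega)).symm
      have h2 : capf (l + 1) f.1 = idd L := by rw [h1]; exact hz.1
      have h3 : capc (l + 1) f.1 = 0 := by rw [h1]; exact hz.2
      rw [if_pos h2, if_neg h0, if_pos h1, if_neg h1', h3]
      ring
    · by_cases h1' : f.1 = cupf l (idd L)
      · have h2 : capf (l + 1) f.1 = idd L := by rw [h1']; exact hz'.1
        have h3 : capc (l + 1) f.1 = 0 := by rw [h1']; exact hz'.2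
        rw [if_pos h2, if_neg h0, if_neg h1, if_pos h1', h3]
        ring
      · have h2 : ¬ capf (l + 1) f.1 = idd L := by
          intro h2
          rcases cap_eq_idd (by omega : l + 1 + 1 ≤ L) f.2 h2 with h | h | ⟨l', h, h3⟩
          · exact h0 h
          · exact h1 h
          · have : l' = l := by omega
            subst this
            exact h1' h3
        rw [if_neg h2, if_neg h0, if_neg h1, if_neg h1']
        ring

/-- the augmentation as a functional -/
noncomputable def epsD (R : Type u) [CommRing R] (a : R) (L : ℕ) : DM R a L L := eps₀ R a L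

theorem ev_epsD {L : ℕ} (m : TLA R a L) : ev (epsD R a L) m = eps R a L m := rfl

theorem xi_top (R : Type u) [CommRing R] (a : R) (L : ℕ) : xi R a L L = epsD R a (L + 1) := by
  classical
  apply DM.ext
  intro f
  rw [ev_xi, ev_epsD, eps_bs]
  have : f.1 = cupf L (idd L) ↔ f = one' (L + 1) := by
    rw [← idd_succ]
    exact ⟨fun h => Subtype.ext h, fun h => by rw [h]; rfl⟩
  simp only [this]

/-- the key divisibility: a homomorphism from `V(L;1)` to the trivial module has values divisible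
by `a` on the augmentation -/
theorem dvd_top {L : ℕ} (g : VV a (L + 1) (L + 1) 1 →ₗ[TLA R a (L + 1)] Triv R a (L + 1))
    (hL : ∃ m, L = 2 * m + 1) (h : xi R a L L ∈ VV a (L + 1) (L + 1) 1) :
    ∃ c : R, tv (g ⟨xi R a L L, h⟩) = a * c := by
  have main : ∀ m, ∀ hm : 2 * m + 1 ≤ L, ∃ c : R,
      tv (g ⟨xi R a L (2 * m + 1), xi_mem hm⟩) = a * c := by
    intro m
    induction m with
    | zero =>
      intro hm
      have h1 : UU a 0 (by omega : 0 + 2 ≤ L + 1) • (⟨xi R a L 0, xi_mem (by omega)⟩ :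
          VV a (L + 1) (L + 1) 1) = algebraMap R (TLA R a (L + 1)) a •
          (⟨xi R a L 0, xi_mem (by omega)⟩ : VV a (L + 1) (L + 1) 1) +
          ⟨xi R a L 1, xi_mem hm⟩ := by
        apply Subtype.ext
        change UU a 0 _ • xi R a L 0 = algebraMap R (TLA R a (L + 1)) a • xi R a L 0 + xi R a L 1
        rw [UU_xi_zero, algebraMap_smul]
      have h2 := congrArg g h1
      rw [map_add, map_smul, map_smul, smul_triv, smul_triv, eps_UU, zero_smul,
        AlgHom.commutes] at h2
      refine ⟨-tv (g ⟨xi R a L 0, xi_mem (by omega)⟩), ?_⟩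
      have h3 : (0 : R) = a * tv (g ⟨xi R a L 0, xi_mem (by omega)⟩) +
        tv (g ⟨xi R a L 1, xi_mem hm⟩) := h2
      have h4 : tv (g ⟨xi R a L 1, xi_mem hm⟩) = a * -tv (g ⟨xi R a L 0, xi_mem (by omega)⟩) := by
        linear_combination -h3
      exact h4
    | succ m ih =>
      intro hm
      obtain ⟨c, hc⟩ := ih (by omega)
      have h1 : UU a (2 * m + 2) (by omega : 2 * m + 2 + 2 ≤ L + 1) •
          (⟨xi R a L (2 * m + 2), xi_mem (by omega)⟩ : VV a (L + 1) (L + 1) 1) =
          ⟨xi R a L (2 * m + 1), xi_mem (by omega)⟩ + algebraMap R (TLA R a (L + 1)) a •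
          (⟨xi R a L (2 * m + 2), xi_mem (by omega)⟩ : VV a (L + 1) (L + 1) 1) +
          ⟨xi R a L (2 * (m + 1) + 1), xi_mem hm⟩ := by
        apply Subtype.ext
        change UU a (2 * m + 1 + 1) _ • xi R a L (2 * m + 1 + 1) = xi R a L (2 * m + 1) +
          algebraMap R (TLA R a (L + 1)) a • xi R a L (2 * m + 1 + 1) + xi R a L (2 * m + 1 + 2)
        rw [UU_xi_succ, algebraMap_smul]
      have h2 := congrArg g h1
      rw [map_add, map_add, map_smul, map_smul, smul_triv, smul_triv, eps_UU, zero_smul,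
        AlgHom.commutes] at h2
      have h3 : (0 : R) = tv (g ⟨xi R a L (2 * m + 1), xi_mem (by omega)⟩) + a * tv (g ⟨xi R a L (2 * m + 2), xi_mem (by omega)⟩) +
        tv (g ⟨xi R a L (2 * (m + 1) + 1), xi_mem hm⟩) := h2
      rw [hc] at h3
      refine ⟨-c - tv (g ⟨xi R a L (2 * m + 2), xi_mem (by omega)⟩), ?_⟩
      have h4 : tv (g ⟨xi R a L (2 * (m + 1) + 1), xi_mem hm⟩) =
          a * (-c - tv (g ⟨xi R a L (2 * m + 2), xi_mem (by omega)⟩)) := by
        linear_combination -h3
      exact h4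
  obtain ⟨m, rfl⟩ := hL
  exact main m le_rfl

end

end Pool.Agent.H47.TL
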