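import Pool.Agent.H47.TL.Gram2
import Pool.Agent.H47.TL.Top
import Pool.Agent.H47.TL.Engine
import Pool.Agent.H47.TL.Obj

open CategoryTheory Abelian
open scoped ModuleCat.Algebra

namespace Pool.Agent.H47.TL

universe u

section
variable {R : Type u} [CommRing R] {a : R} {L : ℕ}

/-- bundling of modules -/
noncomputable abbrev ob (a : R) (L : ℕ) (M : Type u) [AddCommGroup M] [Module (TLA R a L) M] :
    ModuleCat.{u} (TLA R a L) := ModuleCat.of (TLA R a L) M

theorem smul_hom_apply {M N : ModuleCat.{u} (TLA R a L)} (r : R) (f : M ⟶ N) (x : M) :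
    (r • f).hom x = algebraMap R (TLA R a L) r • f.hom x := rfl

/-- a short exact sequence from module homomorphisms -/
theorem short_exact {M₁ M₂ M₃ : Type u} [AddCommGroup M₁] [Module (TLA R a L) M₁]
    [AddCommGroup M₂] [Module (TLA R a L) M₂] [AddCommGroup M₃] [Module (TLA R a L) M₃]
    (f : M₁ →ₗ[TLA R a L] M₂) (g : M₂ →ₗ[TLA R a L] M₃) (h1 : Function.Injective f)
    (h2 : Function.Exact f g) (h3 : Function.Surjective g)
    (w : (ModuleCat.ofHom f ≫ ModuleCat.ofHom g : ob a L M₁ ⟶ ob a L M₃) = 0) :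
    (ShortComplex.mk (ModuleCat.ofHom f : ob a L M₁ ⟶ ob a L M₂) (ModuleCat.ofHom g) w).ShortExact := by
  have hm : Mono (ModuleCat.ofHom f : ob a L M₁ ⟶ ob a L M₂) :=
    (ModuleCat.mono_iff_injective _).2 h1
  have he : Epi (ModuleCat.ofHom g : ob a L M₂ ⟶ ob a L M₃) :=
    (ModuleCat.epi_iff_surjective _).2 h3
  exact ShortComplex.ShortExact.mk ((ShortComplex.ShortExact.moduleCat_exact_iff_function_exact _).2 h2)

theorem exact_comp {M₁ M₂ M₃ : Type u} [AddCommGroup M₁] [Module (TLA R a L) M₁]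
    [AddCommGroup M₂] [Module (TLA R a L) M₂] [AddCommGroup M₃] [Module (TLA R a L) M₃]
    (f : M₁ →ₗ[TLA R a L] M₂) (g : M₂ →ₗ[TLA R a L] M₃) (h2 : Function.Exact f g) :
    (ModuleCat.ofHom f ≫ ModuleCat.ofHom g : ob a L M₁ ⟶ ob a L M₃) = 0 := by
  ext x
  exact (h2 (f x)).2 ⟨x, rfl⟩

/-- torsion in all degrees `≥ i0` -/
def Tor (S : Submonoid R) (a : R) (L : ℕ) (i0 : ℕ) (M : Type u) [AddCommGroup M]
    [Module (TLA R a L) M] : Prop :=
  ∀ i, i0 ≤ i → ST S (Ext.{u} (ob a L M) (TT R a L) i)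

theorem Tor.mono {S S' : Submonoid R} (h : S ≤ S') {i0 : ℕ} {M : Type u} [AddCommGroup M]
    [Module (TLA R a L) M] (hM : Tor S a L i0 M) : Tor S' a L i0 M := fun i hi x => by
  obtain ⟨s, hs, h'⟩ := hM i hi x
  exact ⟨s, h hs, h'⟩

theorem Tor.of_maps {S : Submonoid R} {i0 : ℕ} {M N : Type u} [AddCommGroup M]
    [Module (TLA R a L) M] [AddCommGroup N] [Module (TLA R a L) N]
    (φ : M →ₗ[TLA R a L] N) (ψ : N →ₗ[TLA R a L] M) {s : R} (hs : s ∈ S)
    (h : ∀ x, ψ (φ x) = algebraMap R (TLA R a L) s • x) (hN : Tor S a L i0 N) :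
    Tor S a L i0 M := by
  intro i hi
  apply ST_of_maps (X := ob a L M) (Y := ob a L N) (ModuleCat.ofHom φ) (ModuleCat.ofHom ψ) hs _
    (hN i hi)
  ext x
  exact h x

theorem Tor.of_equiv {S : Submonoid R} {i0 : ℕ} {M N : Type u} [AddCommGroup M]
    [Module (TLA R a L) M] [AddCommGroup N] [Module (TLA R a L) N]
    (e : M ≃ₗ[TLA R a L] N) (hN : Tor S a L i0 N) : Tor S a L i0 M :=
  Tor.of_maps e.toLinearMap e.symm.toLinearMap S.one_mem (fun x => by
    rw [map_one, one_smul]; exact e.symm_apply_apply x) hN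

theorem tor_of_projective {M : Type u} [AddCommGroup M] [Module (TLA R a L) M]
    (h : Module.Projective (TLA R a L) M) (S : Submonoid R) : Tor S a L 1 M := by
  intro i hi x
  have hp : Projective (ob a L M) := (IsProjective.iff_projective M).1 h
  obtain ⟨j, rfl⟩ : ∃ j, i = j + 1 := ⟨i - 1, by omega⟩
  exact ⟨1, S.one_mem, by rw [Ext.eq_zero_of_projective x, smul_zero]⟩

theorem ext_zero_of_hom {M : Type u} [AddCommGroup M] [Module (TLA R a L) M]
    (h : ∀ φ : M →ₗ[TLA R a L] Triv R a L, φ = 0) (z : Ext.{u} (ob a L M) (TT R a L) 0) :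
    z = 0 := by
  obtain ⟨f, rfl⟩ := (Ext.mk₀_bijective _ _).2 z
  have : f = 0 := by
    apply ModuleCat.hom_ext
    exact h f.hom
  rw [this, Ext.mk₀_zero]

theorem tor_zero {M : Type u} [AddCommGroup M] [Module (TLA R a L) M]
    (h : ∀ φ : M →ₗ[TLA R a L] Triv R a L, φ = 0) {S : Submonoid R} (h1 : Tor S a L 1 M) :
    Tor S a L 0 M := by
  intro i _ x
  rcases Nat.eq_zero_or_pos i with hi | hi
  · subst hi
    exact ⟨1, S.one_mem, by rw [ext_zero_of_hom h x, smul_zero]⟩
  · exact h1 i hi x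

/-! ### the modules of diagrams -/

theorem tor_TLM (S : Submonoid R) {k : ℕ} (hk : 2 ≤ k) (hkL : ∃ j, k + 2 * j = L) :
    Tor S a L 1 (TLM R a L k) := by
  obtain ⟨j, hj⟩ := hkL
  exact tor_of_projective (proj_TLM R a L j k (by omega) hj) S

theorem tor_TLM_zero (S : Submonoid R) {k : ℕ} (hk : 2 ≤ k) (hkL : ∃ j, k + 2 * j = L)
    (hlt : k < L) : Tor S a L 0 (TLM R a L k) :=
  tor_zero (fun φ => LinearMap.ext fun m => hom_triv_zero hk hlt φ m) (tor_TLM S hk hkL)

/-- `i0 = 0` below the top, `1` at the top -/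
def i0 (L k : ℕ) : ℕ := if k < L then 0 else 1

theorem tor_TLM' (S : Submonoid R) {k : ℕ} (hk : 2 ≤ k) (hkL : ∃ j, k + 2 * j = L) :
    Tor S a L (i0 L k) (TLM R a L k) := by
  unfold i0
  split_ifs with h
  · exact tor_TLM_zero S hk hkL h
  · exact tor_TLM S hk hkL

theorem tor_XX (S : Submonoid R) : ∀ (j : ℕ), (∃ j', 2 * j + 2 + 2 * j' = L) → ∀ (d q : ℕ), 1 ≤ q →
    2 * j + 2 ≤ q + 1 + d → Tor S a L (i0 L (2 * j + 2)) (XX a L (2 * j + 2) q) := by
  intro j
  induction j with
  | zero =>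
    intro hL d q hq _
    exact Tor.of_equiv (Submodule.quotEquivOfEqBot _ (by
      apply le_bot_iff.1
      intro x hx
      rw [mem_NN, NR_top (by omega)] at hx
      exact hx)) (tor_TLM' S (by omega) hL)
  | succ j ih =>
    intro hL d
    induction d with
    | zero =>
      intro q hq hd
      exact Tor.of_equiv (Submodule.quotEquivOfEqBot _ (by
        apply le_bot_iff.1
        intro x hx
        rw [mem_NN, NR_top (by omega)] at hx
        exact hx)) (tor_TLM' S (by omega) hL)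
    | succ d ihd =>
      intro q hq hd
      by_cases hqk : q ≤ 2 * j + 2
      · have hlt : 2 * j + 2 < L := by
          obtain ⟨j', hj'⟩ := hL
          omega
        have h1 := ih (by obtain ⟨j', hj'⟩ := hL; exact ⟨j' + 1, by omega⟩) (2 * j + 2) q hq
          (by omega)
        have h2 := ihd (q + 1) (by omega) (by omega)
        have hE := short_exact (a := a) (L := L) (incX a L (2 * j + 2) q hqk)
          (prjX a L (2 * j + 2 + 2) q) (incX_injective _ _ _ _ _) (incX_exact _ _ _ _ _)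
          (prjX_surjective _ _ _ _) (exact_comp _ _ (incX_exact _ _ _ _ _))
        have h1' : Tor S a L 0 (XX a L (2 * j + 2) q) := by
          unfold i0 at h1
          rwa [if_pos hlt] at h1
        intro i hi
        rcases Nat.eq_zero_or_pos i with h3 | h3
        · subst h3
          exact ST_third_zero hE (h2 0 hi)
        · obtain ⟨i', rfl⟩ : ∃ i', i = 1 + i' := ⟨i - 1, by omega⟩
          exact ST_third hE (h1' i' (Nat.zero_le _)) (h2 (1 + i') hi)
      · exact Tor.of_equiv (Submodule.quotEquivOfEqBot _ (by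
          apply le_bot_iff.1
          intro x hx
          rw [mem_NN, NR_top (by omega)] at hx
          exact hx)) (tor_TLM' S (by omega) hL)

/-! ### the duals -/

theorem tor_DM {S : Submonoid R} {k : ℕ} (hk : 2 ≤ k) (hkL : ∃ j, k + 2 * j = L)
    (hdet : (gram R a (L + k)).det ∈ S) : Tor S a L (i0 L k) (DM R a L k) := by
  obtain ⟨j, hj⟩ := hkL
  refine Tor.of_maps (psi a L k (by omega)) (phi a L k (by omega)) (S.pow_mem hdet 2)
    (fun ξ => ?_) (tor_TLM' S hk ⟨j, hj⟩)
  rw [phi_psi, algebraMap_smul]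

theorem tor_VV {S : Submonoid R} (hdet : ∀ k, k ≤ L → (gram R a (L + k)).det ∈ S) :
    ∀ (j : ℕ), (∃ j', 2 * j + 2 + 2 * j' = L) → ∀ (d q : ℕ), 1 ≤ q →
    2 * j + 2 ≤ q + 1 + d → Tor S a L (i0 L (2 * j + 2)) (VV a L (2 * j + 2) q) := by
  intro j
  induction j with
  | zero =>
    intro hL d q hq _
    obtain ⟨j', hj'⟩ := hL
    exact Tor.of_equiv (LinearEquiv.ofTop _ (VV_top (by omega)))
      (tor_DM (by omega) ⟨j', hj'⟩ (hdet _ (by omega)))
  | succ j ih =>
    intro hL d
    obtain ⟨j', hj'⟩ := hL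
    induction d with
    | zero =>
      intro q hq hd
      exact Tor.of_equiv (LinearEquiv.ofTop _ (VV_top (by omega)))
        (tor_DM (by omega) ⟨j', hj'⟩ (hdet _ (by omega)))
    | succ d ihd =>
      intro q hq hd
      by_cases hqk : q ≤ 2 * j + 2
      · have hlt : 2 * j + 2 < L := by omega
        have h1 := ih ⟨j' + 1, by omega⟩ (2 * j + 2) q hq (by omega)
        have h2 := ihd (q + 1) (by omega) (by omega)
        have hE := short_exact (a := a) (L := L) (incV a L (2 * j + 2 + 2) q)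
          (prjV a L (2 * j + 2) q hqk) (incV_injective _ _ _ _) (incV_exact _ _ _ _ _)
          (prjV_surjective _ _ _ _ _) (exact_comp _ _ (incV_exact _ _ _ _ _))
        have h1' : Tor S a L 0 (VV a L (2 * j + 2) q) := by
          unfold i0 at h1
          rwa [if_pos hlt] at h1
        intro i hi
        exact ST_first hE (h2 i hi) (h1' (1 + i) (Nat.zero_le _))
      · exact Tor.of_equiv (LinearEquiv.ofTop _ (VV_top (by omega)))
          (tor_DM (by omega) ⟨j', hj'⟩ (hdet _ (by omega)))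

end

end Pool.Agent.H47.TL
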