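import Pool.Agent.H47.TL.Comb

namespace Pool.Agent.H47.TL

theorem innermost {P : ℕ} {f : ℕ → ℕ} (hf : NCM P f) : ∀ (n u : ℕ), u < f u → f u ≤ u + n →
    ∃ p, u ≤ p ∧ p + 1 ≤ f u ∧ f p = p + 1 := by
  intro n
  induction n with
  | zero => intro u h1 h2; omega
  | succ n ih =>
    intro u h1 h2
    by_cases h3 : f u = u + 1
    · exact ⟨u, le_rfl, by omega, h3⟩
    · have h4 : u + 1 < f u := by omega
      have h5 := hf.nc' (x := u) (y := u + 1) (by omega) h4
      have h6 := hf.nc (x := u) (y := u + 1) (by omega) h4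
      have huP : u < P := by
        by_contra hc
        rw [hf.out (by omega)] at h1
        omega
      have h7 := hf.lt huP
      have h8 := hf.ne (x := u + 1) (by omega)
      obtain ⟨p, hp1, hp2, hp3⟩ := ih (u + 1) (by omega) (by omega)
      exact ⟨p, by omega, by omega, hp3⟩

/-- no arc between neighbours inside `[lo, hi)` implies no arc inside `[lo, hi)` -/
theorem no_arc {P lo hi : ℕ} {f : ℕ → ℕ} (hf : NCM P f) (hhi : hi ≤ P)
    (h : ∀ p, lo ≤ p → p + 2 ≤ hi → f p ≠ p + 1) {x : ℕ} (h1 : lo ≤ x) (h2 : x < hi) :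
    f x < lo ∨ hi ≤ f x := by
  by_contra hc
  rw [not_or] at hc
  have h3 := hf.ne (x := x) (by omega)
  rcases lt_or_ge x (f x) with h4 | h4
  · obtain ⟨p, hp1, hp2, hp3⟩ := innermost hf (f x) x h4 (by omega)
    exact h p (by omega) (by omega) hp3
  · have h5 : f x < f (f x) := by rw [hf.inv]; omega
    obtain ⟨p, hp1, hp2, hp3⟩ := innermost hf (f (f x)) (f x) h5 (by omega)
    rw [hf.inv] at hp2
    exact h p (by omega) (by omega) hp3

/-- counting: an injection of intervals -/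
theorem inj_card {P a b c d : ℕ} {f : ℕ → ℕ} (hf : NCM P f)
    (h : ∀ x, a ≤ x → x < b → c ≤ f x ∧ f x < d) : b - a ≤ d - c := by
  have h1 : (Finset.image f (Finset.Ico a b)) ⊆ Finset.Ico c d := by
    intro y hy
    obtain ⟨x, hx, rfl⟩ := Finset.mem_image.1 hy
    rw [Finset.mem_Ico] at hx ⊢
    exact h x hx.1 hx.2
  have h2 := Finset.card_le_card h1
  rw [Finset.card_image_of_injective _ (fun x y hxy => hf.inj hxy), Nat.card_Ico,
    Nat.card_Ico] at h2
  exact h2

theorem surj_card {P a b c d : ℕ} {f : ℕ → ℕ} (hf : NCM P f)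
    (h : ∀ x, a ≤ x → x < b → c ≤ f x ∧ f x < d) (hcard : b - a = d - c) {y : ℕ} (h1 : c ≤ y)
    (h2 : y < d) : a ≤ f y ∧ f y < b := by
  have h3 : (Finset.image f (Finset.Ico a b)) ⊆ Finset.Ico c d := by
    intro y hy
    obtain ⟨x, hx, rfl⟩ := Finset.mem_image.1 hy
    rw [Finset.mem_Ico] at hx ⊢
    exact h x hx.1 hx.2
  have h4 : (Finset.image f (Finset.Ico a b)) = Finset.Ico c d := by
    apply Finset.eq_of_subset_of_card_le h3
    rw [Finset.card_image_of_injective _ (fun x y hxy => hf.inj hxy), Nat.card_Ico, Nat.card_Ico]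
    omega
  have h5 : y ∈ Finset.image f (Finset.Ico a b) := by
    rw [h4, Finset.mem_Ico]; exact ⟨h1, h2⟩
  obtain ⟨x, hx, rfl⟩ := Finset.mem_image.1 h5
  rw [Finset.mem_Ico] at hx
  rw [hf.inv]
  exact hx

theorem eq_idd {L : ℕ} {f : ℕ → ℕ} (hf : NCM (L + L) f) (h : ∀ x, x < L → L ≤ f x) :
    f = idd L := by
  have h0 : ∀ x, 0 ≤ x → x < L → L ≤ f x ∧ f x < L + L := fun x _ hx =>
    ⟨h x hx, hf.lt (by omega)⟩
  apply ncm_ext hf (idd_ncm L)
  intro x hx
  unfold wd
  apply decide_eq_decide.2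
  by_cases h1 : x < L
  · have := h x h1
    have : idd L x = L + L - 1 - x := by unfold idd; rw [if_pos hx]
    omega
  · have h2 := surj_card hf h0 (by omega) (y := x) (by omega) hx
    have : idd L x = L + L - 1 - x := by unfold idd; rw [if_pos hx]
    omega

theorem idd_of_left {L : ℕ} {f : ℕ → ℕ} (hf : NCM (L + L) f)
    (h : ∀ p, p + 2 ≤ L → f p ≠ p + 1) : f = idd L := by
  apply eq_idd hf
  intro x hx
  have := no_arc hf (lo := 0) (hi := L) (by omega) (fun p _ hp => h p hp) (Nat.zero_le x) hx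
  omega

theorem idd_of_right {L : ℕ} {f : ℕ → ℕ} (hf : NCM (L + L) f)
    (h : ∀ p, L ≤ p → p + 2 ≤ L + L → f p ≠ p + 1) : f = idd L := by
  have h1 : ∀ x, L ≤ x → x < L + L → 0 ≤ f x ∧ f x < L := by
    intro x hx1 hx2
    have := no_arc hf (lo := L) (hi := L + L) le_rfl h hx1 hx2
    have := hf.lt hx2
    omega
  apply eq_idd hf
  intro x hx
  exact (surj_card hf h1 (by omega) (y := x) (Nat.zero_le x) hx).1

/-- if there are fewer right nodes than left nodes, some neighbouring left nodes are joined -/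
theorem exists_left {L k : ℕ} {f : ℕ → ℕ} (hf : NCM (L + k) f) (hk : k < L) :
    ∃ p, p + 2 ≤ L ∧ f p = p + 1 := by
  by_contra hc
  push Not at hc
  have h1 : ∀ x, 0 ≤ x → x < L → L ≤ f x ∧ f x < L + k := by
    intro x _ hx
    have := no_arc hf (lo := 0) (hi := L) (by omega) (fun p _ hp => hc p hp) (Nat.zero_le x) hx
    have := hf.lt (x := x) (by omega)
    omega
  have := inj_card hf h1
  omega

/-- a matching with only one possible innermost arc on the right -/
theorem eq_cup_idd {L : ℕ} {f : ℕ → ℕ} (hf : NCM (L + 1 + (L + 1)) f)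
    (h : ∀ p, L + 2 ≤ p → p + 2 ≤ L + 1 + (L + 1) → f p ≠ p + 1) :
    ∃ b, b ≤ L ∧ f = cupf b (idd L) := by
  have hb : ∃ b, b + 2 ≤ L + 2 ∧ f b = b + 1 := by
    by_contra hc
    push Not at hc
    have h1 : ∀ x, 0 ≤ x → x < L + 2 → L + 2 ≤ f x ∧ f x < L + 1 + (L + 1) := by
      intro x _ hx
      have := no_arc hf (lo := 0) (hi := L + 2) (by omega) (fun p _ hp => hc p hp)
        (Nat.zero_le x) hx
      have := hf.lt (x := x) (by omega)
      omega
    have := inj_card hf h1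
    omega
  obtain ⟨b, hb1, hb2⟩ := hb
  refine ⟨b, by omega, ?_⟩
  have hf2 : NCM (L + L + 2) f := by rwa [show L + L + 2 = L + 1 + (L + 1) by ring]
  have hg := capf_ncm hf2 (by omega : b ≤ L + L)
  have e1 : capf b f = idd L := by
    apply idd_of_right hg
    intro p hp1 hp2 hp3
    apply h (p + 2) (by omega) (by omega)
    have h2 := cupf_up b (capf b f) p
    rw [cupf_capf hf hb2, hp3] at h2
    have u1 : up b p = p + 2 := by unfold up; rw [if_neg (by omega)]
    have u2 : up b (p + 1) = p + 3 := by unfold up; rw [if_neg (by omega)]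
    rw [u1, u2] at h2
    rw [h2]
  rw [← e1, cupf_capf hf hb2]

/-- zigzag -/
theorem capf_cupf_succ {P l : ℕ} {g : ℕ → ℕ} (hg : NCM P g) (hl : l + 1 ≤ P) :
    capf l (cupf (l + 1) g) = g ∧ capc l (cupf (l + 1) g) = 0 := by
  have hm : (2 : ℚ) * (1 / 2) = 1 := by norm_num
  have h1 := cupf_ncm hg hl
  have h := transfer (P := P) (c := capc l (cupf (l + 1) g)) (d := 0)
    (capf_ncm h1 (by omega : l ≤ P)) hg (by
      have h2 : (2 + 1 / 2 : ℚ) ^ capc l (cupf (l + 1) g) • hat (2 : ℚ) P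
          (capf l (cupf (l + 1) g)) = SC (1 / 2) l (hat (2 : ℚ) (P + 2) (cupf (l + 1) g)) := by
        funext w; rw [hat_cap hm (by omega) h1 w]; rfl
      rw [h2, hat_cup _ hl, SC_SU_left hm, pow_zero, one_smul])
  exact ⟨h.2, h.1⟩

theorem capf_succ_cupf {P l : ℕ} {g : ℕ → ℕ} (hg : NCM P g) (hl : l + 1 ≤ P) :
    capf (l + 1) (cupf l g) = g ∧ capc (l + 1) (cupf l g) = 0 := by
  have hm : (2 : ℚ) * (1 / 2) = 1 := by norm_num
  have h1 := cupf_ncm hg (by omega : l ≤ P)
  have h := transfer (P := P) (c := capc (l + 1) (cupf l g)) (d := 0)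
    (capf_ncm h1 (by omega : l + 1 ≤ P)) hg (by
      have h2 : (2 + 1 / 2 : ℚ) ^ capc (l + 1) (cupf l g) • hat (2 : ℚ) P
          (capf (l + 1) (cupf l g)) = SC (1 / 2) (l + 1) (hat (2 : ℚ) (P + 2) (cupf l g)) := by
        funext w; rw [hat_cap hm (by omega) h1 w]; rfl
      rw [h2, hat_cup _ (by omega : l ≤ P), SC_SU_right hm, pow_zero, one_smul])
  exact ⟨h.2, h.1⟩

/-- an arc between neighbours away from `l, l+1` survives the cap at `l` -/
theorem capf_arc {P l b : ℕ} {f : ℕ → ℕ} (hf : NCM P f) (hb : f b = b + 1) (h1 : b ≠ l)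
    (h2 : b ≠ l + 1) (h3 : b + 1 ≠ l) : capf l f (dn l b) = dn l b + 1 := by
  rw [capf_eq, up_dn h1 h2]
  unfold rr
  rw [hb, if_neg (by omega), if_neg (by omega)]
  unfold dn
  split_ifs <;> omega

end Pool.Agent.H47.TL
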