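import Pool.Agent.H47.TL.Transfer

namespace Pool.Agent.H47.TL

theorem cmp_ncm {l m k : ℕ} {f g : ℕ → ℕ} (hf : NCM (l + m) f) (hg : NCM (m + k) g) :
    NCM (l + k) (cmp l m f g).2 := by
  apply glue_ncm
  have := juxt_ncm hf hg
  rwa [show l + m + (m + k) = l + m + m + k by omega] at this

/-! ### the spin side -/

theorem ten_smul {K : Type*} [CommRing K] (P : ℕ) (c : K) (F H : (ℕ → Bool) → K) :
    ten P (c • F) H = c • ten P F H := by
  funext w; simp [ten]; ring

theorem ten_smul' {K : Type*} [CommRing K] (P : ℕ) (c : K) (F H : (ℕ → Bool) → K) :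
    ten P F (c • H) = c • ten P F H := by
  funext w; simp [ten]; ring

theorem GG_ten {K : Type*} [CommRing K] (m' : K) (l m : ℕ) : ∀ (k : ℕ) (F H : (ℕ → Bool) → K),
    GG m' l m (ten (l + m + m + k) F H) = ten (l + k) (GG m' l m F) H := by
  induction m with
  | zero => intro k F H; rfl
  | succ m ih =>
    intro k F H
    simp only [GG]
    rw [show l + (m + 1) + (m + 1) + k = l + m + m + k + 2 by omega,
      SC_ten m' (by omega : l + m ≤ l + m + m + k), ih]

theorem GG_ten' {K : Type*} [CommRing K] (m' : K) (P l m : ℕ) : ∀ (F H : (ℕ → Bool) → K),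
    Dep P F → GG m' (P + l) m (ten P F H) = ten P F (GG m' l m H) := by
  induction m with
  | zero => intro F H _; rfl
  | succ m ih =>
    intro F H hF
    simp only [GG]
    rw [add_assoc, SC_ten' m' (l + m) H hF, ih F _ hF]

theorem GG_first {K : Type*} [CommRing K] (m' : K) (l m : ℕ) (F : (ℕ → Bool) → K) :
    GG m' l (m + 1) F = SC m' l (GG m' (l + 1) m F) := by
  rw [add_comm m 1, GG_add]
  rfl

theorem GG_SU_id {K : Type*} [CommRing K] {m m' : K} (hm : m * m' = 1) (L : ℕ)
    (F : (ℕ → Bool) → K) : GG m' (L + 1) (L + 1) (SU m L F) = GG m' L L F := by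
  rw [GG_first, show L + 1 + 1 = L + 2 by rfl, ← SU_GG m m' L L L le_rfl, SC_SU_right hm]

theorem GG_SU_id' {K : Type*} [CommRing K] {m m' : K} (hm : m * m' = 1) (k L : ℕ)
    (F : (ℕ → Bool) → K) : GG m' k (L + 1) (SU m (k + 2 * L + 1) F) = GG m' (k + 1) L F := by
  rw [GG_first, show k + 2 * L + 1 = k + 1 + 2 * L by ring, GG_SU m m' (k + 1) L (k + 1) le_rfl,
    SC_SU_left hm]

theorem GG_SU_adj {K : Type*} [CommRing K] {m m' : K} (hm : m * m' = 1) (j p : ℕ)
    (F : (ℕ → Bool) → K) :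
    GG m' 0 (j + p + 2) (SU m (j + 2 * p + 2) F) = GG m' 0 (j + p) (SC m' j F) := by
  rw [show j + p + 2 = (j + 1) + (p + 1) by ring, GG_add,
    show j + 2 * p + 2 = 0 + (j + 1) + 2 * p + 1 by ring, GG_SU_id' hm]
  rw [GG_add m' 0 j p, show 0 + (j + 1) + 1 = j + 2 by ring, zero_add, ← SC_GG m' j p j le_rfl]
  simp only [GG, zero_add]

theorem hat_cmp {K : Type*} [CommRing K] {m₀ m' : K} (hm : m₀ * m' = 1) {l m k : ℕ}
    {f g : ℕ → ℕ} (hf : NCM (l + m) f) (hg : NCM (m + k) g) :
    (m₀ + m') ^ (cmp l m f g).1 • hat m₀ (l + k) (cmp l m f g).2 =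
      GG m' l m (ten (l + m) (hat m₀ (l + m) f) (hat m₀ (m + k) g)) := by
  have h1 := juxt_ncm hf hg
  have h2 := hat_juxt m₀ (P := l + m) (Q := m + k) (f := f) (g := g)
  rw [show l + m + (m + k) = l + m + m + k by omega] at h1 h2
  rw [← h2, hat_glue hm l m k _ h1]
  rfl

theorem cmp_assoc {l m n k : ℕ} {f g h : ℕ → ℕ} (hf : NCM (l + m) f) (hg : NCM (m + n) g)
    (hh : NCM (n + k) h) :
    (cmp l m f g).1 + (cmp l n (cmp l m f g).2 h).1 =
      (cmp m n g h).1 + (cmp l m f (cmp m n g h).2).1 ∧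
    (cmp l n (cmp l m f g).2 h).2 = (cmp l m f (cmp m n g h).2).2 := by
  have hm : (2 : ℚ) * (1 / 2) = 1 := by norm_num
  have hfg := cmp_ncm hf hg
  have hgh := cmp_ncm hg hh
  apply transfer (P := l + k) (cmp_ncm hfg hh) (cmp_ncm hf hgh)
  rw [pow_add, pow_add, mul_smul, mul_smul, hat_cmp hm hfg hh, hat_cmp hm hf hgh,
    ← GG_smul, ← GG_smul, ← ten_smul, ← ten_smul', hat_cmp hm hf hg, hat_cmp hm hg hh,
    ← GG_ten, ← GG_ten' _ _ _ _ _ _ (hat_dep _ hf), ten_assoc,
    show l + m + m = l + 2 * m by ring, GG_GG, show l + m + (m + n) = l + 2 * m + n by ring]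

theorem idd_ncm (L : ℕ) : NCM (L + L) (idd L) := by
  refine ⟨fun x hx => ?_, fun x hx => ?_, fun x => ?_, fun x y hxy hy => ?_⟩
  · simp only [idd]; rw [if_pos hx]; omega
  · simp only [idd]; rw [if_neg (by omega)]
  · simp only [idd]; split_ifs <;> omega
  · simp only [idd] at hy ⊢; split_ifs at hy ⊢ <;> omega

theorem idd_succ (L : ℕ) : idd (L + 1) = cupf L (idd L) := by
  funext x
  simp only [idd, cupf, up, dn]
  split_ifs <;> omega

theorem GG_idd {K : Type*} [CommRing K] {m m' : K} (hm : m * m' = 1) (L : ℕ)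
    (F : (ℕ → Bool) → K) : GG m' L L (ten (L + L) (hat m (L + L) (idd L)) F) = F := by
  induction L with
  | zero =>
    funext w
    simp [GG, ten, hat]
  | succ L ih =>
    rw [idd_succ, show L + 1 + (L + 1) = L + L + 2 by ring, hat_cup m (by omega),
      ← SU_ten m (by omega : L ≤ L + L), GG_SU_id hm, ih]

theorem GG_idd' {K : Type*} [CommRing K] {m m' : K} (hm : m * m' = 1) (L : ℕ) : ∀ (k : ℕ)
    (F : (ℕ → Bool) → K), Dep (k + L) F →
    GG m' k L (ten (k + L) F (hat m (L + L) (idd L))) = F := by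
  induction L with
  | zero =>
    intro k F _
    funext w
    simp [GG, ten, hat]
  | succ L ih =>
    intro k F hF
    rw [idd_succ, show L + 1 + (L + 1) = L + L + 2 by ring, hat_cup m (by omega),
      ← SU_ten' m L _ hF, show k + (L + 1) + L = k + 2 * L + 1 by ring, GG_SU_id' hm,
      show k + (L + 1) = k + 1 + L by ring]
    exact ih (k + 1) F (by rwa [show k + 1 + L = k + (L + 1) by ring])

theorem id_cmp {L k : ℕ} {g : ℕ → ℕ} (hg : NCM (L + k) g) : cmp L L (idd L) g = (0, g) := by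
  have hm : (2 : ℚ) * (1 / 2) = 1 := by norm_num
  have h := transfer (P := L + k) (c := (cmp L L (idd L) g).1) (d := 0)
    (cmp_ncm (idd_ncm L) hg) hg (by
      rw [hat_cmp hm (idd_ncm L) hg, GG_idd hm, pow_zero, one_smul])
  exact Prod.ext h.1 h.2

theorem cmp_id {L k : ℕ} {f : ℕ → ℕ} (hf : NCM (k + L) f) : cmp k L f (idd L) = (0, f) := by
  have hm : (2 : ℚ) * (1 / 2) = 1 := by norm_num
  have h := transfer (P := k + L) (c := (cmp k L f (idd L)).1) (d := 0)
    (cmp_ncm hf (idd_ncm L)) hf (by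
      rw [hat_cmp hm hf (idd_ncm L), GG_idd' hm L k _ (hat_dep _ hf), pow_zero, one_smul])
  exact Prod.ext h.1 h.2

/-- joining two neighbouring right nodes commutes with the left composition -/
theorem cmp_cap {l m k p : ℕ} {f g : ℕ → ℕ} (hf : NCM (l + m) f) (hg : NCM (m + (k + 2)) g)
    (hp : p ≤ k) :
    capc (m + p) g + (cmp l m f (capf (m + p) g)).1 =
      (cmp l m f g).1 + capc (l + p) (cmp l m f g).2 ∧
    (cmp l m f (capf (m + p) g)).2 = capf (l + p) (cmp l m f g).2 := by
  have hm : (2 : ℚ) * (1 / 2) = 1 := by norm_num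
  have hfg := cmp_ncm hf hg
  rw [show l + (k + 2) = l + k + 2 by ring] at hfg
  have hg2 := hg
  rw [show m + (k + 2) = m + k + 2 by ring] at hg2
  have hcg := capf_ncm hg2 (by omega : m + p ≤ m + k)
  apply transfer (P := l + k) (cmp_ncm hf hcg) (capf_ncm hfg (by omega))
  have e1 : (2 + 1 / 2 : ℚ) ^ capc (m + p) g • hat (2 : ℚ) (m + k) (capf (m + p) g) =
      SC (1 / 2) (m + p) (hat (2 : ℚ) (m + k + 2) g) := by
    funext w; rw [hat_cap hm (by omega) hg2 w]; rfl
  have e2 : (2 + 1 / 2 : ℚ) ^ capc (l + p) (cmp l m f g).2 •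
      hat (2 : ℚ) (l + k) (capf (l + p) (cmp l m f g).2) =
      SC (1 / 2) (l + p) (hat (2 : ℚ) (l + k + 2) (cmp l m f g).2) := by
    funext w; rw [hat_cap hm (by omega) hfg w]; rfl
  rw [pow_add, pow_add, mul_smul, mul_smul, hat_cmp hm hf hcg, e2, ← GG_smul, ← ten_smul', e1,
    ← SC_smul, show l + k + 2 = l + (k + 2) by ring, hat_cmp hm hf hg,
    show m + (k + 2) = m + k + 2 by ring, ← SC_ten' _ _ _ (hat_dep _ hf),
    show l + m + (m + p) = l + p + 2 * m by ring, GG_SC _ _ _ _ (by omega)]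

/-- inserting an arc joining two neighbouring right nodes commutes with the left composition -/
theorem cmp_cup {l m k p : ℕ} {f g : ℕ → ℕ} (hf : NCM (l + m) f) (hg : NCM (m + k) g)
    (hp : p ≤ k) :
    (cmp l m f (cupf (m + p) g)).1 = (cmp l m f g).1 ∧
    (cmp l m f (cupf (m + p) g)).2 = cupf (l + p) (cmp l m f g).2 := by
  have hm : (2 : ℚ) * (1 / 2) = 1 := by norm_num
  have hfg := cmp_ncm hf hg
  have hcg := cupf_ncm hg (by omega : m + p ≤ m + k)
  have hcg2 := hcg
  rw [show m + k + 2 = m + (k + 2) by ring] at hcg2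
  apply transfer (P := l + (k + 2)) (cmp_ncm hf hcg2) (cupf_ncm hfg (by omega : l + p ≤ l + k))
  rw [hat_cmp hm hf hcg2, show l + (k + 2) = l + k + 2 by ring, hat_cup _ (by omega),
    ← SU_smul, hat_cmp hm hf hg, show m + (k + 2) = m + k + 2 by ring,
    hat_cup _ (by omega : m + p ≤ m + k), ← SU_ten' _ _ _ (hat_dep _ hf),
    show l + m + (m + p) = l + p + 2 * m by ring, GG_SU _ _ _ _ _ (by omega)]

/-- joining two neighbouring left nodes commutes with the right composition -/
theorem cap_cmp {l m k p : ℕ} {f g : ℕ → ℕ} (hf : NCM (l + 2 + m) f) (hg : NCM (m + k) g)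
    (hp : p ≤ l) :
    capc p f + (cmp l m (capf p f) g).1 =
      (cmp (l + 2) m f g).1 + capc p (cmp (l + 2) m f g).2 ∧
    (cmp l m (capf p f) g).2 = capf p (cmp (l + 2) m f g).2 := by
  have hm : (2 : ℚ) * (1 / 2) = 1 := by norm_num
  have hfg := cmp_ncm hf hg
  rw [show l + 2 + k = l + k + 2 by ring] at hfg
  have hf2 := hf
  rw [show l + 2 + m = l + m + 2 by ring] at hf2
  have hcf := capf_ncm hf2 (by omega : p ≤ l + m)
  apply transfer (P := l + k) (cmp_ncm hcf hg) (capf_ncm hfg (by omega))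
  have e1 : (2 + 1 / 2 : ℚ) ^ capc p f • hat (2 : ℚ) (l + m) (capf p f) =
      SC (1 / 2) p (hat (2 : ℚ) (l + m + 2) f) := by
    funext w; rw [hat_cap hm (by omega) hf2 w]; rfl
  have e2 : (2 + 1 / 2 : ℚ) ^ capc p (cmp (l + 2) m f g).2 •
      hat (2 : ℚ) (l + k) (capf p (cmp (l + 2) m f g).2) =
      SC (1 / 2) p (hat (2 : ℚ) (l + k + 2) (cmp (l + 2) m f g).2) := by
    funext w; rw [hat_cap hm (by omega) hfg w]; rfl
  rw [pow_add, pow_add, mul_smul, mul_smul, hat_cmp hm hcf hg, e2, ← GG_smul, ← ten_smul, e1,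
    ← SC_smul, show l + k + 2 = l + 2 + k by ring, hat_cmp hm hf hg,
    SC_GG _ _ _ _ hp, show l + 2 + m = l + m + 2 by ring, SC_ten _ (by omega : p ≤ l + m)]

/-- inserting an arc joining two neighbouring left nodes commutes with the right composition -/
theorem cup_cmp {l m k p : ℕ} {f g : ℕ → ℕ} (hf : NCM (l + m) f) (hg : NCM (m + k) g)
    (hp : p ≤ l) :
    (cmp (l + 2) m (cupf p f) g).1 = (cmp l m f g).1 ∧
    (cmp (l + 2) m (cupf p f) g).2 = cupf p (cmp l m f g).2 := by
  have hm : (2 : ℚ) * (1 / 2) = 1 := by norm_num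
  have hfg := cmp_ncm hf hg
  have hcf := cupf_ncm hf (by omega : p ≤ l + m)
  have hcf2 := hcf
  rw [show l + m + 2 = l + 2 + m by ring] at hcf2
  have h1 := cmp_ncm hcf2 hg
  have h2 := cupf_ncm hfg (by omega : p ≤ l + k)
  rw [show l + k + 2 = l + 2 + k by ring] at h2
  apply transfer (P := l + 2 + k) h1 h2
  rw [hat_cmp hm hcf2 hg, show l + 2 + k = l + k + 2 by ring, hat_cup _ (by omega),
    ← SU_smul, hat_cmp hm hf hg, SU_GG _ _ _ _ _ hp, SU_ten _ (by omega : p ≤ l + m),
    show l + 2 + m = l + m + 2 by ring, hat_cup _ (by omega : p ≤ l + m)]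

/-! ### mirror images -/

theorem refl_of_lt {P x : ℕ} (f : ℕ → ℕ) (hx : x < P) : refl P f x = P - 1 - f (P - 1 - x) := by
  unfold refl; rw [if_pos hx]

theorem refl_of_ge {P x : ℕ} (f : ℕ → ℕ) (hx : P ≤ x) : refl P f x = x := by
  unfold refl; rw [if_neg (by omega)]

theorem refl_capf {P p : ℕ} (hp : p ≤ P) {f : ℕ → ℕ} (hf : NCM (P + 2) f) :
    capf (P - p) (refl (P + 2) f) = refl P (capf p f) ∧
      capc (P - p) (refl (P + 2) f) = capc p f := by
  have hrf := refl_ncm hf
  have b1 := hf.lt (x := p) (by omega)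
  have b2 := hf.lt (x := p + 1) (by omega)
  have v1 : refl (P + 2) f (P - p) = P + 1 - f (p + 1) := by
    rw [refl_of_lt f (by omega), show P + 2 - 1 - (P - p) = p + 1 by omega]
    omega
  have v2 : refl (P + 2) f (P - p + 1) = P + 1 - f p := by
    rw [refl_of_lt f (by omega), show P + 2 - 1 - (P - p + 1) = p by omega]
    omega
  constructor
  · funext x
    by_cases hx : x < P
    · rw [refl_of_lt _ hx, capf_eq, capf_eq]
      have e1 : P + 2 - 1 - up (P - p) x = up p (P - 1 - x) := by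
        unfold up; split_ifs <;> omega
      have hlt1 : up (P - p) x < P + 2 := (up_lt (by omega)).2 hx
      have hy := up_ne p (P - 1 - x)
      have hlt2 : up p (P - 1 - x) < P + 2 := (up_lt hp).2 (by omega)
      have v3 : refl (P + 2) f (up (P - p) x) = P + 1 - f (up p (P - 1 - x)) := by
        rw [refl_of_lt f hlt1, e1]
        omega
      have b3 := hf.lt hlt2
      have hrr : rr (P - p) (refl (P + 2) f) (up (P - p) x) =
          P + 1 - rr p f (up p (P - 1 - x)) := by
        unfold rr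
        rw [v1, v2, v3]
        split_ifs <;> first | rfl | omega
      have hne := rr_ne hf hp hy.1 hy.2
      have hlt3 := rr_lt hf hp hlt2
      rw [hrr]
      unfold dn
      split_ifs <;> omega
    · rw [refl_of_ge _ (by omega), (capf_ncm hrf (by omega)).out (by omega)]
  · unfold capc
    rw [v1]
    have := hf.inv p
    have := hf.inv (p + 1)
    have n1 := hf.ne (x := p) (by omega)
    have n2 := hf.ne (x := p + 1) (by omega)
    by_cases h : f p = p + 1
    · rw [if_pos h, if_pos]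
      have h2 : f (p + 1) = p := by rw [← h]; exact hf.inv p
      omega
    · rw [if_neg h, if_neg]
      intro hh
      have h2 : f (p + 1) = p := by omega
      rw [h2] at this
      exact h this

theorem refl_juxt {P Q : ℕ} {f g : ℕ → ℕ} (hf : NCM P f) (hg : NCM Q g) :
    refl (P + Q) (juxt P f g) = juxt Q (refl Q g) (refl P f) := by
  funext x
  simp only [refl, juxt]
  by_cases h1 : x < Q
  · have := hg.lt (x := Q - 1 - x) (by omega)
    rw [if_pos (by omega), if_neg (by omega), if_pos h1, if_pos h1,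
      show P + Q - 1 - x - P = Q - 1 - x by omega]
    omega
  · rw [if_neg h1]
    by_cases h2 : x < P + Q
    · have := hf.lt (x := P - 1 - (x - Q)) (by omega)
      rw [if_pos h2, if_pos (by omega), if_pos (by omega),
        show P + Q - 1 - x = P - 1 - (x - Q) by omega]
      omega
    · rw [if_neg h2, if_neg (by omega)]
      omega

theorem refl_glue (l m : ℕ) : ∀ (k : ℕ) (f : ℕ → ℕ), NCM (l + m + m + k) f →
    glue k m (refl (l + m + m + k) f) = ((glue l m f).1, refl (l + k) (glue l m f).2) := by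
  induction m with
  | zero => intro k f _; simp [glue_zero]
  | succ m ih =>
    intro k f hf
    have e : l + (m + 1) + (m + 1) + k = l + m + m + k + 2 := by omega
    rw [e] at hf ⊢
    have h1 := refl_capf (P := l + m + m + k) (p := l + m) (by omega) hf
    rw [show l + m + m + k - (l + m) = k + m by omega] at h1
    simp only [glue_succ]
    rw [h1.1, h1.2, ih k _ (capf_ncm hf (by omega))]

theorem refl_cmp {l m k : ℕ} {f g : ℕ → ℕ} (hf : NCM (l + m) f) (hg : NCM (m + k) g) :
    cmp k m (refl (m + k) g) (refl (l + m) f) =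
      ((cmp l m f g).1, refl (l + k) (cmp l m f g).2) := by
  have h1 := juxt_ncm hf hg
  have h2 := refl_juxt hf hg
  rw [show l + m + (m + k) = l + m + m + k by omega] at h1 h2
  have h3 := refl_glue l m k _ h1
  rw [h2] at h3
  unfold cmp
  rw [add_comm k m]
  exact h3

theorem refl_idd (L : ℕ) : refl (L + L) (idd L) = idd L := by
  funext x
  simp only [refl, idd]
  split_ifs <;> omega

theorem refl_cupf {P p : ℕ} (hp : p ≤ P) {f : ℕ → ℕ} (hf : NCM P f) :
    refl (P + 2) (cupf p f) = cupf (P - p) (refl P f) := by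
  have h1 := cupf_ncm hf hp
  have h2 := refl_capf hp h1
  rw [capf_cupf, capc_cupf] at h2
  rw [← h2.1, cupf_capf (refl_ncm h1)]
  have := h2.2
  unfold capc at this
  by_contra hc
  rw [if_neg hc] at this
  omega

/-! ### the closure -/

/-- number of loops in the closure of `f` (mirrored) and `g` -/
def kap (P : ℕ) (f g : ℕ → ℕ) : ℕ := (cmp 0 P (refl P f) g).1

theorem zero_ncm {f : ℕ → ℕ} (hf : NCM 0 f) : f = id := by
  funext x; exact hf.out (Nat.zero_le x)

theorem hat_zero {K : Type*} [CommRing K] (m : K) (f : ℕ → ℕ) : hat m 0 f = fun _ => 1 := by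
  funext w; simp [hat]

theorem hat_kap {P : ℕ} {f g : ℕ → ℕ} (hf : NCM P f) (hg : NCM P g) :
    (fun _ => ((2 : ℚ) + 1 / 2) ^ kap P f g : (ℕ → Bool) → ℚ) =
      GG (1 / 2) 0 P (ten P (hat (2 : ℚ) P (refl P f)) (hat (2 : ℚ) P g)) := by
  have hm : (2 : ℚ) * (1 / 2) = 1 := by norm_num
  have hf' : NCM (0 + P) (refl P f) := by rw [zero_add]; exact refl_ncm hf
  have h := hat_cmp hm (l := 0) (m := P) (k := 0) hf' hg
  rw [hat_zero, zero_add, add_zero] at h
  rw [← h]
  funext w
  simp [kap]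

theorem kap_adj {P p : ℕ} {f g : ℕ → ℕ} (hf : NCM (P + 2) f) (hg : NCM P g) (hp : p ≤ P) :
    kap P (capf p f) g + capc p f = kap (P + 2) f (cupf p g) := by
  have hm : (2 : ℚ) * (1 / 2) = 1 := by norm_num
  have hcf := capf_ncm hf hp
  have hcg := cupf_ncm hg hp
  have h1 := hat_kap hcf hg
  have h2 := hat_kap hf hcg
  have hr := refl_capf hp hf
  have h3 : SC (1 / 2 : ℚ) (P - p) (hat (2 : ℚ) (P + 2) (refl (P + 2) f)) =
      (2 + 1 / 2 : ℚ) ^ capc p f • hat (2 : ℚ) P (refl P (capf p f)) := by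
    funext w
    rw [hat_cap hm (by omega) (refl_ncm hf) w, hr.1, hr.2]
    rfl
  have h4 : (fun _ => ((2 : ℚ) + 1 / 2) ^ (kap P (capf p f) g + capc p f) : (ℕ → Bool) → ℚ) =
      (fun _ => ((2 : ℚ) + 1 / 2) ^ kap (P + 2) f (cupf p g)) := by
    rw [h2, hat_cup _ hp, ← SU_ten' _ _ _ (hat_dep _ (refl_ncm hf))]
    obtain ⟨j, rfl⟩ : ∃ j, P = j + p := ⟨P - p, by omega⟩
    rw [show j + p + 2 + p = j + 2 * p + 2 by ring, GG_SU_adj hm,
      SC_ten _ (by omega : j ≤ j + p)]
    rw [show j + p - p = j by omega] at h3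
    rw [h3, ten_smul, GG_smul, ← h1]
    funext w
    simp [pow_add, mul_comm]
  have h5 := congrFun h4 (fun _ => true)
  exact pow_right_injective₀ (by norm_num) (by norm_num) h5

theorem glue_add (l k m : ℕ) : ∀ f : ℕ → ℕ,
    glue l (k + m) f = ((glue (l + k) m f).1 + (glue l k (glue (l + k) m f).2).1,
      (glue l k (glue (l + k) m f).2).2) := by
  induction m with
  | zero => intro f; simp [glue_zero]
  | succ m ih =>
    intro f
    rw [← add_assoc]
    simp only [glue_succ]
    rw [ih, add_assoc l k m]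
    ext <;> simp [add_assoc]

theorem kap_eq {k L : ℕ} {f g : ℕ → ℕ} :
    kap (L + k) f g = (cmp k L (refl (L + k) f) g).1 +
      (glue 0 k (cmp k L (refl (L + k) f) g).2).1 := by
  unfold kap cmp
  rw [show (0 + (L + k)) = L + k by omega]
  have : glue 0 (L + k) (juxt (L + k) (refl (L + k) f) g) =
      glue 0 (k + L) (juxt (L + k) (refl (L + k) f) g) := by rw [add_comm k L]
  rw [this, glue_add, zero_add, add_comm k L]

theorem kap_act {L k : ℕ} {z f g : ℕ → ℕ} (hz : NCM (L + L) z) (hf : NCM (L + k) f)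
    (hg : NCM (L + k) g) :
    (cmp L L z f).1 + kap (L + k) (cmp L L z f).2 g =
      (cmp L L (refl (L + L) z) g).1 + kap (L + k) f (cmp L L (refl (L + L) z) g).2 := by
  have hrz := refl_ncm hz
  have hrf : NCM (k + L) (refl (L + k) f) := by
    have := refl_ncm hf
    rwa [add_comm L k] at this ⊢
  have h1 := refl_cmp hz hf
  have h2 := cmp_assoc hrf hrz hg
  rw [kap_eq, kap_eq]
  rw [h1] at h2
  simp only at h2
  rw [h2.2]
  omega

theorem kap_pos {P : ℕ} {f g : ℕ → ℕ} (hf : NCM P f) (hg : NCM P g) (hP : 1 ≤ P) :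
    1 ≤ kap P f g := by
  have main : ∀ m, ∀ f : ℕ → ℕ, NCM (m + m + 2) f → 1 ≤ (glue 0 (m + 1) f).1 := by
    intro m
    induction m with
    | zero =>
      intro f hf
      have h1 := hf.1 0 (by omega)
      have h2 : f 0 = 1 := by omega
      simp only [glue_succ, glue_zero, capc]
      rw [if_pos (by simpa using h2)]
    | succ m ih =>
      intro f hf
      have h1 := ih _ (capf_ncm (P := m + m + 2) (p := m + 1) (f := f)
        (by rwa [show m + m + 2 + 2 = m + 1 + (m + 1) + 2 by ring]) (by omega))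
      rw [glue_succ]
      rw [zero_add]
      omega
  obtain ⟨m, rfl⟩ : ∃ m, P = m + 1 := ⟨P - 1, by omega⟩
  unfold kap cmp
  apply main
  have := juxt_ncm (refl_ncm hf) hg
  rw [show 0 + (m + 1) = m + 1 by omega]
  rwa [show m + 1 + (m + 1) = m + m + 2 by ring] at this

end Pool.Agent.H47.TL
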