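import Pool.Agent.H47.TL.Asm

open CategoryTheory Abelian
open scoped ModuleCat.Algebra nonZeroDivisors

namespace Pool.Agent.H47.TL

universe u

section
variable {R : Type u} [CommRing R] {a : R} {L : ℕ}

/-- the augmentation as a module homomorphism -/
noncomputable def epsM (R : Type u) [CommRing R] (a : R) (L : ℕ) :
    TLM R a L L →ₗ[TLA R a L] Triv R a L where
  toFun x := eps R a L x
  map_add' x y := map_add _ x y
  map_smul' y x := (map_mul (eps R a L) y x : _)

theorem mem_bad_of_ne {f : Dg (L + L)} (hf : f ≠ one' L) : f ∈ bad L L 0 := by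
  by_contra hc
  apply hf
  apply Subtype.ext
  apply idd_of_right f.2
  intro p hp1 hp2 hp3
  exact hc ⟨p - L, Nat.zero_le _, by omega, by rw [show L + (p - L) = p by omega]; exact hp3⟩

theorem ne_of_mem_bad {f : Dg (L + L)} (hf : f ∈ bad L L 0) : f ≠ one' L := by
  rintro rfl
  obtain ⟨p, _, hp2, hp3⟩ := hf
  change idd L (L + p) = L + p + 1 at hp3
  unfold idd at hp3
  rw [if_pos (by omega)] at hp3
  omega

theorem sub_mem_NR (x : TLA R a L) : x - eps R a L x • bs a (one' L) ∈ NR a L L 0 := by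
  induction x using TLM.induction with
  | h0 => rw [map_zero, zero_smul, sub_zero]; exact Submodule.zero_mem _
  | hadd x y hx hy =>
    rw [map_add, add_smul, add_sub_add_comm]
    exact Submodule.add_mem _ hx hy
  | hs c f =>
    rw [map_smul, smul_assoc, ← smul_sub]
    apply Submodule.smul_mem
    rw [eps_bs]
    by_cases hf : f = one' L
    · rw [if_pos hf, one_smul, hf, sub_self]
      exact Submodule.zero_mem _
    · rw [if_neg hf, zero_smul, sub_zero]
      exact bs_mem_NR (mem_bad_of_ne hf)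

theorem ker_epsM (R : Type u) [CommRing R] (a : R) (L : ℕ) :
    NN a L L 0 = LinearMap.ker (epsM R a L) := by
  apply le_antisymm
  · intro x hx
    rw [mem_NN] at hx
    rw [LinearMap.mem_ker]
    change eps R a L x = 0
    unfold NR at hx
    induction hx using Submodule.span_induction with
    | mem m hm =>
      obtain ⟨g, hg, rfl⟩ := hm
      rw [eps_bs, if_neg (ne_of_mem_bad hg)]
    | zero => exact map_zero _
    | add m m' _ _ h1 h2 => rw [map_add, h1, h2, add_zero]
    | smul c m _ h1 => rw [map_smul, h1, smul_zero]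
  · intro x hx
    rw [LinearMap.mem_ker] at hx
    have h1 : eps R a L x = 0 := hx
    have h2 := sub_mem_NR x
    rw [h1, zero_smul, sub_zero] at h2
    exact h2

/-- the top cell module is the trivial module -/
noncomputable def eW (R : Type u) [CommRing R] (a : R) (L : ℕ) :
    XX a L L 0 ≃ₗ[TLA R a L] Triv R a L :=
  (Submodule.quotEquivOfEq _ _ (ker_epsM R a L)).trans
    (LinearMap.quotKerEquivOfSurjective (epsM R a L) (fun r => by
      refine ⟨(show R from r) • bs a (one' L), ?_⟩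
      change eps R a L ((show R from r) • bs a (one' L)) = r
      rw [map_smul, eps_bs, if_pos rfl]
      exact mul_one (show R from r)))

theorem epsD_mem (R : Type u) [CommRing R] (a : R) (L : ℕ) : epsD R a L ∈ VV a L L 0 := by
  rw [mem_VV]
  intro g hg
  rw [ev_epsD, eps_bs, if_neg (ne_of_mem_bad hg)]

theorem ev_of_mem {ξ : DM R a L L} (hξ : ξ ∈ VV a L L 0) (x : TLA R a L) :
    ev ξ x = eps R a L x * ev ξ (bs a (one' L)) := by
  have h1 := hξ _ (sub_mem_NR x)
  have h2 : ev ξ x = ev ξ (x - eps R a L x • bs a (one' L)) +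
      ev ξ (eps R a L x • bs a (one' L)) := by
    rw [← ev_add', sub_add_cancel]
  rw [h2, h1, zero_add, ev_smul']

/-- an element of the base ring as an element of the trivial module -/
def mkT (r : R) : Triv R a L := r

/-- evaluation at the identity diagram -/
noncomputable def eVm (R : Type u) [CommRing R] (a : R) (L : ℕ) :
    VV a L L 0 →ₗ[TLA R a L] Triv R a L where
  toFun ξ := mkT (ev ξ.1 (bs a (one' L)))
  map_add' ξ η := rfl
  map_smul' x ξ := by
    have h : ev (x • ξ.1) (bs a (one' L)) = eps R a L x * ev ξ.1 (bs a (one' L)) := by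
      rw [ev_act, ← eps_st x, ← ev_of_mem ξ.2]
      exact congrArg (ev ξ.1) (act_one' _)
    exact h

theorem eVm_epsD (R : Type u) [CommRing R] (a : R) (L : ℕ) :
    eVm R a L ⟨epsD R a L, epsD_mem R a L⟩ = mkT 1 := by
  have h : eps R a L (bs a (one' L)) = 1 := by rw [eps_bs, if_pos rfl]
  exact h

theorem algebraMap_smul_triv (r : R) (t : Triv R a L) :
    algebraMap R (TLA R a L) r • t = mkT (r * (show R from t)) := by
  rw [smul_triv, AlgHom.commutes]
  rfl

/-- the dual of the top cell module is the trivial module -/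
noncomputable def eV (R : Type u) [CommRing R] (a : R) (L : ℕ) :
    VV a L L 0 ≃ₗ[TLA R a L] Triv R a L :=
  LinearEquiv.ofBijective (eVm R a L) (by
    constructor
    · rw [← LinearMap.ker_eq_bot, Submodule.eq_bot_iff]
      intro ξ hξ
      have h1 : ev ξ.1 (bs a (one' L)) = 0 := LinearMap.mem_ker.1 hξ
      apply Subtype.ext
      apply DM.ext'
      intro m
      rw [ev_of_mem ξ.2, h1, mul_zero]
      rfl
    · intro r
      refine ⟨algebraMap R (TLA R a L) (show R from r) • ⟨epsD R a L, epsD_mem R a L⟩, ?_⟩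
      rw [map_smul, eVm_epsD, algebraMap_smul_triv]
      exact mul_one (show R from r))

theorem eV_epsD (R : Type u) [CommRing R] (a : R) (L : ℕ) :
    eV R a L ⟨epsD R a L, epsD_mem R a L⟩ = mkT 1 := eVm_epsD R a L

/-- homomorphisms to the trivial module from `X(k; q)` vanish if `k < L` -/
theorem hom_XX_zero (ha : a ∈ R⁰) {j q : ℕ} (hj : 2 * j < L)
    (φ : XX a L (2 * j) q →ₗ[TLA R a L] Triv R a L) : φ = 0 := by
  apply LinearMap.ext
  intro x
  obtain ⟨m, rfl⟩ := Submodule.Quotient.mk_surjective _ x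
  let ψ : TLM R a L (2 * j) →ₗ[TLA R a L] Triv R a L := φ ∘ₗ (NN a L (2 * j) q).mkQ
  have h1 : ∀ m, ψ m = 0 := by
    rcases Nat.eq_zero_or_pos j with h | h
    · subst h
      intro m
      have h2 := hom_triv_zero' (by omega) ψ m
      have h3 : a * (show R from ψ m) = 0 := h2
      have h4 : (show R from ψ m) = 0 := by
        apply (mem_nonZeroDivisors_iff.1 ha).1
        exact h3
      exact h4
    · exact fun m => hom_triv_zero (by omega) hj ψ m
  exact h1 m

theorem core (R : Type u) [CommRing R] (a : R) (n : ℕ) (ha : a ∈ R⁰)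
    (hn : IsUnit (Ideal.Quotient.mk (Ideal.span {a}) ((n + 1).factorial : R))) :
    ∃ x : Ext.{u} (TT R a (2 * (n + 1))) (TT R a (2 * (n + 1))) (2 * (n + 1)),
      (∀ i, 1 ≤ i → ∀ z : Ext.{u} (TT R a (2 * (n + 1))) (TT R a (2 * (n + 1))) i,
        x.comp z rfl = 0 → z = 0) ∧
      (∀ i, ∀ y : Ext.{u} (TT R a (2 * (n + 1))) (TT R a (2 * (n + 1))) (2 * (n + 1) + (i + 1)),
        ∃ z : Ext.{u} (TT R a (2 * (n + 1))) (TT R a (2 * (n + 1))) (i + 1), x.comp z rfl = y) ∧
      (∀ y : Ext.{u} (TT R a (2 * (n + 1))) (TT R a (2 * (n + 1))) (2 * (n + 1)),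
        ∃ z : Ext.{u} (TT R a (2 * (n + 1))) (TT R a (2 * (n + 1))) 0,
        x.comp z (add_zero _) = y) ∧
      (∀ i, 1 ≤ i → ∀ z : Ext.{u} (TT R a (2 * (n + 1))) (TT R a (2 * (n + 1))) i, a • z = 0) ∧
      (∀ i, 1 ≤ i → i < 2 * (n + 1) →
        ∀ z : Ext.{u} (TT R a (2 * (n + 1))) (TT R a (2 * (n + 1))) i, z = 0) ∧
      (∀ r : R, r • x = 0 → a ∣ r) := by
  have hdet : ∀ k, k ≤ 2 * (n + 1) → (gram R a (2 * (n + 1) + k)).det ∈ Ua a := fun k hk =>
    gram_det_mem hn (by omega)
  let L := 2 * (n + 1)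
  let eX0 : XX a L 0 0 ≃ₗ[TLA R a L] TLM R a L 0 := Submodule.quotEquivOfEqBot _ (by
    apply le_bot_iff.1
    intro x hx
    rw [mem_NN, NR_top (by omega)] at hx
    exact hx)
  let eV0 : VV a L 0 0 ≃ₗ[TLA R a L] DM R a L 0 := LinearEquiv.ofTop _ (VV_top (by omega))
  have hL : 1 ≤ L := by omega
  refine engine (C := ModuleCat.{u} (TLA R a L)) (Ua a) a (TT R a L) n
    (fun j => ob a L (XX a L (2 * j) 0)) (fun j => ob a L (XX a L (2 * j + 2) 1))
    (fun j => ob a L (VV a L (2 * j) 0)) (fun j => ob a L (VV a L (2 * j + 2) 1))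
    (fun j => ModuleCat.ofHom (incX a L (2 * j) 0 (Nat.zero_le _)))
    (fun j => ModuleCat.ofHom (prjX a L (2 * j + 2) 0))
    (fun j => ModuleCat.ofHom (incV a L (2 * j + 2) 0))
    (fun j => ModuleCat.ofHom (prjV a L (2 * j) 0 (Nat.zero_le _)))
    (fun j => exact_comp _ _ (incX_exact _ _ _ _ _))
    (fun j => exact_comp _ _ (incV_exact _ _ _ _ _))
    (fun j _ => short_exact _ _ (incX_injective _ _ _ _ _) (incX_exact _ _ _ _ _)
      (prjX_surjective _ _ _ _) _)
    (fun j _ => short_exact _ _ (incV_injective _ _ _ _) (incV_exact _ _ _ _ _)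
      (prjV_surjective _ _ _ _ _) _)
    (fun j hj i hi z => ?_) (fun j hj z => ?_) (fun j hj i hi => ?_) (fun j hj => ?_)
    (fun j hj z hz => ?_)
    (ModuleCat.ofHom ((eV0.symm.toLinearMap ∘ₗ phi a L 0 hL) ∘ₗ eX0.toLinearMap))
    (ModuleCat.ofHom ((eX0.symm.toLinearMap ∘ₗ psi a L 0 hL) ∘ₗ eV0.toLinearMap))
    ((gram R a (L + 0)).det ^ 2) (Submonoid.pow_mem _ (hdet 0 (by omega)) 2) ?_ ?_
    (ob a L (TLM R a L 2))
    (ModuleCat.ofHom (rcup a L 0 0 le_rfl ∘ₗ eX0.toLinearMap))
    (ModuleCat.ofHom (eX0.symm.toLinearMap ∘ₗ rcap a L 0 0 le_rfl)) ?_ (fun i hi z => ?_)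
    (LinearEquiv.toModuleIso (eW R a L).symm) (LinearEquiv.toModuleIso (eV R a L)) ?_ ?_
  · -- hQ
    have h1 := tor_XX (R := R) (a := a) (L := L) (⊥ : Submonoid R) j ⟨n - j, by omega⟩
      (2 * j + 2) 1 le_rfl (by omega)
    obtain ⟨s, hs, h2⟩ := h1 i (by unfold i0; split_ifs <;> omega) z
    rw [Submonoid.mem_bot] at hs
    subst hs
    rwa [one_smul] at h2
  · -- hW0
    exact ext_zero_of_hom (fun φ => hom_XX_zero ha (by omega) φ) z
  · -- hP
    exact tor_VV (S := Ua a) hdet j ⟨n - j, by omega⟩ (2 * j + 2) 1 le_rfl (by omega) i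
      (by unfold i0; split_ifs <;> omega)
  · -- hP0
    exact tor_VV (S := Ua a) hdet j ⟨n - j, by omega⟩ (2 * j + 2) 1 le_rfl (by omega) 0
      (by unfold i0; rw [if_pos (by omega)])
  · -- hV
    obtain ⟨f, rfl⟩ := (Ext.mk₀_bijective _ _).2 z
    rw [← Ext.mk₀_smul, Ext.mk₀_eq_zero_iff] at hz
    rw [Ext.mk₀_eq_zero_iff]
    apply ModuleCat.hom_ext
    apply LinearMap.ext
    intro ξ
    have h1 : algebraMap R (TLA R a L) a • (f.hom ξ : Triv R a L) = 0 :=
      congrArg (fun φ => φ.hom ξ) hz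
    rw [algebraMap_smul_triv] at h1
    have h3 : a * (show R from f.hom ξ) = 0 := h1
    have h4 : (show R from f.hom ξ) = 0 := by
      apply (mem_nonZeroDivisors_iff.1 ha).1
      exact h3
    exact h4
  · apply ModuleCat.hom_ext
    apply LinearMap.ext
    intro x
    change eX0.symm (psi a L 0 hL (eV0 (eV0.symm (phi a L 0 hL (eX0 x))))) =
      algebraMap R (TLA R a L) ((gram R a (L + 0)).det ^ 2) • x
    rw [LinearEquiv.apply_symm_apply, psi_phi, ← algebraMap_smul (TLA R a L), map_smul,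
      LinearEquiv.symm_apply_apply]
  · apply ModuleCat.hom_ext
    apply LinearMap.ext
    intro x
    change eV0.symm (phi a L 0 hL (eX0 (eX0.symm (psi a L 0 hL (eV0 x))))) =
      algebraMap R (TLA R a L) ((gram R a (L + 0)).det ^ 2) • x
    rw [LinearEquiv.apply_symm_apply, phi_psi, ← algebraMap_smul (TLA R a L), map_smul,
      LinearEquiv.symm_apply_apply]
  · apply ModuleCat.hom_ext
    apply LinearMap.ext
    intro x
    change eX0.symm (rcap a L 0 0 le_rfl (rcup a L 0 0 le_rfl (eX0 x))) =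
      algebraMap R (TLA R a L) a • x
    rw [rcap_rcup_self, ← algebraMap_smul (TLA R a L), map_smul, LinearEquiv.symm_apply_apply]
  · obtain ⟨s, hs, h2⟩ := tor_TLM (R := R) (a := a) (L := L) (⊥ : Submonoid R) (k := 2) le_rfl
      ⟨n, by omega⟩ i hi z
    rw [Submonoid.mem_bot] at hs
    subst hs
    rwa [one_smul] at h2
  · -- units modulo `a`
    intro s hs
    rw [mem_Ua] at hs
    obtain ⟨t', ht'⟩ := hs.exists_left_inv
    obtain ⟨t, rfl⟩ := Ideal.Quotient.mk_surjective t'
    rw [← map_mul, ← map_one (Ideal.Quotient.mk (Ideal.span {a})), Ideal.Quotient.eq,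
      Ideal.mem_span_singleton'] at ht'
    obtain ⟨c, hc⟩ := ht'
    exact ⟨t, c, by linear_combination -hc⟩
  · -- divisibility
    intro k r hk
    have h1 := congrArg (fun f => f.hom (⟨epsD R a L, epsD_mem R a L⟩ : VV a L L 0)) hk
    have h2 : k.hom (incV a L L 0 ⟨epsD R a L, epsD_mem R a L⟩) =
        algebraMap R (TLA R a L) r • (eV R a L ⟨epsD R a L, epsD_mem R a L⟩) := h1
    rw [eV_epsD, algebraMap_smul_triv] at h2
    obtain ⟨c, hc⟩ := dvd_top (R := R) (a := a) (L := 2 * n + 1) k.hom ⟨n, rfl⟩ (xi_mem le_rfl)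
    refine ⟨c, ?_⟩
    have h3 : (⟨xi R a (2 * n + 1) (2 * n + 1), xi_mem le_rfl⟩ :
        VV a (2 * n + 1 + 1) (2 * n + 1 + 1) 1) = incV a L L 0 ⟨epsD R a L, epsD_mem R a L⟩ := by
      apply Subtype.ext
      exact xi_top R a (2 * n + 1)
    rw [h3] at hc
    rw [← hc]
    have h4 : mkT (a := a) (L := L) (r * (show R from mkT (a := a) (L := L) 1)) =
      mkT (a := a) (L := L) r := mul_one r
    exact (h2.trans h4).symm

end

end Pool.Agent.H47.TL
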