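import Mathlib

namespace Pool.Agent.H47.TL

/-- `f` is a noncrossing perfect matching of the points `0, …, P-1` on a line
(extended by the identity outside). -/
def NCM (P : ℕ) (f : ℕ → ℕ) : Prop :=
  (∀ x, x < P → f x < P ∧ f x ≠ x) ∧ (∀ x, P ≤ x → f x = x) ∧ (∀ x, f (f x) = x) ∧
    (∀ x y, x < y → y < f x → f y < f x)

/-- new number of the point `x` when two new points `p, p+1` are inserted -/
def up (p x : ℕ) : ℕ := if x < p then x else x + 2

/-- new number of the point `x` when the two points `p, p+1` are deleted -/
def dn (p x : ℕ) : ℕ := if x < p then x else x - 2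

/-- joining the points `p` and `p+1` closes a loop (`1`) or not (`0`) -/
def capc (p : ℕ) (f : ℕ → ℕ) : ℕ := if f p = p + 1 then 1 else 0

/-- join the points `p` and `p+1` and delete them -/
def capf (p : ℕ) (f : ℕ → ℕ) (x : ℕ) : ℕ :=
  dn p (if f (up p x) = p then f (p + 1) else if f (up p x) = p + 1 then f p else f (up p x))

/-- put `g` to the right of `f` (`f` has `P` points) -/
def juxt (P : ℕ) (f g : ℕ → ℕ) (x : ℕ) : ℕ := if x < P then f x else P + g (x - P)

/-- Join the points `l + m - 1 - i` and `l + m + i` for `i = 0, …, m-1` and delete them;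
the first component is the number of closed loops. -/
def glue (l : ℕ) : ℕ → (ℕ → ℕ) → ℕ × (ℕ → ℕ)
  | 0, f => (0, f)
  | m + 1, f => (capc (l + m) f + (glue l m (capf (l + m) f)).1, (glue l m (capf (l + m) f)).2)

/-- Composition of diagrams: number of closed loops and resulting diagram. A diagram with `l`
left and `m` right nodes is a noncrossing matching of `l + m` points on a line: the left nodes
from top to bottom, then the right nodes from bottom to top. Here `f` has `l` left and `m` right
nodes, and `g` has `m` left nodes. -/
def cmp (l m : ℕ) (f g : ℕ → ℕ) : ℕ × (ℕ → ℕ) := glue l m (juxt (l + m) f g)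

/-- the identity diagram -/
def idd (L : ℕ) (x : ℕ) : ℕ := if x < L + L then L + L - 1 - x else x

end Pool.Agent.H47.TL
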