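import Pool.Agent.H47.TL.Xmod

namespace Pool.Agent.H47.TL

universe u

/-- the dual of `TLM R a L k` -/
def DM (R : Type u) [CommRing R] (a : R) (L k : ℕ) : Type u := TLM R a L k →ₗ[R] R

section
variable {R : Type u} [CommRing R] {a : R} {L k : ℕ}

noncomputable instance : AddCommGroup (DM R a L k) :=
  inferInstanceAs (AddCommGroup (TLM R a L k →ₗ[R] R))

noncomputable instance : Module R (DM R a L k) :=
  inferInstanceAs (Module R (TLM R a L k →ₗ[R] R))

/-- the underlying linear functional -/
noncomputable def toL (ξ : DM R a L k) : TLM R a L k →ₗ[R] R := ξ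

/-- evaluation -/
noncomputable def ev (ξ : DM R a L k) (m : TLM R a L k) : R := toL ξ m

theorem ev_add (ξ η : DM R a L k) (m : TLM R a L k) : ev (ξ + η) m = ev ξ m + ev η m := rfl
theorem ev_smul (r : R) (ξ : DM R a L k) (m : TLM R a L k) : ev (r • ξ) m = r * ev ξ m := rfl
theorem ev_zero (m : TLM R a L k) : ev (0 : DM R a L k) m = 0 := rfl
theorem ev_add' (ξ : DM R a L k) (m m' : TLM R a L k) : ev ξ (m + m') = ev ξ m + ev ξ m' :=
  map_add (toL ξ) m m'
theorem ev_smul' (ξ : DM R a L k) (r : R) (m : TLM R a L k) : ev ξ (r • m) = r * ev ξ m :=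
  map_smul (toL ξ) r m
theorem ev_zero' (ξ : DM R a L k) : ev ξ (0 : TLM R a L k) = 0 :=
  map_zero (toL ξ)

theorem DM.ext {ξ η : DM R a L k} (h : ∀ g, ev ξ (bs a g) = ev η (bs a g)) : ξ = η :=
  TLM.hom_ext (a := a) (φ := (toL ξ)) (ψ := (toL η)) h

theorem DM.ext' {ξ η : DM R a L k} (h : ∀ m, ev ξ m = ev η m) : ξ = η :=
  DM.ext fun _ => h _

/-- multiplication by an element of the algebra, as an `R`-linear map -/
noncomputable def mulL (x : TLA R a L) : TLM R a L k →ₗ[R] TLM R a L k := actL R a L k x

noncomputable instance : Module (TLA R a L) (DM R a L k) where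
  smul x ξ := (toL ξ) ∘ₗ actL R a L k (st R a L x)
  one_smul ξ := by
    apply DM.ext'
    intro m
    change ev ξ (act R a L k (st R a L 1) m) = ev ξ m
    rw [st_one]
    exact congrArg (ev ξ) (act_one m)
  mul_smul x y ξ := by
    apply DM.ext'
    intro m
    change ev ξ (act R a L k (st R a L (x * y)) m) =
      ev ξ (act R a L k (st R a L y) (act R a L k (st R a L x) m))
    rw [st_mul]
    exact congrArg (ev ξ) (act_assoc _ _ m)
  smul_zero x := rfl
  smul_add x ξ η := rfl
  add_smul x y ξ := by
    apply DM.ext'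
    intro m
    change ev ξ (act R a L k (st R a L (x + y)) m) =
      ev ξ (act R a L k (st R a L x) m) + ev ξ (act R a L k (st R a L y) m)
    rw [map_add, act_add_left, ev_add']
  zero_smul ξ := by
    apply DM.ext'
    intro m
    change ev ξ (act R a L k (st R a L 0) m) = 0
    rw [map_zero, act_zero_left, ev_zero']

theorem ev_act (x : TLA R a L) (ξ : DM R a L k) (m : TLM R a L k) :
    ev (x • ξ) m = ev ξ (st R a L x • m) := rfl

instance : IsScalarTower R (TLA R a L) (DM R a L k) where
  smul_assoc r x ξ := by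
    apply DM.ext'
    intro m
    rw [ev_act, ev_smul, ev_act, map_smul, smul_assoc, ev_smul']

/-! ### restriction of functionals -/

/-- composition with `rcup` -/
noncomputable def rcupD (a : R) (L k p : ℕ) (hp : p ≤ k) :
    DM R a L (k + 2) →ₗ[TLA R a L] DM R a L k where
  toFun ξ := (toL ξ) ∘ₗ rcup₀ a L k p hp
  map_add' ξ η := rfl
  map_smul' x ξ := by
    apply DM.ext'
    intro m
    change ev (x • ξ) (rcup a L k p hp m) = ev ξ (rcup a L k p hp (st R a L x • m))
    rw [ev_act, map_smul]

/-- composition with `rcap` -/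
noncomputable def rcapD (a : R) (L k p : ℕ) (hp : p ≤ k) :
    DM R a L k →ₗ[TLA R a L] DM R a L (k + 2) where
  toFun ξ := (toL ξ) ∘ₗ rcap₀ a L k p hp
  map_add' ξ η := rfl
  map_smul' x ξ := by
    apply DM.ext'
    intro m
    change ev (x • ξ) (rcap a L k p hp m) = ev ξ (rcap a L k p hp (st R a L x • m))
    rw [ev_act, map_smul]

theorem ev_rcupD (p : ℕ) (hp : p ≤ k) (ξ : DM R a L (k + 2)) (m : TLM R a L k) :
    ev (rcupD a L k p hp ξ) m = ev ξ (rcup a L k p hp m) := rfl

theorem ev_rcapD (p : ℕ) (hp : p ≤ k) (ξ : DM R a L k) (m : TLM R a L (k + 2)) :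
    ev (rcapD a L k p hp ξ) m = ev ξ (rcap a L k p hp m) := rfl

/-- the functionals vanishing on bad diagrams -/
noncomputable def VV (a : R) (L k q : ℕ) : Submodule (TLA R a L) (DM R a L k) where
  carrier := {ξ | ∀ m ∈ NR a L k q, ev ξ m = 0}
  add_mem' := by
    intro ξ η h1 h2 m hm
    rw [ev_add, h1 m hm, h2 m hm, add_zero]
  zero_mem' := fun m _ => rfl
  smul_mem' := by
    intro x ξ h m hm
    rw [ev_act]
    exact h _ (smul_mem_NR _ hm)

theorem mem_VV {q : ℕ} {ξ : DM R a L k} :
    ξ ∈ VV a L k q ↔ ∀ g ∈ bad L k q, ev ξ (bs a g) = 0 := by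
  constructor
  · intro h g hg
    exact h _ (bs_mem_NR hg)
  · intro h m hm
    unfold NR at hm
    induction hm using Submodule.span_induction with
    | mem m hm =>
      obtain ⟨g, hg, rfl⟩ := hm
      exact h g hg
    | zero => exact ev_zero' ξ
    | add m m' _ _ h1 h2 => rw [ev_add', h1, h2, add_zero]
    | smul c m _ h1 => rw [ev_smul', h1, mul_zero]

theorem VV_mono {q : ℕ} : VV a L k q ≤ VV a L k (q + 1) := fun _ hξ m hm => hξ m (NR_mono hm)

theorem VV_top {q : ℕ} (hq : k ≤ q + 1) : VV a L k q = ⊤ := by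
  rw [eq_top_iff]
  intro ξ _ m hm
  rw [NR_top hq] at hm
  rw [(Submodule.mem_bot R).1 hm]
  exact ev_zero' ξ

/-- first map of the dual short exact sequence -/
noncomputable def incV (a : R) (L k q : ℕ) : VV a L k q →ₗ[TLA R a L] VV a L k (q + 1) :=
  Submodule.inclusion VV_mono

theorem rcupD_mem {q : ℕ} (hq : q ≤ k) {ξ : DM R a L (k + 2)} (hξ : ξ ∈ VV a L (k + 2) (q + 1)) :
    rcupD a L k q hq ξ ∈ VV a L k q := by
  rw [mem_VV] at hξ ⊢
  intro g hg
  rw [ev_rcupD, rcup_bs]
  exact hξ _ (cupD_bad hq hg)

/-- second map of the dual short exact sequence -/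
noncomputable def prjV (a : R) (L k q : ℕ) (hq : q ≤ k) :
    VV a L (k + 2) (q + 1) →ₗ[TLA R a L] VV a L k q :=
  (rcupD a L k q hq).restrict fun _ hξ => rcupD_mem hq hξ

theorem incV_injective (a : R) (L k q : ℕ) : Function.Injective (incV a L k q) :=
  Submodule.inclusion_injective _

theorem prjV_surjective (a : R) (L k q : ℕ) (hq : q ≤ k) :
    Function.Surjective (prjV a L k q hq) := by
  rintro ⟨η, hη⟩
  rw [mem_VV] at hη
  let ξ : DM R a L (k + 2) := (toL η) ∘ₗ rtr a L k q hq
  have hξ : ξ ∈ VV a L (k + 2) (q + 1) := by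
    intro m hm
    exact (mem_VV.2 hη) _ (rtr_mem hq hm)
  refine ⟨⟨ξ, hξ⟩, ?_⟩
  apply Subtype.ext
  apply DM.ext'
  intro m
  change ev η (rtr a L k q hq (rcup a L k q hq m)) = ev η m
  rw [rtr_rcup]

theorem incV_exact (a : R) (L k q : ℕ) (hq : q ≤ k) :
    Function.Exact (incV a L (k + 2) q) (prjV a L k q hq) := by
  rintro ⟨ξ, hξ⟩
  constructor
  · intro h
    have h0 : ∀ m, ev ξ (rcup a L k q hq m) = 0 := by
      intro m
      have h1 := congrArg Subtype.val h
      have h2 : rcupD a L k q hq ξ = 0 := h1
      have h3 : ev (rcupD a L k q hq ξ) m = 0 := by rw [h2]; rfl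
      exact h3
    have h1 : ξ ∈ VV a L (k + 2) q := by
      rw [mem_VV] at hξ ⊢
      rintro g ⟨p, h1, h2, h3⟩
      by_cases hpq : p = q
      · subst hpq
        rw [bad_eq_cup hq h3, ← rcup_bs]
        exact h0 _
      · exact hξ g ⟨p, by omega, h2, h3⟩
    exact ⟨⟨ξ, h1⟩, rfl⟩
  · rintro ⟨⟨η, hη⟩, h⟩
    have h1 : η = ξ := congrArg Subtype.val h
    subst h1
    apply Subtype.ext
    apply DM.ext
    intro g
    change ev η (rcup a L k q hq (bs a g)) = 0
    rw [rcup_bs]
    exact (mem_VV.1 hη) _ ⟨q, le_rfl, by omega, cupf_left _ _⟩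

/-! ### the form -/

/-- the scaled form on diagrams -/
noncomputable def gram (R : Type u) [CommRing R] (a : R) (P : ℕ) : Matrix (Dg P) (Dg P) R :=
  fun f g => a ^ (kap P f.1 g.1 - 1)

/-- the map to the dual given by the form -/
noncomputable def phi₀ (R : Type u) [CommRing R] (a : R) (L k : ℕ) :
    TLM R a L k →ₗ[R] (TLM R a L k →ₗ[R] R) :=
  lft (fun f => lft (fun g => gram R a (L + k) f g))

theorem phi₀_bs (f g : Dg (L + k)) : phi₀ R a L k (bs a f) (bs a g) = gram R a (L + k) f g := by
  unfold phi₀
  rw [lft_bs, lft_bs]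

theorem phi₀_act (hL : 1 ≤ L) (x : TLA R a L) (m m' : TLM R a L k) :
    phi₀ R a L k (x • m) m' = phi₀ R a L k m (st R a L x • m') := by
  induction x using TLM.induction with
  | h0 => simp only [zero_smul, map_zero, LinearMap.zero_apply]
  | hadd x y hx hy => simp only [add_smul, map_add, LinearMap.add_apply, hx, hy]
  | hs c z =>
    induction m using TLM.induction with
    | h0 => simp only [smul_zero, map_zero, LinearMap.zero_apply]
    | hadd x y hx hy => simp only [smul_add, map_add, LinearMap.add_apply, hx, hy]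
    | hs d f =>
      induction m' using TLM.induction with
      | h0 => simp only [smul_zero, map_zero]
      | hadd x y hx hy => simp only [smul_add, map_add, hx, hy]
      | hs e g =>
        rw [smul_assoc c, smul_comm (bs a z) d, bs_smul_bs, map_smul (st R a L) c, st_bs,
          smul_assoc c, smul_comm (bs a (reflD z)) e, bs_smul_bs]
        simp only [map_smul, LinearMap.smul_apply, phi₀_bs, smul_eq_mul]
        have h := kap_act z.2 f.2 g.2
        have p1 := kap_pos (mulD z f).2 g.2 (by omega)
        have p2 := kap_pos f.2 (mulD (reflD z) g).2 (by omega)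
        have h1 : loops z f + (kap (L + k) (mulD z f).1 g.1 - 1) =
            loops (reflD z) g + (kap (L + k) f.1 (mulD (reflD z) g).1 - 1) := by
          have h2 : loops z f + kap (L + k) (mulD z f).1 g.1 =
            loops (reflD z) g + kap (L + k) f.1 (mulD (reflD z) g).1 := h
          omega
        have h3 : a ^ loops z f * gram R a (L + k) (mulD z f) g =
            a ^ loops (reflD z) g * gram R a (L + k) f (mulD (reflD z) g) := by
          unfold gram
          rw [← pow_add, ← pow_add, h1]
        linear_combination (e * c * d) * h3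

/-- the map to the dual, as a module homomorphism -/
noncomputable def phi (a : R) (L k : ℕ) (hL : 1 ≤ L) :
    TLM R a L k →ₗ[TLA R a L] DM R a L k where
  toFun m := phi₀ R a L k m
  map_add' m m' := map_add _ m m'
  map_smul' x m := by
    apply DM.ext'
    intro m'
    exact phi₀_act hL x m m'

/-- the map in the other direction -/
noncomputable def psi₀ (a : R) (L k : ℕ) : DM R a L k →ₗ[R] TLM R a L k where
  toFun ξ := ∑ f : Dg (L + k), (∑ g : Dg (L + k), ev ξ (bs a g) *
    (gram R a (L + k)).adjugate g f) • bs a f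
  map_add' ξ η := by
    rw [← Finset.sum_add_distrib]
    refine Finset.sum_congr rfl fun f _ => ?_
    rw [← add_smul, ← Finset.sum_add_distrib]
    congr 1
    refine Finset.sum_congr rfl fun g _ => ?_
    rw [ev_add]
    ring
  map_smul' r ξ := by
    simp only [RingHom.id_apply]
    rw [Finset.smul_sum]
    refine Finset.sum_congr rfl fun f _ => ?_
    rw [smul_smul, Finset.mul_sum]
    congr 1
    refine Finset.sum_congr rfl fun g _ => ?_
    rw [ev_smul]
    ring

theorem phi_psi₀ (hL : 1 ≤ L) (ξ : DM R a L k) :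
    phi a L k hL (psi₀ a L k ξ) = (gram R a (L + k)).det • ξ := by
  apply DM.ext
  intro h
  change phi₀ R a L k (∑ f : Dg (L + k), (∑ g : Dg (L + k), ev ξ (bs a g) *
    (gram R a (L + k)).adjugate g f) • bs a f) (bs a h) = _
  rw [map_sum, LinearMap.sum_apply]
  simp only [map_smul, LinearMap.smul_apply, phi₀_bs, smul_eq_mul]
  rw [ev_smul]
  have h1 := Matrix.adjugate_mul (gram R a (L + k))
  have h2 : ∀ g, ∑ f, (gram R a (L + k)).adjugate g f * gram R a (L + k) f h =
      if g = h then (gram R a (L + k)).det else 0 := by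
    intro g
    have := congrFun (congrFun h1 g) h
    rw [Matrix.mul_apply, Matrix.smul_apply, Matrix.one_apply] at this
    rw [this]
    split_ifs <;> simp
  calc ∑ f, (∑ g, ev ξ (bs a g) * (gram R a (L + k)).adjugate g f) * gram R a (L + k) f h
      = ∑ g, ev ξ (bs a g) * ∑ f, (gram R a (L + k)).adjugate g f * gram R a (L + k) f h := by
        simp only [Finset.sum_mul, Finset.mul_sum]
        rw [Finset.sum_comm]
        refine Finset.sum_congr rfl fun g _ => Finset.sum_congr rfl fun f _ => ?_
        ring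
    _ = (gram R a (L + k)).det * ev ξ (bs a h) := by
        simp only [h2]
        rw [Finset.sum_eq_single h]
        · rw [if_pos rfl]; ring
        · intro g _ hg
          rw [if_neg hg, mul_zero]
        · intro hh
          exact absurd (Finset.mem_univ h) hh

theorem psi₀_phi (hL : 1 ≤ L) (m : TLM R a L k) :
    psi₀ a L k (phi a L k hL m) = (gram R a (L + k)).det • m := by
  have hlin : ∀ m : TLM R a L k, psi₀ a L k (phi₀ R a L k m : DM R a L k) =
      (gram R a (L + k)).det • m := by
    intro m
    induction m using TLM.induction with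
    | h0 => rw [map_zero, smul_zero]; exact map_zero (psi₀ a L k)
    | hadd x y hx hy =>
      rw [map_add, smul_add, ← hx, ← hy]
      exact map_add (psi₀ a L k) _ _
    | hs c f =>
      rw [map_smul]
      have h0 : psi₀ a L k (c • (phi₀ R a L k (bs a f)) : DM R a L k) =
        c • psi₀ a L k (phi₀ R a L k (bs a f) : DM R a L k) := map_smul (psi₀ a L k) c _
      refine h0.trans ?_
      rw [smul_comm _ c]
      congr 1
      change (∑ h : Dg (L + k), (∑ g : Dg (L + k), ev (phi₀ R a L k (bs a f) : DM R a L k)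
        (bs a g) * (gram R a (L + k)).adjugate g h) • bs a h) = _
      have h1 := Matrix.mul_adjugate (gram R a (L + k))
      have h2 : ∀ h, ∑ g, ev (phi₀ R a L k (bs a f) : DM R a L k) (bs a g) *
          (gram R a (L + k)).adjugate g h = if f = h then (gram R a (L + k)).det else 0 := by
        intro h
        have := congrFun (congrFun h1 f) h
        rw [Matrix.mul_apply, Matrix.smul_apply, Matrix.one_apply] at this
        have h3 : ∀ g, ev (phi₀ R a L k (bs a f) : DM R a L k) (bs a g) =
          gram R a (L + k) f g := fun g => phi₀_bs f g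
        simp only [h3]
        rw [this]
        split_ifs <;> simp
      simp only [h2]
      rw [Finset.sum_eq_single f]
      · rw [if_pos rfl]
      · intro g _ hg
        rw [if_neg (Ne.symm hg), zero_smul]
      · intro hh
        exact absurd (Finset.mem_univ f) hh
  exact hlin m

/-- scalars of the base ring through the algebra -/
theorem R_smul_TLM (r : R) (m : TLM R a L k) : algebraMap R (TLA R a L) r • m = r • m :=
  algebraMap_smul _ _ _

/-- the map in the other direction, multiplied by the determinant, is a module homomorphism -/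
noncomputable def psi (a : R) (L k : ℕ) (hL : 1 ≤ L) :
    DM R a L k →ₗ[TLA R a L] TLM R a L k where
  toFun ξ := (gram R a (L + k)).det • psi₀ a L k ξ
  map_add' ξ η := by rw [map_add, smul_add]
  map_smul' x ξ := by
    simp only [RingHom.id_apply]
    have h1 : phi a L k hL (x • psi₀ a L k ξ) = phi a L k hL (psi₀ a L k (x • ξ)) := by
      rw [map_smul, phi_psi₀, phi_psi₀]
      rw [← algebraMap_smul (TLA R a L) (gram R a (L + k)).det ξ,
        ← algebraMap_smul (TLA R a L) (gram R a (L + k)).det (x • ξ), smul_smul, smul_smul,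
        Algebra.commutes]
    have h2 := congrArg (psi₀ a L k) h1
    rw [psi₀_phi, psi₀_phi] at h2
    rw [← h2, smul_comm]

theorem phi_psi (hL : 1 ≤ L) (ξ : DM R a L k) :
    phi a L k hL (psi a L k hL ξ) = ((gram R a (L + k)).det ^ 2) • ξ := by
  change phi a L k hL ((gram R a (L + k)).det • psi₀ a L k ξ) = _
  rw [← R_smul_TLM, map_smul, phi_psi₀, algebraMap_smul, smul_smul, sq]

theorem psi_phi (hL : 1 ≤ L) (m : TLM R a L k) :
    psi a L k hL (phi a L k hL m) = ((gram R a (L + k)).det ^ 2) • m := by
  change (gram R a (L + k)).det • psi₀ a L k (phi a L k hL m) = _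
  rw [psi₀_phi, smul_smul, sq]

end

end Pool.Agent.H47.TL
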