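import Pool.Agent.H47.TL.Obj

open CategoryTheory Abelian DirectSum

namespace Pool.Agent.H47.TL

universe w v u t

section
variable {R : Type t} [CommRing R] {C : Type u} [Category.{v} C] [Abelian C] [Linear R C]
  [HasExt.{w} C]

theorem of_comp {T : C} {i j c : ℕ} (x : YE T i) (y : YE T j) (h : i + j = c) :
    (DirectSum.of (YE T) i x * DirectSum.of (YE T) j y : ⨁ i, YE T i) =
      DirectSum.of (YE T) c (x.comp y h) := by
  subst h
  exact DirectSum.of_mul_of x y

/-- the powers of `x` in the right degree -/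
noncomputable def xs {T : C} {N : ℕ} (x : YE T N) : ∀ j : ℕ, YE T (N * j)
  | 0 => Ext.mk₀ (𝟙 T)
  | j + 1 => x.comp (xs x j) (by ring)

theorem of_xs {T : C} {N : ℕ} (x : YE T N) (j : ℕ) :
    DirectSum.of (YE T) (N * j) (xs x j) = (DirectSum.of (YE T) N x) ^ j := by
  induction j with
  | zero => rw [pow_zero]; rfl
  | succ j ih =>
    rw [pow_succ', ← ih, of_comp x (xs x j) (by ring : N + N * j = N * (j + 1))]
    rfl

theorem of_smul' {T : C} {i : ℕ} (r : R) (x : YE T i) :
    DirectSum.of (YE T) i (r • x) = r • DirectSum.of (YE T) i x :=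
  (DirectSum.lof R ℕ (YE T) i).map_smul r x

theorem final_abstract (a : R) (T : C) (N : ℕ) (hN : 1 ≤ N) (x : YE T N)
    (inj : ∀ i, 1 ≤ i → ∀ z : YE T i, x.comp z rfl = 0 → z = 0)
    (surj : ∀ i, ∀ y : YE T (N + (i + 1)), ∃ z : YE T (i + 1), x.comp z rfl = y)
    (surj0 : ∀ y : YE T N, ∃ z : YE T 0, x.comp z (add_zero _) = y)
    (tor : ∀ i, 1 ≤ i → ∀ z : YE T i, a • z = 0)
    (van : ∀ i, 1 ≤ i → i < N → ∀ z : YE T i, z = 0)
    (dvd : ∀ r : R, r • x = 0 → a ∣ r)
    (h0 : ∀ z : YE T 0, ∃ r : R, z = r • Ext.mk₀ (𝟙 T))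
    (h00 : ∀ r : R, r • (Ext.mk₀ (𝟙 T) : YE T 0) = 0 → r = 0) :
    ∃ e : (⨁ i, YE T i) ≃ₐ[R] RXa R a,
      ∀ i, Submodule.map e.toLinearMap (LinearMap.range (DirectSum.lof R ℕ (YE T) i)) =
        grp R a N i := by
  let XX : ⨁ i, YE T i := DirectSum.of (YE T) N x
  have haX : a • XX = 0 := by
    rw [← of_smul', tor N hN x, map_zero]
  -- the homomorphism
  let φ0 : Polynomial R →ₐ[R] (⨁ i, YE T i) := Polynomial.aeval XX
  have hφ0 : ∀ p ∈ Ideal.span {(Polynomial.C a * Polynomial.X : Polynomial R)}, φ0 p = 0 := by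
    intro p hp
    obtain ⟨c, rfl⟩ := Ideal.mem_span_singleton'.1 hp
    rw [map_mul, map_mul]
    have h1 : φ0 (Polynomial.C a) * φ0 Polynomial.X = 0 := by
      simp only [φ0, Polynomial.aeval_C, Polynomial.aeval_X]
      rw [← Algebra.smul_def, haX]
    rw [h1, mul_zero]
  let φ : RXa R a →ₐ[R] (⨁ i, YE T i) := Ideal.Quotient.liftₐ _ φ0 hφ0
  have hφx : φ (xcl R a) = XX := by
    change φ0 Polynomial.X = XX
    exact Polynomial.aeval_X _
  -- degreewise description
  have hdeg : ∀ i, ∀ z : YE T i, DirectSum.of (YE T) i z = 0 ∨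
      ∃ (j : ℕ) (r : R), N * j = i ∧ DirectSum.of (YE T) i z = r • XX ^ j := by
    intro i
    induction i using Nat.strong_induction_on with
    | _ i ih =>
      intro z
      rcases Nat.eq_zero_or_pos i with hi | hi
      · subst hi
        obtain ⟨r, rfl⟩ := h0 z
        right
        refine ⟨0, r, by ring, ?_⟩
        rw [of_smul', pow_zero]
        rfl
      · rcases lt_trichotomy i N with h1 | h1 | h1
        · left
          rw [van i hi h1 z, map_zero]
        · subst h1
          obtain ⟨z0, rfl⟩ := surj0 z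
          obtain ⟨r, rfl⟩ := h0 z0
          right
          refine ⟨1, r, by ring, ?_⟩
          rw [Ext.comp_smul, Ext.comp_mk₀_id, of_smul', pow_one]
        · obtain ⟨i', rfl⟩ : ∃ i', i = N + (i' + 1) := ⟨i - N - 1, by omega⟩
          obtain ⟨z', rfl⟩ := surj i' z
          rcases ih (i' + 1) (by omega) z' with h2 | ⟨j, r, h2, h3⟩
          · left
            rw [← of_comp x z' rfl, h2, mul_zero]
          · right
            refine ⟨j + 1, r, by rw [← h2]; ring, ?_⟩
            rw [← of_comp x z' rfl, h3, mul_smul_comm, pow_succ']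
  -- annihilators of the powers
  have hann : ∀ j, ∀ r : R, r • xs x (j + 1) = 0 → a ∣ r := by
    intro j
    induction j with
    | zero =>
      intro r hr
      apply dvd
      have h1 : x.comp (r • (Ext.mk₀ (𝟙 T) : YE T 0)) (by ring : N + 0 = N * (0 + 1)) = 0 := by
        rw [Ext.comp_smul]
        exact hr
      have h2 : ∀ c, ∀ h : N + 0 = c, x.comp (r • (Ext.mk₀ (𝟙 T) : YE T 0)) h = 0 →
          r • x = 0 := by
        intro c h h3
        subst h
        rw [Ext.comp_smul] at h3
        have h4 := Ext.comp_mk₀_id x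
        rw [← h4]
        exact h3
      exact h2 _ _ h1
    | succ j ih =>
      intro r hr
      apply ih r
      have h1 : ∀ c, ∀ h : N + N * (j + 1) = c, x.comp (r • xs x (j + 1)) h = 0 →
          r • xs x (j + 1) = 0 := by
        intro c h h3
        subst h
        exact inj (N * (j + 1)) (Nat.mul_pos hN (Nat.succ_pos j)) _ h3
      apply h1 _ (by ring : N + N * (j + 1) = N * (j + 1 + 1))
      rw [Ext.comp_smul]
      exact hr
  have hφbij : Function.Bijective φ := by
    constructor
    · rw [injective_iff_map_eq_zero]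
      intro p hp
      obtain ⟨p, rfl⟩ := Ideal.Quotient.mk_surjective p
      have hp' : φ0 p = 0 := hp
      rw [Ideal.Quotient.eq_zero_iff_mem]
      have hcoef : ∀ j, p.coeff j • xs x j = 0 := by
        intro j
        have h1 : φ0 p = ∑ i ∈ p.support, DirectSum.of (YE T) (N * i) (p.coeff i • xs x i) := by
          simp only [φ0]
          rw [Polynomial.aeval_def, Polynomial.eval₂_eq_sum, Polynomial.sum]
          refine Finset.sum_congr rfl fun i _ => ?_
          rw [of_smul', of_xs, ← Algebra.smul_def]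
        rw [hp'] at h1
        have h2 := congrArg (DirectSum.component R ℕ (YE T) (N * j)) h1
        rw [map_zero, map_sum] at h2
        by_cases hj : j ∈ p.support
        · rw [Finset.sum_eq_single j] at h2
          · have h3 : DirectSum.component R ℕ (YE T) (N * j)
              (DirectSum.of (YE T) (N * j) (p.coeff j • xs x j)) = p.coeff j • xs x j :=
              DirectSum.component.lof_self (R := R) (ι := ℕ) (M := YE T) (N * j) _
            rw [h3] at h2
            exact h2.symm
          · intro i _ hij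
            have hne : N * i ≠ N * j := by
              intro h
              exact hij (Nat.eq_of_mul_eq_mul_left hN h)
            have h3 := DirectSum.component.of (R := R) (ι := ℕ) (M := YE T) (N * j) (N * i)
              (p.coeff i • xs x i)
            rw [dif_neg hne] at h3
            exact h3
          · intro h
            exact absurd hj h
        · rw [Polynomial.notMem_support_iff.1 hj, zero_smul]
      have hc0 : p.coeff 0 = 0 := h00 _ (hcoef 0)
      have hcj : ∀ j, a ∣ p.coeff (j + 1) := fun j => hann j _ (hcoef (j + 1))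
      rw [Ideal.mem_span_singleton]
      obtain ⟨q, hq⟩ : (Polynomial.X : Polynomial R) ∣ p := Polynomial.X_dvd_iff.2 hc0
      have hq2 : Polynomial.C a ∣ q := by
        rw [Polynomial.C_dvd_iff_dvd_coeff]
        intro j
        have := hcj j
        rwa [hq, mul_comm, Polynomial.coeff_mul_X] at this
      obtain ⟨q', hq'⟩ := hq2
      exact ⟨q', by rw [hq, hq']; ring⟩
    · intro y
      induction y using DirectSum.induction_on with
      | zero => exact ⟨0, map_zero _⟩
      | of i z =>
        rcases hdeg i z with h | ⟨j, r, _, h⟩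
        · exact ⟨0, by rw [map_zero]; exact h.symm⟩
        · exact ⟨r • xcl R a ^ j, by rw [map_smul, map_pow, hφx]; exact h.symm⟩
      | add y z hy hz =>
        obtain ⟨p, rfl⟩ := hy
        obtain ⟨q, rfl⟩ := hz
        exact ⟨p + q, map_add _ _ _⟩
  let e := (AlgEquiv.ofBijective φ hφbij).symm
  have he : ∀ p, e (φ p) = p := fun p => (AlgEquiv.ofBijective φ hφbij).symm_apply_apply p
  refine ⟨e, fun i => ?_⟩
  apply le_antisymm
  · rintro _ ⟨_, ⟨z, rfl⟩, rfl⟩
    change e (DirectSum.of (YE T) i z) ∈ grp R a N i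
    rcases hdeg i z with h | ⟨j, r, h1, h⟩
    · rw [h, map_zero]
      exact Submodule.zero_mem _
    · rw [h, ← hφx, ← map_pow, ← map_smul, he]
      exact Submodule.smul_mem _ _ (Submodule.subset_span ⟨j, h1, rfl⟩)
  · unfold grp
    rw [Submodule.span_le]
    rintro _ ⟨j, rfl, rfl⟩
    refine ⟨DirectSum.of (YE T) (N * j) (xs x j), ⟨xs x j, rfl⟩, ?_⟩
    change e (DirectSum.of (YE T) (N * j) (xs x j)) = xcl R a ^ j
    rw [of_xs]
    change e (XX ^ j) = _
    rw [← hφx, ← map_pow, he]

end

end Pool.Agent.H47.TL
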