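import Pool.Agent.H47.TL.Dual

namespace Pool.Agent.H47.TL

/-! ### sorting words -/

/-- number of letters `true` -/
def ones (P : ℕ) (w : ℕ → Bool) : ℕ := ∑ x ∈ Finset.range P, if w x then 1 else 0

/-- the sorted word -/
def srt (N x : ℕ) : Bool := decide (N ≤ x)

theorem sum_up {K : Type*} [AddCommMonoid K] {P p : ℕ} (hp : p ≤ P) (E : ℕ → K) :
    ∑ x ∈ Finset.range (P + 2), E x = E p + (E (p + 1) + ∑ y ∈ Finset.range P, E (up p y)) :=
  prod_up (K := Multiplicative K) hp E

theorem ones_ins {P p : ℕ} (hp : p ≤ P) (s t : Bool) (w : ℕ → Bool) :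
    ones (P + 2) (ins p s t w) = (if s then 1 else 0) + ((if t then 1 else 0) + ones P w) := by
  unfold ones
  rw [sum_up hp]
  simp only [ins_left, ins_right, ins_up]

theorem vv_ins {P p : ℕ} (hp : p ≤ P) (w : ℕ → Bool) :
    vv (P + 2) (ins p false true w) = vv (P + 2) (ins p true false w) + 1 := by
  unfold vv
  rw [sum_up hp, sum_up hp]
  simp only [ins_left, ins_right, ins_up]
  simp
  omega

theorem vv_lt {P : ℕ} (w : ℕ → Bool) : vv P w ≤ P * P := by
  unfold vv
  calc ∑ x ∈ Finset.range P, (if w x then x else 0) ≤ ∑ _x ∈ Finset.range P, P := by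
        refine Finset.sum_le_sum fun x hx => ?_
        rw [Finset.mem_range] at hx
        split_ifs <;> omega
    _ = P * P := by simp

theorem vv_congr {P : ℕ} {w w' : ℕ → Bool} (h : ∀ x, x < P → w x = w' x) : vv P w = vv P w' := by
  unfold vv
  refine Finset.sum_congr rfl fun x hx => ?_
  rw [h x (Finset.mem_range.1 hx)]

theorem ones_congr {P : ℕ} {w w' : ℕ → Bool} (h : ∀ x, x < P → w x = w' x) :
    ones P w = ones P w' := by
  unfold ones
  refine Finset.sum_congr rfl fun x hx => ?_
  rw [h x (Finset.mem_range.1 hx)]

theorem ones_eq {P : ℕ} (w : ℕ → Bool) :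
    ones P w = ((Finset.range P).filter (fun x => w x = true)).card := by
  unfold ones
  rw [Finset.card_filter]

theorem eq_srt {N : ℕ} {w : ℕ → Bool} (h1 : ones (N + N) w = N)
    (h2 : ∀ x, x + 1 < N + N → w x = true → w (x + 1) = true) :
    ∀ x, x < N + N → w x = srt N x := by
  have mono : ∀ d x, x + d < N + N → w x = true → w (x + d) = true := by
    intro d
    induction d with
    | zero => intro x _ h; exact h
    | succ d ih =>
      intro x hx h
      exact h2 (x + d) (by omega) (ih x (by omega) h)
  rw [ones_eq] at h1
  intro x hx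
  unfold srt
  by_cases hxN : N ≤ x
  · rw [decide_eq_true hxN]
    by_contra hc
    have hc' : w x = false := by simpa using hc
    have h3 : (Finset.range (N + N)).filter (fun x => w x = true) ⊆ Finset.Ico (x + 1) (N + N) := by
      intro y hy
      rw [Finset.mem_filter, Finset.mem_range] at hy
      rw [Finset.mem_Ico]
      refine ⟨?_, hy.1⟩
      by_contra hlt
      have := mono (x - y) y (by omega) hy.2
      rw [show y + (x - y) = x by omega, hc'] at this
      exact absurd this (by simp)
    have h4 := Finset.card_le_card h3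
    rw [h1, Nat.card_Ico] at h4
    omega
  · rw [decide_eq_false hxN]
    by_contra hc
    have hc' : w x = true := by simpa using hc
    have h3 : Finset.Ico x (N + N) ⊆ (Finset.range (N + N)).filter (fun x => w x = true) := by
      intro y hy
      rw [Finset.mem_Ico] at hy
      rw [Finset.mem_filter, Finset.mem_range]
      refine ⟨hy.2, ?_⟩
      have := mono (y - x) x (by omega) hc'
      rwa [show x + (y - x) = y by omega] at this
    have h4 := Finset.card_le_card h3
    rw [h1, Nat.card_Ico] at h4
    omega

theorem sort_lemma {K : Type*} [CommRing K] {N : ℕ} (μ : K) {F : (ℕ → Bool) → K}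
    (hdep : Dep (N + N) F)
    (hF : ∀ p, p + 2 ≤ N + N → ∀ w, F (ins p true false w) = μ * F (ins p false true w)) :
    ∀ (n : ℕ) (w : ℕ → Bool), ones (N + N) w = N → (N + N) * (N + N) - vv (N + N) w ≤ n →
      vv (N + N) w ≤ vv (N + N) (srt N) ∧
      F w = μ ^ (vv (N + N) (srt N) - vv (N + N) w) * F (srt N) := by
  intro n
  induction n with
  | zero =>
    intro w hw hn
    by_cases hd : ∃ p, p + 2 ≤ N + N ∧ w p = true ∧ w (p + 1) = false
    · exfalso
      obtain ⟨p, hp, hp1, hp2⟩ := hd
      have e : w = ins p true false (del p w) := by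
        funext x
        rcases up_cases p x with rfl | rfl | ⟨y, rfl⟩
        · rw [ins_left, hp1]
        · rw [ins_right, hp2]
        · rw [ins_up]; rfl
      obtain ⟨P, hP⟩ : ∃ P, N + N = P + 2 := ⟨N + N - 2, by omega⟩
      have h1 := vv_ins (P := P) (p := p) (by omega) (del p w)
      rw [← e] at h1
      have h2 := vv_lt (P := P + 2) (ins p false true (del p w))
      rw [hP] at hn
      omega
    · push Not at hd
      have h1 := eq_srt hw (fun x hx h => by
        have := hd x (by omega) h
        simpa using this)
      rw [vv_congr h1, hdep w _ h1]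
      simp
  | succ n ih =>
    intro w hw hn
    by_cases hd : ∃ p, p + 2 ≤ N + N ∧ w p = true ∧ w (p + 1) = false
    · obtain ⟨p, hp, hp1, hp2⟩ := hd
      have e : w = ins p true false (del p w) := by
        funext x
        rcases up_cases p x with rfl | rfl | ⟨y, rfl⟩
        · rw [ins_left, hp1]
        · rw [ins_right, hp2]
        · rw [ins_up]; rfl
      obtain ⟨P, hP⟩ : ∃ P, N + N = P + 2 := ⟨N + N - 2, by omega⟩
      have h1 := vv_ins (P := P) (p := p) (by omega) (del p w)
      rw [← e] at h1
      have h2 := vv_lt (P := P + 2) (ins p false true (del p w))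
      have h3 : ones (P + 2) (ins p false true (del p w)) = ones (P + 2) w := by
        conv_rhs => rw [e]
        rw [ones_ins (by omega), ones_ins (by omega)]
        simp
      have h4 := ih (ins p false true (del p w)) (by rw [hP, h3, ← hP]; exact hw)
        (by rw [hP] at hn ⊢; omega)
      rw [hP] at h4 ⊢
      refine ⟨by omega, ?_⟩
      have h5 : F w = μ * F (ins p false true (del p w)) := by
        conv_lhs => rw [e]
        exact hF p (by omega) _
      rw [h5, h4.2]
      have h6 : vv (P + 2) (srt N) - vv (P + 2) w =
          vv (P + 2) (srt N) - vv (P + 2) (ins p false true (del p w)) + 1 := by omega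
      rw [h6, pow_succ]
      ring
    · push Not at hd
      have h1 := eq_srt hw (fun x hx h => by
        have := hd x (by omega) h
        simpa using this)
      rw [vv_congr h1, hdep w _ h1]
      simp

theorem hat_ones {K : Type*} [CommRing K] {m : K} {N : ℕ} {f : ℕ → ℕ} (hf : NCM (N + N) f)
    {w : ℕ → Bool} (h : hat m (N + N) f w ≠ 0) : ones (N + N) w = N := by
  have h1 := pair_sum hf (fun _ => 1)
  have h2 := pair_sum hf (fun x => if w x then 1 else 0)
  have h3 : ones (N + N) w + ones (N + N) w = N + N := by
    have h4 : N + N = ∑ x ∈ Finset.range (N + N), 1 := by simp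
    rw [h1] at h4
    unfold ones
    rw [h2, ← Finset.sum_add_distrib]
    conv_rhs => rw [h4]
    refine Finset.sum_congr rfl fun x hx => ?_
    by_cases hxf : x < f x
    · have h5 := hat_ne_zero h (Finset.mem_range.1 hx) hxf
      rw [if_pos hxf, if_pos hxf]
      revert h5
      cases w x <;> cases w (f x) <;> simp
    · rw [if_neg hxf, if_neg hxf]
  omega

/-! ### the functionals -/

/-- the word of a set of places in the first block -/
def wU (B : ℕ) (U : Finset ℕ) (x : ℕ) : Bool := decide (x ∈ U ∨ B ≤ x)

/-- the functional -/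
noncomputable def ell {K : Type*} [CommRing K] (μ : K) (B j : ℕ) (F : (ℕ → Bool) → K) : K :=
  ∑ U ∈ Finset.powersetCard j (Finset.range B), (-μ) ^ (∑ x ∈ U, x) * F (wU B U)

theorem ell_hat {K : Type*} [CommRing K] (μ : K) {N j : ℕ} (hj : 1 ≤ j) (hjN : j ≤ N) {f : ℕ → ℕ}
    (hf : NCM (N + N) f) : ell μ (N + j) j (hat μ (N + N) f) = 0 := by
  have hb : ∃ b, b + 2 ≤ N + j ∧ f b = b + 1 := by
    by_contra hc
    push Not at hc
    have h1 : ∀ x, 0 ≤ x → x < N + j → N + j ≤ f x ∧ f x < N + N := by
      intro x _ hx
      have := no_arc hf (lo := 0) (hi := N + j) (by omega) (fun p _ hp => hc p hp)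
        (Nat.zero_le x) hx
      have := hf.lt (x := x) (by omega)
      omega
    have := inj_card hf h1
    omega
  obtain ⟨b, hb1, hb2⟩ := hb
  obtain ⟨P, hP⟩ : ∃ P, N + N = P + 2 := ⟨N + N - 2, by omega⟩
  rw [hP] at hf ⊢
  have e0 := cupf_capf hf hb2
  have hg := capf_ncm hf (by omega : b ≤ P)
  have hhat : ∀ w, hat μ (P + 2) f w = cw μ (w b) (w (b + 1)) * hat μ P (capf b f) (del b w) := by
    intro w
    conv_lhs => rw [← e0]
    rw [hat_cup μ (by omega : b ≤ P)]
    rfl
  have hsw : ∀ x : ℕ, x ≠ b → x ≠ b + 1 → Equiv.swap b (b + 1) x = x := fun x h1 h2 =>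
    Equiv.swap_apply_of_ne_of_ne h1 h2
  unfold ell
  refine Finset.sum_involution (fun U _ => U.map (Equiv.swap b (b + 1)).toEmbedding) ?_ ?_ ?_ ?_
  · intro U hU
    have hmem : ∀ x, x ∈ U.map (Equiv.swap b (b + 1)).toEmbedding ↔
        Equiv.swap b (b + 1) x ∈ U := by
      intro x
      rw [Finset.mem_map_equiv, Equiv.symm_swap]
    have hdel : del b (wU (N + j) (U.map (Equiv.swap b (b + 1)).toEmbedding)) =
        del b (wU (N + j) U) := by
      funext x
      have h1 := up_ne b x
      unfold del wU
      apply decide_eq_decide.2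
      rw [hmem, hsw _ h1.1 h1.2]
    have w1 : wU (N + j) (U.map (Equiv.swap b (b + 1)).toEmbedding) b =
        wU (N + j) U (b + 1) := by
      unfold wU
      apply decide_eq_decide.2
      rw [hmem, Equiv.swap_apply_left]
      constructor
      · rintro (h | h)
        · exact Or.inl h
        · omega
      · rintro (h | h)
        · exact Or.inl h
        · omega
    have w2 : wU (N + j) (U.map (Equiv.swap b (b + 1)).toEmbedding) (b + 1) =
        wU (N + j) U b := by
      unfold wU
      apply decide_eq_decide.2
      rw [hmem, Equiv.swap_apply_right]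
      constructor
      · rintro (h | h)
        · exact Or.inl h
        · omega
      · rintro (h | h)
        · exact Or.inl h
        · omega
    have hs : ∑ x ∈ U.map (Equiv.swap b (b + 1)).toEmbedding, x =
        ∑ x ∈ U, Equiv.swap b (b + 1) x := by
      rw [Finset.sum_map]
      rfl
    rw [hhat, hhat, hdel, w1, w2, hs]
    have v1 : wU (N + j) U b = decide (b ∈ U) := by
      unfold wU
      apply decide_eq_decide.2
      constructor
      · rintro (h | h)
        · exact h
        · omega
      · exact Or.inl
    have v2 : wU (N + j) U (b + 1) = decide (b + 1 ∈ U) := by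
      unfold wU
      apply decide_eq_decide.2
      constructor
      · rintro (h | h)
        · exact h
        · omega
      · exact Or.inl
    rw [v1, v2]
    by_cases m1 : b ∈ U
    · by_cases m2 : b + 1 ∈ U
      · simp [m1, m2, cw]
      · -- sum increases by one
        have hs2 : ∑ x ∈ U, Equiv.swap b (b + 1) x = (∑ x ∈ U, x) + 1 := by
          rw [← Finset.add_sum_erase U (fun x => Equiv.swap b (b + 1) x) m1,
            ← Finset.add_sum_erase U (fun x => x) m1, Equiv.swap_apply_left]
          have : ∑ x ∈ U.erase b, Equiv.swap b (b + 1) x = ∑ x ∈ U.erase b, x := by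
            refine Finset.sum_congr rfl fun x hx => ?_
            rw [Finset.mem_erase] at hx
            exact hsw x hx.1 (fun h => m2 (h ▸ hx.2))
          rw [this]
          ring
        rw [hs2]
        simp only [m1, m2, decide_true, decide_false, cw]
        ring
    · by_cases m2 : b + 1 ∈ U
      · have hs2 : ∑ x ∈ U, x = (∑ x ∈ U, Equiv.swap b (b + 1) x) + 1 := by
          rw [← Finset.add_sum_erase U (fun x => Equiv.swap b (b + 1) x) m2,
            ← Finset.add_sum_erase U (fun x => x) m2, Equiv.swap_apply_right]
          have : ∑ x ∈ U.erase (b + 1), Equiv.swap b (b + 1) x = ∑ x ∈ U.erase (b + 1), x := by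
            refine Finset.sum_congr rfl fun x hx => ?_
            rw [Finset.mem_erase] at hx
            exact hsw x (fun h => m1 (h ▸ hx.2)) hx.1
          rw [this]
          ring
        rw [hs2]
        simp only [m1, m2, decide_true, decide_false, cw]
        ring
      · simp [m1, m2, cw]
  · intro U hU hne heq
    apply hne
    have heq' : U.map (Equiv.swap b (b + 1)).toEmbedding = U := heq
    have h1 : b ∈ U ↔ b + 1 ∈ U := by
      constructor
      · intro h
        rw [← heq', Finset.mem_map_equiv, Equiv.symm_swap, Equiv.swap_apply_right]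
        exact h
      · intro h
        rw [← heq', Finset.mem_map_equiv, Equiv.symm_swap, Equiv.swap_apply_left]
        exact h
    rw [hhat]
    have v1 : wU (N + j) U b = decide (b ∈ U) := by
      unfold wU
      apply decide_eq_decide.2
      constructor
      · rintro (h | h)
        · exact h
        · omega
      · exact Or.inl
    have v2 : wU (N + j) U (b + 1) = decide (b + 1 ∈ U) := by
      unfold wU
      apply decide_eq_decide.2
      constructor
      · rintro (h | h)
        · exact h
        · omega
      · exact Or.inl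
    rw [v1, v2]
    by_cases m1 : b ∈ U
    · simp [m1, h1.1 m1, cw]
    · have m2 : b + 1 ∉ U := fun h => m1 (h1.2 h)
      simp [m1, m2, cw]
  · intro U hU
    rw [Finset.mem_powersetCard] at hU ⊢
    refine ⟨?_, by rw [Finset.card_map]; exact hU.2⟩
    intro x hx
    rw [Finset.mem_map_equiv, Equiv.symm_swap] at hx
    have h1 := hU.1 hx
    rw [Finset.mem_range] at h1 ⊢
    by_cases e1 : x = b
    · omega
    · by_cases e2 : x = b + 1
      · omega
      · rwa [hsw x e1 e2] at h1
  · intro U hU
    ext x
    rw [Finset.mem_map_equiv, Finset.mem_map_equiv]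
    simp

end Pool.Agent.H47.TL
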