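import Pool.Agent.H47.TL.Gram

namespace Pool.Agent.H47.TL

/-! ### sign sums -/

/-- sign sum over the `j`-element subsets -/
def Sg (j B : ℕ) : ℤ := ∑ U ∈ Finset.powersetCard j (Finset.range B), (-1) ^ (∑ x ∈ U, x)

theorem Sg_zero (B : ℕ) : Sg 0 B = 1 := by simp [Sg]

theorem Sg_succ (j B : ℕ) : Sg (j + 1) (B + 1) = Sg (j + 1) B + (-1) ^ B * Sg j B := by
  unfold Sg
  have hB : B ∉ Finset.range B := by simp
  rw [Finset.range_add_one, Finset.powersetCard_succ_insert hB, Finset.sum_union]
  · congr 1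
    rw [Finset.sum_image, Finset.mul_sum]
    · refine Finset.sum_congr rfl fun U hU => ?_
      rw [Finset.mem_powersetCard] at hU
      rw [Finset.sum_insert (fun h => hB (hU.1 h)), pow_add]
    · intro U hU V hV hUV
      have hU' := (Finset.mem_powersetCard.1 hU).1
      have hV' := (Finset.mem_powersetCard.1 hV).1
      have h1 : (insert B U).erase B = U := Finset.erase_insert (fun h => hB (hU' h))
      have h2 : (insert B V).erase B = V := Finset.erase_insert (fun h => hB (hV' h))
      rw [← h1, ← h2]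
      exact congrArg (fun s => Finset.erase s B) hUV
  · rw [Finset.disjoint_left]
    intro U hU hU2
    obtain ⟨V, _, rfl⟩ := Finset.mem_image.1 hU2
    rw [Finset.mem_powersetCard] at hU
    exact hB (hU.1 (Finset.mem_insert_self B V))

theorem Sg_empty (j : ℕ) : Sg (j + 1) 0 = 0 := by
  unfold Sg
  rw [Finset.range_zero, Finset.powersetCard_eq_empty.2 (by simp), Finset.sum_empty]

theorem Sg_one (m : ℕ) : Sg 1 (2 * m) = 0 ∧ Sg 1 (2 * m + 1) = 1 := by
  induction m with
  | zero =>
    constructor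
    · exact Sg_empty 0
    · rw [Sg_succ 0, Sg_zero]
      rw [Nat.mul_zero, Sg_empty 0]
      norm_num
  | succ m ih =>
    have h1 : Sg 1 (2 * (m + 1)) = 0 := by
      rw [show 2 * (m + 1) = 2 * m + 1 + 1 by ring, Sg_succ 0, ih.2, Sg_zero]
      rw [pow_succ, pow_mul]; norm_num
    refine ⟨h1, ?_⟩
    rw [Sg_succ 0, h1, Sg_zero, pow_mul]
    norm_num

theorem Sg_two (m : ℕ) : Sg 2 (2 * m) = -m ∧ Sg 2 (2 * m + 1) = -m := by
  induction m with
  | zero =>
    constructor
    · rw [Nat.mul_zero, Sg_empty 1]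
      norm_num
    · rw [Sg_succ 1]
      rw [Nat.mul_zero, Sg_empty 0, Sg_empty 1]
      norm_num
  | succ m ih =>
    have h1 : Sg 2 (2 * (m + 1)) = -((m + 1 : ℕ) : ℤ) := by
      rw [show 2 * (m + 1) = 2 * m + 1 + 1 by ring, Sg_succ 1, ih.2, (Sg_one m).2]
      rw [pow_succ, pow_mul]; push_cast; ring
    refine ⟨h1, ?_⟩
    rw [Sg_succ 1, h1, (Sg_one (m + 1)).1, mul_zero, add_zero]

theorem filter_wU {N B : ℕ} (hB : B ≤ N + N) {U : Finset ℕ} (hU : U ⊆ Finset.range B) :
    (Finset.range (N + N)).filter (fun x => wU B U x = true) = U ∪ Finset.Ico B (N + N) := by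
  ext x
  rw [Finset.mem_filter, Finset.mem_union, Finset.mem_range, Finset.mem_Ico]
  unfold wU
  rw [decide_eq_true_eq]
  constructor
  · rintro ⟨h1, h2 | h2⟩
    · exact Or.inl h2
    · exact Or.inr ⟨h2, h1⟩
  · rintro (h | h)
    · have := hU h
      rw [Finset.mem_range] at this
      exact ⟨by omega, Or.inl h⟩
    · exact ⟨h.2, Or.inr h.1⟩

theorem disj_wU {N B : ℕ} {U : Finset ℕ} (hU : U ⊆ Finset.range B) :
    Disjoint U (Finset.Ico B (N + N)) := by
  rw [Finset.disjoint_left]
  intro x hx hx2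
  have := hU hx
  rw [Finset.mem_range] at this
  rw [Finset.mem_Ico] at hx2
  omega

theorem ones_wU {N j : ℕ} (hj : j ≤ N) {U : Finset ℕ}
    (hU : U ∈ Finset.powersetCard j (Finset.range (N + j))) :
    ones (N + N) (wU (N + j) U) = N := by
  rw [Finset.mem_powersetCard] at hU
  rw [ones_eq, filter_wU (by omega) hU.1, Finset.card_union_of_disjoint (disj_wU hU.1), hU.2,
    Nat.card_Ico]
  omega

theorem vv_wU {N j : ℕ} (hj : j ≤ N) {U : Finset ℕ}
    (hU : U ∈ Finset.powersetCard j (Finset.range (N + j))) :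
    vv (N + N) (wU (N + j) U) = ∑ x ∈ U, x + ∑ x ∈ Finset.Ico (N + j) (N + N), x := by
  rw [Finset.mem_powersetCard] at hU
  unfold vv
  rw [← Finset.sum_filter, filter_wU (by omega) hU.1, Finset.sum_union (disj_wU hU.1)]

theorem ell_eq {K : Type*} [CommRing K] {N j : ℕ} (hj : j ≤ N) (μ : K) {F : (ℕ → Bool) → K}
    (hF : ∀ w, ones (N + N) w = N → vv (N + N) w ≤ vv (N + N) (srt N) ∧
      F w = μ ^ (vv (N + N) (srt N) - vv (N + N) w) * F (srt N)) :
    ell μ (N + j) j F = ((Sg j (N + j) : ℤ) : K) *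
      (μ ^ (vv (N + N) (srt N) - ∑ x ∈ Finset.Ico (N + j) (N + N), x) * F (srt N)) := by
  unfold ell Sg
  rw [Int.cast_sum, Finset.sum_mul]
  refine Finset.sum_congr rfl fun U hU => ?_
  have h1 := hF _ (ones_wU hj hU)
  have h2 := vv_wU hj hU
  rw [h1.2, h2]
  have h3 := h1.1
  rw [h2] at h3
  have h4 : vv (N + N) (srt N) - ∑ x ∈ Finset.Ico (N + j) (N + N), x =
      ∑ x ∈ U, x + (vv (N + N) (srt N) - (∑ x ∈ U, x + ∑ x ∈ Finset.Ico (N + j) (N + N), x)) := by
    omega
  rw [h4, pow_add, neg_pow μ]
  push_cast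
  ring

theorem even_of_ncm {P : ℕ} {f : ℕ → ℕ} (hf : NCM P f) : ∃ N, P = N + N := by
  have h1 := pair_sum hf (fun _ => 1)
  have h2 : P = ∑ x ∈ Finset.range P, 1 := by simp
  have h3 : ∑ x ∈ Finset.range P, (if x < f x then 1 + 1 else 0) =
      (∑ x ∈ Finset.range P, if x < f x then 1 else 0) +
      (∑ x ∈ Finset.range P, if x < f x then 1 else 0) := by
    rw [← Finset.sum_add_distrib]
    refine Finset.sum_congr rfl fun x _ => ?_
    split_ifs <;> rfl
  exact ⟨∑ x ∈ Finset.range P, if x < f x then 1 else 0, by rw [← h3, ← h1]; exact h2⟩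

theorem kap_zero (f g : ℕ → ℕ) : kap 0 f g = 0 := rfl

theorem kap_two {f g : ℕ → ℕ} (hf : NCM 2 f) (hg : NCM 2 g) : kap 2 f g = 1 := by
  have h1 : f 0 = 0 + 1 := by
    have := hf.1 0 (by omega)
    omega
  have h2 : g 0 = 0 + 1 := by
    have := hg.1 0 (by omega)
    omega
  have h3 := capf_ncm (P := 0) (p := 0) hg le_rfl
  have h4 := kap_adj (P := 0) (p := 0) hf h3 le_rfl
  rw [cupf_capf hg h2, kap_zero] at h4
  rw [zero_add] at h4
  have : kap (0 + 2) f g = kap 2 f g := rfl
  rw [← this, ← h4]
  unfold capc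
  rw [if_pos h1]

theorem eq_of_ncm_two {f g : ℕ → ℕ} (hf : NCM 2 f) (hg : NCM 2 g) : f = g := by
  have h1 : ∀ {f : ℕ → ℕ}, NCM 2 f → f = idd 1 := by
    intro f hf
    apply eq_idd (L := 1) hf
    intro x hx
    have := hf.1 0 (by omega)
    have h0 : x = 0 := by omega
    subst h0
    omega
  rw [h1 hf, h1 hg]

/-- the form has no radical at `a = 0` -/
theorem rad_zero {K : Type*} [Field K] {μ : K} (hμ : μ * μ = -1) {n : ℕ}
    (hn : ∀ j : ℕ, 1 ≤ j → j ≤ n → (j : K) ≠ 0) : ∀ (P : ℕ), P ≤ 4 * n → ∀ v : Dg P → K,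
    (∀ g : Dg P, ∑ f : Dg P, v f * gram K 0 P f g = 0) → v = 0 := by
  intro P
  induction P using Nat.strong_induction_on with
  | _ P ih =>
    intro hP v hv
    rcases Nat.lt_or_ge P 2 with hP2 | hP2
    · funext g
      obtain ⟨N, hN⟩ := even_of_ncm g.2
      have hP0 : P = 0 := by omega
      subst hP0
      have h1 := hv g
      rw [Finset.sum_eq_single g] at h1
      · unfold gram at h1
        rw [kap_zero] at h1
        simpa using h1
      · intro f _ hf
        exact absurd (Subtype.ext ((zero_ncm f.2).trans (zero_ncm g.2).symm)) hf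
      · intro h
        exact absurd (Finset.mem_univ g) h
    obtain ⟨P', rfl⟩ : ∃ P', P = P' + 2 := ⟨P - 2, by omega⟩
    rcases Nat.eq_zero_or_pos P' with hP0 | hP0
    · subst hP0
      funext g
      have h1 := hv g
      rw [Finset.sum_eq_single g] at h1
      · have h2 : gram K 0 (0 + 2) g g = 1 := by
          unfold gram
          have h3 : kap (0 + 2) g.1 g.1 = 1 := kap_two g.2 g.2
          rw [h3]
          simp
        rw [h2, mul_one] at h1
        exact h1
      · intro f _ hf
        exact absurd (Subtype.ext (eq_of_ncm_two f.2 g.2)) hf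
      · intro h
        exact absurd (Finset.mem_univ g) h
    -- main case
    by_cases hne : Nonempty (Dg (P' + 2))
    swap
    · funext g
      exact absurd ⟨g⟩ hne
    obtain ⟨g0⟩ := hne
    obtain ⟨N, hN⟩ := even_of_ncm g0.2
    have hm : μ * (-μ) = 1 := by rw [mul_neg, hμ, neg_neg]
    have hμ0 : μ ≠ 0 := by
      rintro rfl
      simp at hμ
    -- the function of words
    let F : (ℕ → Bool) → K := fun w => ∑ f : Dg (P' + 2), v f * hat μ (P' + 2) f.1 w
    -- caps kill it
    have hcap : ∀ p, p ≤ P' → ∀ w, SC (-μ) p F w = 0 := by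
      intro p hp w
      let cD : Dg (P' + 2) → Dg P' := fun f => ⟨capf p f.1, capf_ncm f.2 hp⟩
      let u : Dg P' → K := fun h => ∑ f : Dg (P' + 2), if cD f = h then
        v f * (0 : K) ^ capc p f.1 else 0
      have hu : u = 0 := by
        apply ih P' (by omega) (by omega)
        intro g
        have h1 := hv ⟨cupf p g.1, cupf_ncm g.2 hp⟩
        refine Eq.trans ?_ h1
        calc ∑ h, u h * gram K 0 P' h g
            = ∑ h, ∑ f : Dg (P' + 2), (if cD f = h then
                v f * (0 : K) ^ capc p f.1 * gram K 0 P' h g else 0) := by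
              refine Finset.sum_congr rfl fun h _ => ?_
              rw [Finset.sum_mul]
              refine Finset.sum_congr rfl fun f _ => ?_
              rw [ite_mul, zero_mul]
          _ = ∑ f : Dg (P' + 2), v f * (0 : K) ^ capc p f.1 * gram K 0 P' (cD f) g := by
              rw [Finset.sum_comm]
              refine Finset.sum_congr rfl fun f _ => ?_
              rw [Finset.sum_ite_eq]
              simp
          _ = ∑ f : Dg (P' + 2), v f * gram K 0 (P' + 2) f ⟨cupf p g.1, cupf_ncm g.2 hp⟩ := by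
              refine Finset.sum_congr rfl fun f _ => ?_
              have h2 := kap_adj f.2 g.2 hp
              have h3 := kap_pos (cD f).2 g.2 (by omega)
              have h4 : capc p f.1 + (kap P' (cD f).1 g.1 - 1) =
                  kap (P' + 2) f.1 (cupf p g.1) - 1 := by
                have h5 : kap P' (cD f).1 g.1 + capc p f.1 = kap (P' + 2) f.1 (cupf p g.1) := h2
                omega
              unfold gram
              rw [mul_assoc, ← pow_add, h4]
      have h1 : SC (-μ) p F w = ∑ f : Dg (P' + 2), v f *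
          SC (-μ) p (hat μ (P' + 2) f.1) w := by
        simp only [SC, F]
        rw [Finset.mul_sum, ← Finset.sum_add_distrib]
        refine Finset.sum_congr rfl fun f _ => ?_
        ring
      rw [h1]
      have h2 : ∀ f : Dg (P' + 2), v f * SC (-μ) p (hat μ (P' + 2) f.1) w =
          v f * (0 : K) ^ capc p f.1 * hat μ P' (cD f).1 w := by
        intro f
        rw [hat_cap hm hp f.2 w, add_neg_cancel, mul_assoc]
      calc ∑ f : Dg (P' + 2), v f * SC (-μ) p (hat μ (P' + 2) f.1) w
          = ∑ f : Dg (P' + 2), v f * (0 : K) ^ capc p f.1 * hat μ P' (cD f).1 w :=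
            Finset.sum_congr rfl fun f _ => h2 f
        _ = ∑ h, ∑ f : Dg (P' + 2), (if cD f = h then
                v f * (0 : K) ^ capc p f.1 * hat μ P' h.1 w else 0) := by
              rw [Finset.sum_comm]
              refine Finset.sum_congr rfl fun f _ => ?_
              rw [Finset.sum_ite_eq]
              simp
        _ = ∑ h, u h * hat μ P' h.1 w := by
              refine Finset.sum_congr rfl fun h _ => ?_
              rw [Finset.sum_mul]
              refine Finset.sum_congr rfl fun f _ => ?_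
              rw [ite_mul, zero_mul]
        _ = 0 := by rw [hu]; simp
    have hsw : ∀ p, p + 2 ≤ N + N → ∀ w, F (ins p true false w) = μ * F (ins p false true w) := by
      intro p hp w
      have h1 := hcap p (by omega) w
      simp only [SC] at h1
      linear_combination h1
    have hdep : Dep (N + N) F := by
      intro w w' h
      simp only [F]
      refine Finset.sum_congr rfl fun f _ => ?_
      rw [hat_dep μ f.2 w w' (fun x hx => h x (by omega))]
    have hsort : ∀ w, ones (N + N) w = N → vv (N + N) w ≤ vv (N + N) (srt N) ∧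
        F w = μ ^ (vv (N + N) (srt N) - vv (N + N) w) * F (srt N) := fun w hw =>
      sort_lemma μ hdep hsw _ w hw le_rfl
    have hell : ∀ j, 1 ≤ j → j ≤ N → ell μ (N + j) j F = 0 := by
      intro j h1 h2
      have h3 : ell μ (N + j) j F = ∑ f : Dg (P' + 2), v f *
          ell μ (N + j) j (hat μ (P' + 2) f.1) := by
        unfold ell
        simp only [F, Finset.mul_sum]
        rw [Finset.sum_comm]
        refine Finset.sum_congr rfl fun f _ => Finset.sum_congr rfl fun U _ => ?_
        ring
      rw [h3]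
      refine Finset.sum_eq_zero fun f _ => ?_
      have h4 := ell_hat μ h1 h2 (f := f.1) (by rw [← hN]; exact f.2)
      rw [← hN] at h4
      rw [h4, mul_zero]
    have hFs : F (srt N) = 0 := by
      rcases Nat.even_or_odd' N with ⟨m, hm' | hm'⟩
      · have h1 := hell 1 le_rfl (by omega)
        rw [ell_eq (by omega) μ hsort, hm', (Sg_one m).2] at h1
        rw [← hm'] at h1
        simpa [hμ0] using h1
      · have h1 := hell 2 (by omega) (by omega)
        have h2 : N + 2 = 2 * (m + 1) + 1 := by omega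
        rw [ell_eq (by omega) μ hsort, h2, (Sg_two (m + 1)).2] at h1
        have h3 := hn (m + 1) (by omega) (by omega)
        have h4 : ((-((m + 1 : ℕ) : ℤ) : ℤ) : K) ≠ 0 := by
          push_cast
          push_cast at h3
          exact neg_ne_zero.2 h3
        rcases mul_eq_zero.1 h1 with h5 | h5
        · exact absurd h5 h4
        · rcases mul_eq_zero.1 h5 with h6 | h6
          · exact absurd h6 (pow_ne_zero _ hμ0)
          · exact h6
    have hF0 : ∀ w, F w = 0 := by
      intro w
      by_cases h1 : ones (N + N) w = N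
      · rw [(hsort w h1).2, hFs, mul_zero]
      · simp only [F]
        refine Finset.sum_eq_zero fun f _ => ?_
        have h2 : hat μ (P' + 2) f.1 w = 0 := by
          by_contra h3
          have h4 : hat μ (N + N) f.1 w ≠ 0 := by rw [← hN]; exact h3
          exact h1 (hat_ones (by rw [← hN]; exact f.2) h4)
        rw [h2, mul_zero]
    have hfin := hat_indep μ (P' + 2) (Finsupp.equivFunOnFinite.symm v) (by
      intro w
      rw [Finsupp.sum_fintype _ _ (fun f => by rw [zero_mul])]
      exact hF0 w)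
    have := congrArg Finsupp.equivFunOnFinite hfin
    rw [Equiv.apply_symm_apply] at this
    rw [this]
    rfl

/-- the determinant of the form does not vanish at `a = 0` -/
theorem gram_det_ne_zero {K : Type*} [Field K] {μ : K} (hμ : μ * μ = -1) {n : ℕ}
    (hn : ∀ j : ℕ, 1 ≤ j → j ≤ n → (j : K) ≠ 0) {P : ℕ} (hP : P ≤ 4 * n) :
    (gram K 0 P).det ≠ 0 := by
  intro h
  obtain ⟨v, hv0, hv⟩ := Matrix.exists_vecMul_eq_zero_iff.2 h
  apply hv0
  apply rad_zero hμ hn P hP v
  intro g
  have := congrFun hv g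
  exact this

/-- the form commutes with ring homomorphisms -/
theorem gram_map {R K : Type*} [CommRing R] [CommRing K] (φ : R →+* K) (a : R) (P : ℕ) :
    φ (gram R a P).det = (gram K (φ a) P).det := by
  rw [RingHom.map_det]
  congr 1
  ext f g
  simp only [RingHom.mapMatrix_apply, Matrix.map_apply, gram, map_pow]

/-- elements of `R` which become units modulo `a` -/
def Ua {R : Type*} [CommRing R] (a : R) : Submonoid R :=
  (IsUnit.submonoid (R ⧸ Ideal.span {a})).comap (Ideal.Quotient.mk (Ideal.span {a})).toMonoidHom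

theorem mem_Ua {R : Type*} [CommRing R] {a s : R} :
    s ∈ Ua a ↔ IsUnit (Ideal.Quotient.mk (Ideal.span {a}) s) := Iff.rfl

theorem gram_det_mem {R : Type*} [CommRing R] {a : R} {n : ℕ}
    (hn : IsUnit (Ideal.Quotient.mk (Ideal.span {a}) (n.factorial : R))) {P : ℕ}
    (hP : P ≤ 4 * n) : (gram R a P).det ∈ Ua a := by
  rw [mem_Ua]
  by_contra hc
  obtain ⟨M, hM, hmem⟩ := exists_max_ideal_of_mem_nonunits hc
  let _ : Field ((R ⧸ Ideal.span {a}) ⧸ M) := Ideal.Quotient.field M
  let φ : R →+* AlgebraicClosure ((R ⧸ Ideal.span {a}) ⧸ M) :=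
    ((algebraMap ((R ⧸ Ideal.span {a}) ⧸ M) (AlgebraicClosure ((R ⧸ Ideal.span {a}) ⧸ M))).comp
      (Ideal.Quotient.mk M)).comp (Ideal.Quotient.mk (Ideal.span {a}))
  have ha : φ a = 0 := by
    have h1 : Ideal.Quotient.mk (Ideal.span {a}) a = 0 :=
      Ideal.Quotient.eq_zero_iff_mem.2 (Ideal.mem_span_singleton_self a)
    simp only [φ, RingHom.comp_apply, h1, map_zero]
  have hfac : IsUnit (φ (n.factorial : R)) := by
    simp only [φ, RingHom.comp_apply]
    exact (hn.map (Ideal.Quotient.mk M)).map _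
  obtain ⟨μ, hμ⟩ : ∃ μ : AlgebraicClosure ((R ⧸ Ideal.span {a}) ⧸ M), μ * μ = -1 := by
    obtain ⟨z, hz⟩ := IsAlgClosed.exists_pow_nat_eq
      (-1 : AlgebraicClosure ((R ⧸ Ideal.span {a}) ⧸ M)) (n := 2) (by norm_num)
    exact ⟨z, by rw [← hz, sq]⟩
  have hj : ∀ j : ℕ, 1 ≤ j → j ≤ n →
      (j : AlgebraicClosure ((R ⧸ Ideal.span {a}) ⧸ M)) ≠ 0 := by
    intro j h1 h2 h3
    have h4 : j ∣ n.factorial := Nat.dvd_factorial (by omega) h2
    obtain ⟨c, hc⟩ := h4
    rw [hc] at hfac
    rw [map_natCast] at hfac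
    push_cast at hfac
    rw [h3, zero_mul] at hfac
    exact not_isUnit_zero hfac
  have h1 := gram_map φ a P
  rw [ha] at h1
  have h2 : φ (gram R a P).det = 0 := by
    have h3 : Ideal.Quotient.mk M (Ideal.Quotient.mk (Ideal.span {a}) (gram R a P).det) = 0 :=
      Ideal.Quotient.eq_zero_iff_mem.2 hmem
    simp only [φ, RingHom.comp_apply, h3, map_zero]
  rw [h2] at h1
  exact gram_det_ne_zero hμ hj hP h1.symm

end Pool.Agent.H47.TL
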