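import Pool.Agent.H47.TL.Defs

namespace Pool.Agent.H47.TL

/-- insert two new points `p`, `p+1` joined by an arc -/
def cupf (p : ℕ) (g : ℕ → ℕ) (x : ℕ) : ℕ :=
  if x = p then p + 1 else if x = p + 1 then p else up p (g (dn p x))

/-- mirror image -/
def refl (P : ℕ) (f : ℕ → ℕ) (x : ℕ) : ℕ := if x < P then P - 1 - f (P - 1 - x) else x

theorem glue_zero (l : ℕ) (f : ℕ → ℕ) : glue l 0 f = (0, f) := rfl

theorem glue_succ (l m : ℕ) (f : ℕ → ℕ) : glue l (m + 1) f =
    (capc (l + m) f + (glue l m (capf (l + m) f)).1, (glue l m (capf (l + m) f)).2) := rfl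

theorem NCM.lt {P : ℕ} {f : ℕ → ℕ} (h : NCM P f) {x : ℕ} (hx : x < P) : f x < P := (h.1 x hx).1
theorem NCM.ne {P : ℕ} {f : ℕ → ℕ} (h : NCM P f) {x : ℕ} (hx : x < P) : f x ≠ x := (h.1 x hx).2
theorem NCM.out {P : ℕ} {f : ℕ → ℕ} (h : NCM P f) {x : ℕ} (hx : P ≤ x) : f x = x := h.2.1 x hx
theorem NCM.inv {P : ℕ} {f : ℕ → ℕ} (h : NCM P f) (x : ℕ) : f (f x) = x := h.2.2.1 x
theorem NCM.nc {P : ℕ} {f : ℕ → ℕ} (h : NCM P f) {x y : ℕ} (h1 : x < y) (h2 : y < f x) :
    f y < f x := h.2.2.2 x y h1 h2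

theorem NCM.lt_iff {P : ℕ} {f : ℕ → ℕ} (h : NCM P f) (x : ℕ) : f x < P ↔ x < P := by
  constructor
  · intro hx
    by_contra hc
    rw [h.out (by omega)] at hx
    exact hc hx
  · exact h.lt

theorem NCM.inj {P : ℕ} {f : ℕ → ℕ} (h : NCM P f) {x y : ℕ} (hxy : f x = f y) : x = y := by
  have := congrArg f hxy
  rwa [h.inv, h.inv] at this

/-- the other end is also inside: if `x < y < f x` then `x < f y < f x` -/
theorem NCM.nc' {P : ℕ} {f : ℕ → ℕ} (h : NCM P f) {x y : ℕ} (h1 : x < y) (h2 : y < f x) :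
    x < f y := by
  by_contra hc
  have h3 : f y ≠ x := by
    intro h4
    have h5 := h.inv y
    rw [h4] at h5
    omega
  have h6 : f y < x := by omega
  have h7 := h.nc (x := f y) (y := x) h6 (by rw [h.inv]; exact h1)
  rw [h.inv] at h7
  omega

theorem up_dn {p x : ℕ} (h1 : x ≠ p) (h2 : x ≠ p + 1) : up p (dn p x) = x := by
  unfold up dn; split_ifs <;> omega

theorem dn_up (p x : ℕ) : dn p (up p x) = x := by
  unfold up dn; split_ifs <;> omega

theorem up_ne (p x : ℕ) : up p x ≠ p ∧ up p x ≠ p + 1 := by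
  unfold up; split_ifs <;> omega

theorem up_lt {p x P : ℕ} (hp : p ≤ P) : up p x < P + 2 ↔ x < P := by
  unfold up; split_ifs <;> omega

theorem up_lt_up {p x y : ℕ} : up p x < up p y ↔ x < y := by
  unfold up; split_ifs <;> omega

/-- rerouted partner -/
def rr (p : ℕ) (f : ℕ → ℕ) (x : ℕ) : ℕ :=
  if f x = p then f (p + 1) else if f x = p + 1 then f p else f x

theorem capf_eq (p : ℕ) (f : ℕ → ℕ) (x : ℕ) : capf p f x = dn p (rr p f (up p x)) := rfl

theorem rr_ne {P p : ℕ} {f : ℕ → ℕ} (h : NCM (P + 2) f) (hp : p ≤ P) {x : ℕ} (h1 : x ≠ p)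
    (h2 : x ≠ p + 1) : rr p f x ≠ p ∧ rr p f x ≠ p + 1 := by
  unfold rr
  have e0 := h.inv x
  have e1 := h.inv p
  have e2 := h.inv (p + 1)
  have n1 := h.ne (x := p) (by omega)
  have n2 := h.ne (x := p + 1) (by omega)
  split_ifs with h3 h4
  · refine ⟨fun h5 => ?_, n2⟩
    rw [h3] at e0; rw [h5] at e2
    omega
  · refine ⟨n1, fun h5 => ?_⟩
    rw [h4] at e0; rw [h5] at e1
    omega
  · exact ⟨h3, h4⟩

theorem rr_rr {P p : ℕ} {f : ℕ → ℕ} (h : NCM (P + 2) f) (hp : p ≤ P) {x : ℕ} (h1 : x ≠ p)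
    (h2 : x ≠ p + 1) : rr p f (rr p f x) = x := by
  have e0 := h.inv x
  have e1 := h.inv p
  have e2 := h.inv (p + 1)
  have n1 := h.ne (x := p) (by omega)
  have n2 := h.ne (x := p + 1) (by omega)
  unfold rr
  by_cases h3 : f x = p
  · rw [if_pos h3, e2, if_neg (by omega), if_pos rfl]
    rw [← h3, e0]
  · rw [if_neg h3]
    by_cases h4 : f x = p + 1
    · rw [if_pos h4, e1, if_pos rfl, ← h4, e0]
    · rw [if_neg h4, e0, if_neg h1, if_neg h2]

theorem rr_lt {P p : ℕ} {f : ℕ → ℕ} (h : NCM (P + 2) f) (hp : p ≤ P) {x : ℕ} (hx : x < P + 2) :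
    rr p f x < P + 2 := by
  unfold rr
  split_ifs
  · exact h.lt (by omega)
  · exact h.lt (by omega)
  · exact h.lt hx

theorem rr_self {P p : ℕ} {f : ℕ → ℕ} (h : NCM (P + 2) f) {x : ℕ} (hx : x < P + 2) :
    rr p f x ≠ x := by
  unfold rr
  have e0 := h.inv x
  have e1 := h.inv p
  have e2 := h.inv (p + 1)
  split_ifs with h3 h4
  · intro h5
    rw [h5] at e2; rw [h3] at e2; omega
  · intro h5
    rw [h5] at e1; rw [h4] at e1; omega
  · exact h.ne hx

theorem rr_out {P p : ℕ} {f : ℕ → ℕ} (h : NCM (P + 2) f) (hp : p ≤ P) {x : ℕ} (hx : P + 2 ≤ x) :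
    rr p f x = x := by
  unfold rr
  rw [h.out hx, if_neg (by omega), if_neg (by omega)]

theorem rr_nc {P p : ℕ} {f : ℕ → ℕ} (h : NCM (P + 2) f) (hp : p ≤ P) {x y : ℕ} (h1 : x ≠ p)
    (h2 : x ≠ p + 1) (h3 : y ≠ p) (h4 : y ≠ p + 1) (hxy : x < y) (hy : y < rr p f x) :
    rr p f y < rr p f x := by
  have e0 := h.inv x
  have e1 := h.inv p
  have e2 := h.inv (p + 1)
  have e3 := h.inv y
  have n1 := h.ne (x := p) (by omega)
  have n2 := h.ne (x := p + 1) (by omega)
  have key : ∀ u v : ℕ, u < v → v < f u → f v < f u := fun u v => h.nc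
  have key' : ∀ u v : ℕ, u < v → v < f u → u < f v := fun u v => h.nc'
  have a01 := key x y
  unfold rr at hy ⊢
  by_cases a1 : f x = p
  · have fp : f p = x := by rw [← a1]; exact e0
    rw [if_pos a1] at hy ⊢
    have b1 : f y ≠ p := by intro hh; have := h.inj (hh.trans a1.symm); omega
    rw [if_neg b1]
    have m1 : f y ≠ f (p + 1) := by intro hh; have := h.inj hh; omega
    by_cases b2 : f y = p + 1
    · rw [if_pos b2]
      have : f (p + 1) = y := by rw [← b2]; exact e3
      omega
    · rw [if_neg b2]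
      have a02 := key' x y
      have a21 := key x (f (p + 1))
      have a11 := key (p + 1) y
      have a07 := key p (p + 1)
      rw [a1] at a01 a02 a21
      rw [e2] at a21
      rw [fp] at a07
      omega
  · rw [if_neg a1] at hy ⊢
    by_cases a2 : f x = p + 1
    · have fp : f (p + 1) = x := by rw [← a2]; exact e0
      rw [if_pos a2] at hy ⊢
      have b2 : f y ≠ p + 1 := by intro hh; have := h.inj (hh.trans a2.symm); omega
      have m1 : f y ≠ f p := by intro hh; have := h.inj hh; omega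
      by_cases b1 : f y = p
      · rw [if_pos b1]
        have : f p = y := by rw [← b1]; exact e3
        omega
      · rw [if_neg b1, if_neg b2]
        have a03 := key x p
        have a04 := key' x p
        have a18 := key' (f p) (f y)
        have a09 := key p y
        rw [a2] at a01 a03 a04
        rw [e1, e3] at a18
        omega
    · rw [if_neg a2] at hy ⊢
      by_cases b1 : f y = p
      · rw [if_pos b1]
        have a02 := key' x y
        have a05 := key x (p + 1)
        rw [b1] at a01 a02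
        omega
      · rw [if_neg b1]
        by_cases b2 : f y = p + 1
        · rw [if_pos b2]
          have a02 := key' x y
          have a03 := key x p
          rw [b2] at a01 a02
          omega
        · rw [if_neg b2]
          exact key x y hxy hy

theorem capf_ncm {P p : ℕ} {f : ℕ → ℕ} (h : NCM (P + 2) f) (hp : p ≤ P) : NCM P (capf p f) := by
  have hup : ∀ x, up p (capf p f x) = rr p f (up p x) := by
    intro x
    rw [capf_eq]
    have := rr_ne h hp (up_ne p x).1 (up_ne p x).2
    exact up_dn this.1 this.2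
  refine ⟨fun x hx => ⟨?_, ?_⟩, fun x hx => ?_, fun x => ?_, fun x y hxy hy => ?_⟩
  · rw [← up_lt hp, hup]
    exact rr_lt h hp ((up_lt hp).2 hx)
  · intro hh
    have := hup x
    rw [hh] at this
    exact rr_self h ((up_lt hp).2 hx) this.symm
  · rw [capf_eq, rr_out h hp, dn_up]
    unfold up; split_ifs <;> omega
  · have := hup (capf p f x)
    rw [hup x, rr_rr h hp (up_ne p x).1 (up_ne p x).2] at this
    have h2 := congrArg (dn p) this
    rwa [dn_up, dn_up] at h2
  · rw [← up_lt_up (p := p), hup, hup]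
    refine rr_nc h hp (up_ne p x).1 (up_ne p x).2 (up_ne p y).1 (up_ne p y).2
      (up_lt_up.2 hxy) ?_
    rw [← hup, up_lt_up]
    exact hy

theorem cupf_up (p : ℕ) (g : ℕ → ℕ) (x : ℕ) : cupf p g (up p x) = up p (g x) := by
  unfold cupf
  rw [if_neg (up_ne p x).1, if_neg (up_ne p x).2, dn_up]

theorem cupf_left (p : ℕ) (g : ℕ → ℕ) : cupf p g p = p + 1 := by simp [cupf]

theorem cupf_right (p : ℕ) (g : ℕ → ℕ) : cupf p g (p + 1) = p := by simp [cupf]

theorem up_inj {p x y : ℕ} (h : up p x = up p y) : x = y := by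
  have := congrArg (dn p) h
  rwa [dn_up, dn_up] at this

/-- every number is `p`, `p+1` or `up p y` -/
theorem up_cases (p x : ℕ) : x = p ∨ x = p + 1 ∨ ∃ y, x = up p y := by
  by_cases h1 : x = p
  · exact Or.inl h1
  · by_cases h2 : x = p + 1
    · exact Or.inr (Or.inl h2)
    · exact Or.inr (Or.inr ⟨dn p x, (up_dn h1 h2).symm⟩)

theorem cupf_ncm {P p : ℕ} {g : ℕ → ℕ} (h : NCM P g) (hp : p ≤ P) : NCM (P + 2) (cupf p g) := by
  refine ⟨fun x hx => ?_, fun x hx => ?_, fun x => ?_, fun x y hxy hy => ?_⟩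
  · rcases up_cases p x with rfl | rfl | ⟨z, rfl⟩
    · rw [cupf_left]; omega
    · rw [cupf_right]; omega
    · rw [cupf_up, up_lt hp]
      have hz := (up_lt hp).1 hx
      exact ⟨h.lt hz, fun hh => h.ne hz (up_inj hh)⟩
  · rcases up_cases p x with rfl | rfl | ⟨z, rfl⟩
    · omega
    · omega
    · rw [cupf_up, h.out]
      by_contra hc
      have := (up_lt hp (x := z)).2 (by omega)
      omega
  · rcases up_cases p x with rfl | rfl | ⟨z, rfl⟩
    · rw [cupf_left, cupf_right]
    · rw [cupf_right, cupf_left]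
    · rw [cupf_up, cupf_up, h.inv]
  · rcases up_cases p x with rfl | rfl | ⟨z, rfl⟩
    · rw [cupf_left] at hy; omega
    · rw [cupf_right] at hy; omega
    · rw [cupf_up] at hy ⊢
      rcases up_cases p y with rfl | rfl | ⟨t, rfl⟩
      · rw [cupf_left]
        have := (up_ne y (g z)).2
        omega
      · rw [cupf_right]; omega
      · rw [cupf_up, up_lt_up]
        exact h.nc (up_lt_up.1 hxy) (up_lt_up.1 hy)

theorem capf_cupf (p : ℕ) (g : ℕ → ℕ) : capf p (cupf p g) = g := by
  funext x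
  unfold capf
  rw [cupf_up, if_neg (up_ne p _).1, if_neg (up_ne p _).2, dn_up]

theorem capc_cupf (p : ℕ) (g : ℕ → ℕ) : capc p (cupf p g) = 1 := by
  unfold capc
  rw [cupf_left, if_pos rfl]

/-- if `p, p+1` are joined, then `f` is obtained by inserting the arc -/
theorem cupf_capf {P p : ℕ} {f : ℕ → ℕ} (h : NCM P f) (hp : f p = p + 1) :
    cupf p (capf p f) = f := by
  have hp' : f (p + 1) = p := by rw [← hp, h.inv]
  funext x
  rcases up_cases p x with rfl | rfl | ⟨z, rfl⟩
  · rw [cupf_left, hp]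
  · rw [cupf_right, hp']
  · have n1 : f (up p z) ≠ p := by
      intro hh
      have := h.inv (up p z)
      rw [hh, hp] at this
      exact (up_ne p z).2 this.symm
    have n2 : f (up p z) ≠ p + 1 := by
      intro hh
      have := h.inv (up p z)
      rw [hh, hp'] at this
      exact (up_ne p z).1 this.symm
    rw [cupf_up, capf_eq]
    unfold rr
    rw [if_neg n1, if_neg n2, up_dn n1 n2]

theorem juxt_ncm {P Q : ℕ} {f g : ℕ → ℕ} (hf : NCM P f) (hg : NCM Q g) :
    NCM (P + Q) (juxt P f g) := by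
  have hlt : ∀ x, x < P → juxt P f g x = f x := fun x hx => by unfold juxt; rw [if_pos hx]
  have hge : ∀ x, P ≤ x → juxt P f g x = P + g (x - P) := fun x hx => by
    unfold juxt; rw [if_neg (by omega)]
  refine ⟨fun x hx => ?_, fun x hx => ?_, fun x => ?_, fun x y hxy hy => ?_⟩
  · by_cases h1 : x < P
    · rw [hlt x h1]
      have := hf.1 x h1
      exact ⟨by omega, this.2⟩
    · rw [hge x (by omega)]
      have := hg.1 (x - P) (by omega)
      omega
  · rw [hge x (by omega), hg.out (by omega)]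
    omega
  · by_cases h1 : x < P
    · rw [hlt x h1, hlt _ (hf.lt h1), hf.inv]
    · rw [hge x (by omega), hge _ (by omega)]
      rw [show P + g (x - P) - P = g (x - P) by omega, hg.inv]
      omega
  · by_cases h1 : x < P
    · rw [hlt x h1] at hy ⊢
      have := hf.lt h1
      rw [hlt y (by omega)]
      exact hf.nc hxy hy
    · rw [hge x (by omega)] at hy ⊢
      rw [hge y (by omega)]
      have := hg.nc (x := x - P) (y := y - P) (by omega) (by omega)
      omega

theorem refl_ncm {P : ℕ} {f : ℕ → ℕ} (hf : NCM P f) : NCM P (refl P f) := by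
  have hlt : ∀ x, x < P → refl P f x = P - 1 - f (P - 1 - x) := fun x hx => by
    unfold refl; rw [if_pos hx]
  have hge : ∀ x, P ≤ x → refl P f x = x := fun x hx => by
    unfold refl; rw [if_neg (by omega)]
  refine ⟨fun x hx => ?_, fun x hx => hge x hx, fun x => ?_, fun x y hxy hy => ?_⟩
  · rw [hlt x hx]
    have := hf.1 (P - 1 - x) (by omega)
    omega
  · by_cases h1 : x < P
    · have h2 := hf.lt (x := P - 1 - x) (by omega)
      rw [hlt x h1, hlt _ (by omega)]
      rw [show P - 1 - (P - 1 - f (P - 1 - x)) = f (P - 1 - x) by omega, hf.inv]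
      omega
    · rw [hge x (by omega), hge x (by omega)]
  · by_cases h1 : x < P
    · have h2 := hf.lt (x := P - 1 - x) (by omega)
      rw [hlt x h1] at hy ⊢
      rw [hlt y (by omega)]
      have h3 := hf.nc' (x := f (P - 1 - x)) (y := P - 1 - y) (by omega)
        (by rw [hf.inv]; omega)
      have h4 := hf.lt (x := P - 1 - y) (by omega)
      omega
    · rw [hge x (by omega)] at hy
      omega

theorem refl_refl {P : ℕ} {f : ℕ → ℕ} (hf : NCM P f) : refl P (refl P f) = f := by
  funext x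
  unfold refl
  by_cases h1 : x < P
  · rw [if_pos h1, if_pos (by omega)]
    have h2 := hf.lt (x := x) h1
    rw [show P - 1 - (P - 1 - x) = x by omega]
    omega
  · rw [if_neg h1, hf.out (by omega)]

theorem glue_ncm (l m : ℕ) : ∀ (k : ℕ) (f : ℕ → ℕ), NCM (l + m + m + k) f →
    NCM (l + k) (glue l m f).2 := by
  induction m with
  | zero => intro k f h; exact h
  | succ m ih =>
    intro k f h
    exact ih k _ (capf_ncm (P := l + m + m + k) (p := l + m)
      (by convert h using 1; omega) (by omega))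

/-- an arc of `f` in a region untouched by joining `p, p+1` (to the left) -/
theorem capf_lt {p : ℕ} {f : ℕ → ℕ} {x : ℕ} (hx : x < p) (hfx : f x < p) : capf p f x = f x := by
  rw [capf_eq]
  have h1 : up p x = x := by unfold up; rw [if_pos hx]
  rw [h1]
  unfold rr
  rw [if_neg (by omega), if_neg (by omega)]
  unfold dn
  rw [if_pos hfx]

end Pool.Agent.H47.TL
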