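import Pool.Agent.H47.TL.TrivMod

namespace Pool.Agent.H47.TL

universe u

section
variable {R : Type u} [CommRing R] {a : R} {L k : ℕ}

/-! ### the involution -/

/-- mirror image of a diagram -/
def reflD (f : Dg (L + L)) : Dg (L + L) := ⟨refl (L + L) f.1, refl_ncm f.2⟩

/-- the anti-involution -/
noncomputable def st (R : Type u) [CommRing R] (a : R) (L : ℕ) : TLA R a L →ₗ[R] TLA R a L :=
  lft (fun f => bs a (reflD f))

theorem st_bs (f : Dg (L + L)) : st R a L (bs a f) = bs a (reflD f) := lft_bs _ f

theorem st_mul (x y : TLA R a L) : st R a L (x * y) = st R a L y * st R a L x := by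
  induction x using TLM.induction with
  | h0 => rw [zero_mul, map_zero, mul_zero]
  | hadd x y hx hy => rw [add_mul, map_add, map_add, hx, hy, mul_add]
  | hs c f =>
    induction y using TLM.induction with
    | h0 => rw [mul_zero, map_zero, zero_mul]
    | hadd x y hx hy => rw [mul_add, map_add, map_add, hx, hy, add_mul]
    | hs d g =>
      rw [smul_mul_assoc, mul_smul_comm, bs_mul_bs]
      simp only [map_smul, st_bs, smul_mul_assoc, mul_smul_comm]
      have h := refl_cmp f.2 g.2
      have h1 : mulD (reflD g) (reflD f) = reflD (mulD f g) := Subtype.ext (congrArg Prod.snd h)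
      have h2 : loops (reflD g) (reflD f) = loops f g := by
        have h3 := congrArg Prod.fst h
        exact h3
      rw [bs_mul_bs, h1, h2, smul_comm c d]

theorem st_one : st R a L 1 = 1 := by
  rw [TLA.one_def, st_bs]
  congr 1
  exact Subtype.ext (refl_idd L)

theorem st_st (x : TLA R a L) : st R a L (st R a L x) = x := by
  induction x using TLM.induction with
  | h0 => rw [map_zero, map_zero]
  | hadd x y hx hy => rw [map_add, map_add, hx, hy]
  | hs c f =>
    rw [map_smul, map_smul, st_bs, st_bs]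
    congr 2
    exact Subtype.ext (refl_refl f.2)

theorem eps_st (x : TLA R a L) : eps R a L (st R a L x) = eps R a L x := by
  induction x using TLM.induction with
  | h0 => rw [map_zero]
  | hadd x y hx hy => rw [map_add, map_add, map_add, hx, hy]
  | hs c f =>
    rw [map_smul, map_smul, map_smul, st_bs, eps_bs, eps_bs]
    congr 1
    have : reflD f = one' L ↔ f = one' L := by
      constructor
      · intro h
        have h1 := congrArg reflD h
        have h2 : reflD (reflD f) = f := Subtype.ext (refl_refl f.2)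
        rw [h2] at h1
        rw [h1]
        exact Subtype.ext (refl_idd L)
      · rintro rfl
        exact Subtype.ext (refl_idd L)
    simp only [this]

/-! ### right operators -/

/-- join two neighbouring right nodes -/
def capD (p : ℕ) (hp : p ≤ k) (g : Dg (L + (k + 2))) : Dg (L + k) :=
  ⟨capf (L + p) g.1, capf_ncm (P := L + k) (g.2.cast (by ring)) (by omega)⟩

/-- insert an arc joining two neighbouring right nodes -/
def cupD (p : ℕ) (hp : p ≤ k) (g : Dg (L + k)) : Dg (L + (k + 2)) :=
  ⟨cupf (L + p) g.1, (cupf_ncm g.2 (by omega : L + p ≤ L + k)).cast (by ring)⟩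

noncomputable def rcap₀ (a : R) (L k p : ℕ) (hp : p ≤ k) : TLM R a L (k + 2) →ₗ[R] TLM R a L k :=
  lft (fun g => a ^ capc (L + p) g.1 • bs a (capD p hp g))

noncomputable def rcup₀ (a : R) (L k p : ℕ) (hp : p ≤ k) : TLM R a L k →ₗ[R] TLM R a L (k + 2) :=
  lft (fun g => bs a (cupD p hp g))

/-- `R`-linear maps which commute with the diagrams are linear over the algebra -/
theorem map_smul_of_bs {k k' : ℕ} (φ : TLM R a L k →ₗ[R] TLM R a L k')
    (h : ∀ (f : Dg (L + L)) (g : Dg (L + k)), φ (bs a f • bs a g) = bs a f • φ (bs a g))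
    (x : TLA R a L) (m : TLM R a L k) : φ (x • m) = x • φ m := by
  induction x using TLM.induction with
  | h0 => rw [zero_smul, zero_smul, map_zero]
  | hadd x y hx hy => rw [add_smul, add_smul, map_add, hx, hy]
  | hs c f =>
    induction m using TLM.induction with
    | h0 => rw [smul_zero, map_zero, smul_zero]
    | hadd x y hx hy => rw [smul_add, map_add, map_add, smul_add, hx, hy]
    | hs d g =>
      rw [smul_assoc, smul_comm (bs a f) d (bs a g), φ.map_smul, φ.map_smul, φ.map_smul, h,
        smul_assoc, smul_comm (bs a f) d (φ (bs a g))]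

/-- joining two neighbouring right nodes, as a module homomorphism -/
noncomputable def rcap (a : R) (L k p : ℕ) (hp : p ≤ k) :
    TLM R a L (k + 2) →ₗ[TLA R a L] TLM R a L k :=
  { toFun := rcap₀ a L k p hp
    map_add' := map_add _
    map_smul' := by
      intro x m
      refine map_smul_of_bs _ (fun f g => ?_) x m
      have h := cmp_cap f.2 g.2 hp
      have h1 : mulD f (capD p hp g) = capD p hp (mulD f g) := Subtype.ext h.2
      have h2 : capc (L + p) g.1 + loops f (capD p hp g) =
        loops f g + capc (L + p) (mulD f g).1 := h.1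
      rw [bs_smul_bs, map_smul]
      unfold rcap₀
      rw [lft_bs, lft_bs, smul_comm (bs a f), bs_smul_bs, smul_smul, smul_smul, ← pow_add,
        ← pow_add, h1, h2] }

/-- inserting an arc joining two neighbouring right nodes, as a module homomorphism -/
noncomputable def rcup (a : R) (L k p : ℕ) (hp : p ≤ k) :
    TLM R a L k →ₗ[TLA R a L] TLM R a L (k + 2) :=
  { toFun := rcup₀ a L k p hp
    map_add' := map_add _
    map_smul' := by
      intro x m
      refine map_smul_of_bs _ (fun f g => ?_) x m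
      have h := cmp_cup f.2 g.2 hp
      have h1 : mulD f (cupD p hp g) = cupD p hp (mulD f g) := Subtype.ext h.2
      have h2 : loops f (cupD p hp g) = loops f g := h.1
      rw [bs_smul_bs, map_smul]
      unfold rcup₀
      rw [lft_bs, lft_bs, bs_smul_bs, h1, h2] }

theorem rcap_bs (p : ℕ) (hp : p ≤ k) (g : Dg (L + (k + 2))) :
    rcap a L k p hp (bs a g) = a ^ capc (L + p) g.1 • bs a (capD p hp g) := lft_bs _ g

theorem rcup_bs (p : ℕ) (hp : p ≤ k) (g : Dg (L + k)) :
    rcup a L k p hp (bs a g) = bs a (cupD p hp g) := lft_bs _ g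

theorem rcap_smulR (p : ℕ) (hp : p ≤ k) (r : R) (x : TLM R a L (k + 2)) :
    rcap a L k p hp (r • x) = r • rcap a L k p hp x := map_smul (rcap₀ a L k p hp) r x

theorem rcup_smulR (p : ℕ) (hp : p ≤ k) (r : R) (x : TLM R a L k) :
    rcup a L k p hp (r • x) = r • rcup a L k p hp x := map_smul (rcup₀ a L k p hp) r x

/-- zigzag: the module with `k ≥ 1` right nodes is a retract of the one with `k + 2` -/
theorem rcap_rcup (hk : 1 ≤ k) (x : TLM R a L k) :
    rcap a L k 1 hk (rcup a L k 0 (Nat.zero_le k) x) = x := by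
  induction x using TLM.induction with
  | h0 => rw [map_zero, map_zero]
  | hadd x y hx hy => rw [map_add, map_add, hx, hy]
  | hs c g =>
    rw [rcup_smulR, rcap_smulR, rcup_bs, rcap_bs]
    have h := capf_succ_cupf g.2 (by omega : L + 0 + 1 ≤ L + k)
    have h1 : capD 1 hk (cupD 0 (Nat.zero_le k) g) = g := Subtype.ext h.1
    have h2 : capc (L + 1) (cupD 0 (Nat.zero_le k) g).1 = 0 := h.2
    rw [h1, h2, pow_zero, one_smul]

/-- the loop -/
theorem rcap_rcup_self (p : ℕ) (hp : p ≤ k) (x : TLM R a L k) :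
    rcap a L k p hp (rcup a L k p hp x) = a • x := by
  induction x using TLM.induction with
  | h0 => rw [map_zero, map_zero, smul_zero]
  | hadd x y hx hy => rw [map_add, map_add, hx, hy, smul_add]
  | hs c g =>
    rw [rcup_smulR, rcap_smulR, rcup_bs, rcap_bs]
    have h1 : capD p hp (cupD p hp g) = g := Subtype.ext (capf_cupf _ _)
    have h2 : capc (L + p) (cupD p hp g).1 = 1 := capc_cupf _ _
    rw [h1, h2, pow_one, smul_comm]

/-! ### the generators -/

theorem capfL_ncm {l : ℕ} (hl : l + 2 ≤ L) {f : ℕ → ℕ} (hf : NCM (L + k) f) :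
    NCM (L - 2 + k) (capf l f) :=
  capf_ncm (P := L - 2 + k) (by rwa [show L - 2 + k + 2 = L + k by omega]) (by omega)

theorem cupfL_ncm {l : ℕ} (hl : l + 2 ≤ L) {f : ℕ → ℕ} (hf : NCM (L - 2 + k) f) :
    NCM (L + k) (cupf l f) := by
  have := cupf_ncm hf (by omega : l ≤ L - 2 + k)
  rwa [show L - 2 + k + 2 = L + k by omega] at this

/-- the diagram obtained by joining the left nodes `l, l+1` and then inserting a left arc there -/
def UD (l : ℕ) (hl : l + 2 ≤ L) (f : Dg (L + k)) : Dg (L + k) :=
  ⟨cupf l (capf l f.1), cupfL_ncm hl (capfL_ncm hl f.2)⟩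

/-- the generators `U_l` -/
noncomputable def UU (a : R) (l : ℕ) (hl : l + 2 ≤ L) : TLA R a L := bs a (UD l hl (one' L))

theorem UU_smul_bs (l : ℕ) (hl : l + 2 ≤ L) (g : Dg (L + k)) :
    UU a l hl • bs a g = a ^ capc l g.1 • bs a (UD l hl g) := by
  unfold UU
  rw [bs_smul_bs]
  obtain ⟨L', rfl⟩ : ∃ L', L = L' + 2 := ⟨L - 2, by omega⟩
  have h0 := idd_ncm (L' + 2)
  have h0' : NCM (L' + 2 + (L' + 2)) (idd (L' + 2)) := h0
  have h1 : NCM (L' + (L' + 2)) (capf l (idd (L' + 2))) :=
    capf_ncm (by rwa [show L' + (L' + 2) + 2 = L' + 2 + (L' + 2) by ring]) (by omega)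
  have h2 := cup_cmp h1 g.2 (by omega : l ≤ L')
  have h3 := cap_cmp h0' g.2 (by omega : l ≤ L')
  have h4 := id_cmp g.2
  have h5 : capc l (idd (L' + 2)) = 0 := by
    unfold capc idd
    rw [if_neg]
    rw [if_pos (by omega)]
    omega
  rw [h4, h5] at h3
  have h6 : mulD (UD l hl (one' (L' + 2))) g = UD l hl g := by
    apply Subtype.ext
    change (cmp (L' + 2) (L' + 2) (cupf l (capf l (idd (L' + 2)))) g.1).2 = cupf l (capf l g.1)
    rw [h2.2, h3.2]
  have h7 : loops (UD l hl (one' (L' + 2))) g = capc l g.1 := by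
    change (cmp (L' + 2) (L' + 2) (cupf l (capf l (idd (L' + 2)))) g.1).1 = capc l g.1
    rw [h2.1]
    have h8 := h3.1
    simp only at h8
    omega
  rw [h6, h7]

theorem UD_one_ne {l : ℕ} (hl : l + 2 ≤ L) : UD l hl (one' L) ≠ one' L := by
  intro h
  have h1 : (UD l hl (one' L)).1 l = (one' L).1 l := by rw [h]
  change cupf l (capf l (idd L)) l = idd L l at h1
  rw [cupf_left] at h1
  unfold idd at h1
  rw [if_pos (by omega)] at h1
  omega

theorem eps_UU {l : ℕ} (hl : l + 2 ≤ L) : eps R a L (UU a l hl) = 0 := by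
  unfold UU
  rw [eps_bs, if_neg (UD_one_ne hl)]

theorem cupf_capf_apply {P l x : ℕ} {f : ℕ → ℕ} (hf : NCM (P + 2) f) (hl : l ≤ P)
    (h1 : x ≠ l) (h2 : x ≠ l + 1) : cupf l (capf l f) x = rr l f x := by
  have h3 := rr_ne hf hl h1 h2
  unfold cupf
  rw [if_neg h1, if_neg h2, capf_eq, up_dn h1 h2, up_dn h3.1 h3.2]

theorem st_UU {l : ℕ} (hl : l + 2 ≤ L) : st R a L (UU a l hl) = UU a l hl := by
  unfold UU
  rw [st_bs]
  congr 1
  apply Subtype.ext
  change refl (L + L) (cupf l (capf l (idd L))) = cupf l (capf l (idd L))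
  obtain ⟨L', rfl⟩ : ∃ L', L = L' + 2 := ⟨L - 2, by omega⟩
  have h0 : NCM (L' + L' + 2 + 2) (idd (L' + 2)) := (idd_ncm (L' + 2)).cast (by ring)
  have h1 := capf_ncm h0 (by omega : l ≤ L' + L' + 2)
  have h2 := refl_cupf (by omega : l ≤ L' + L' + 2) h1
  have h3 := refl_capf (by omega : l ≤ L' + L' + 2) h0
  have h4 := refl_idd (L' + 2)
  rw [show L' + 2 + (L' + 2) = L' + L' + 2 + 2 by ring] at h4 ⊢
  rw [h4] at h3
  rw [h2, ← h3.1]
  funext x
  have c1 := fun (h1 : x ≠ l) (h2 : x ≠ l + 1) => cupf_capf_apply h0 (by omega) h1 h2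
  have c2 := fun (h1 : x ≠ L' + L' + 2 - l) (h2 : x ≠ L' + L' + 2 - l + 1) =>
    cupf_capf_apply h0 (l := L' + L' + 2 - l) (by omega) h1 h2
  by_cases e1 : x = l
  · rw [c2 (by omega) (by omega)]
    subst e1
    rw [cupf_left]
    simp only [rr, idd]
    split_ifs <;> omega
  · by_cases e2 : x = l + 1
    · rw [c2 (by omega) (by omega)]
      subst e2
      rw [cupf_right]
      simp only [rr, idd]
      split_ifs <;> omega
    · rw [c1 e1 e2]
      by_cases e3 : x = L' + L' + 2 - l
      · subst e3
        rw [cupf_left]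
        simp only [rr, idd]
        split_ifs <;> omega
      · by_cases e4 : x = L' + L' + 2 - l + 1
        · subst e4
          rw [cupf_right]
          simp only [rr, idd]
          split_ifs <;> omega
        · rw [c2 e3 e4]
          simp only [rr, idd]
          split_ifs <;> omega

end

end Pool.Agent.H47.TL
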