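import Pool.Agent.H47.TL.Match

namespace Pool.Agent.H47.TL

/-- weight of an arc whose left end has label `s` and whose right end has label `t` -/
def cw {K : Type*} [CommRing K] (m : K) (s t : Bool) : K :=
  match s, t with
  | false, true => 1
  | true, false => m
  | _, _ => 0

/-- insert the labels `s, t` at the places `p, p+1` -/
def ins (p : ℕ) (s t : Bool) (w : ℕ → Bool) (x : ℕ) : Bool :=
  if x = p then s else if x = p + 1 then t else w (dn p x)

/-- delete the labels at the places `p, p+1` -/
def del (p : ℕ) (w : ℕ → Bool) (x : ℕ) : Bool := w (up p x)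

/-- the cap operator on functions of words -/
def SC {K : Type*} [CommRing K] (m' : K) (p : ℕ) (F : (ℕ → Bool) → K) (w : ℕ → Bool) : K :=
  m' * F (ins p false true w) + F (ins p true false w)

/-- the cup operator on functions of words -/
def SU {K : Type*} [CommRing K] (m : K) (p : ℕ) (F : (ℕ → Bool) → K) (w : ℕ → Bool) : K :=
  cw m (w p) (w (p + 1)) * F (del p w)

/-- the function of words attached to a matching -/
def hat {K : Type*} [CommRing K] (m : K) (P : ℕ) (f : ℕ → ℕ) (w : ℕ → Bool) : K :=
  ∏ x ∈ Finset.range P, if x < f x then cw m (w x) (w (f x)) else 1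

/-- product function -/
def ten {K : Type*} [CommRing K] (P : ℕ) (F H : (ℕ → Bool) → K) (w : ℕ → Bool) : K :=
  F w * H (fun x => w (P + x))

/-- `F` depends only on the first `P` letters -/
def Dep {K : Type*} (P : ℕ) (F : (ℕ → Bool) → K) : Prop :=
  ∀ w w' : ℕ → Bool, (∀ x, x < P → w x = w' x) → F w = F w'

theorem ins_up (p : ℕ) (s t : Bool) (w : ℕ → Bool) (x : ℕ) : ins p s t w (up p x) = w x := by
  unfold ins
  rw [if_neg (up_ne p x).1, if_neg (up_ne p x).2, dn_up]

theorem ins_left (p : ℕ) (s t : Bool) (w : ℕ → Bool) : ins p s t w p = s := by simp [ins]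

theorem ins_right (p : ℕ) (s t : Bool) (w : ℕ → Bool) : ins p s t w (p + 1) = t := by simp [ins]

theorem prod_up {K : Type*} [CommMonoid K] {P p : ℕ} (hp : p ≤ P) (E : ℕ → K) :
    ∏ x ∈ Finset.range (P + 2), E x = E p * (E (p + 1) * ∏ y ∈ Finset.range P, E (up p y)) := by
  have h : Finset.range (P + 2) = insert p (insert (p + 1) ((Finset.range P).image (up p))) := by
    ext x
    simp only [Finset.mem_range, Finset.mem_insert, Finset.mem_image]
    constructor
    · intro hx
      rcases up_cases p x with rfl | rfl | ⟨y, rfl⟩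
      · exact Or.inl rfl
      · exact Or.inr (Or.inl rfl)
      · exact Or.inr (Or.inr ⟨y, (up_lt hp).1 hx, rfl⟩)
    · rintro (rfl | rfl | ⟨y, hy, rfl⟩)
      · omega
      · omega
      · exact (up_lt hp).2 hy
  rw [h, Finset.prod_insert, Finset.prod_insert, Finset.prod_image]
  · intro x _ y _ hxy
    exact up_inj hxy
  · simp only [Finset.mem_image, not_exists, not_and]
    intro y _ hy
    exact (up_ne p y).2 hy
  · simp only [Finset.mem_insert, Finset.mem_image, not_or, not_exists, not_and]
    exact ⟨by omega, fun y _ hy => (up_ne p y).1 hy⟩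

theorem prod_two {K : Type*} [CommMonoid K] {P u v : ℕ} (hu : u < P) (hv : v < P) (huv : u ≠ v)
    (E : ℕ → K) :
    ∏ x ∈ Finset.range P, E x =
      E u * (E v * ∏ x ∈ Finset.range P, if x = u ∨ x = v then 1 else E x) := by
  rw [← Finset.mul_prod_erase _ E (Finset.mem_range.2 hu),
    ← Finset.mul_prod_erase _ E (a := v) (Finset.mem_erase.2 ⟨huv.symm, Finset.mem_range.2 hv⟩)]
  congr 2
  rw [← Finset.mul_prod_erase _ (fun x => if x = u ∨ x = v then (1 : K) else E x)
      (Finset.mem_range.2 hu),
    ← Finset.mul_prod_erase _ (fun x => if x = u ∨ x = v then (1 : K) else E x) (a := v)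
      (Finset.mem_erase.2 ⟨huv.symm, Finset.mem_range.2 hv⟩)]
  simp only [true_or, or_true, if_true, one_mul]
  refine Finset.prod_congr rfl fun x hx => ?_
  rw [if_neg]
  simp only [Finset.mem_erase] at hx
  tauto

theorem hat_cup {K : Type*} [CommRing K] (m : K) {P p : ℕ} (hp : p ≤ P) (g : ℕ → ℕ) :
    hat m (P + 2) (cupf p g) = SU m p (hat m P g) := by
  funext w
  unfold hat SU
  rw [prod_up hp]
  rw [cupf_left, cupf_right, if_pos (by omega), if_neg (by omega), one_mul]
  congr 1
  refine Finset.prod_congr rfl fun y _ => ?_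
  rw [cupf_up]
  simp only [up_lt_up, del]

theorem hat_juxt {K : Type*} [CommRing K] (m : K) {P Q : ℕ} {f g : ℕ → ℕ} :
    hat m (P + Q) (juxt P f g) = ten P (hat m P f) (hat m Q g) := by
  funext w
  unfold hat ten
  rw [Finset.prod_range_add]
  congr 1
  · refine Finset.prod_congr rfl fun x hx => ?_
    rw [Finset.mem_range] at hx
    have : juxt P f g x = f x := by unfold juxt; rw [if_pos hx]
    rw [this]
  · refine Finset.prod_congr rfl fun x hx => ?_
    have : juxt P f g (P + x) = P + g x := by
      unfold juxt; rw [if_neg (by omega)]; congr 2; omega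
    rw [this]
    by_cases h : x < g x
    · rw [if_pos h, if_pos (by omega)]
    · rw [if_neg h, if_neg (by omega)]

theorem hat_dep {K : Type*} [CommRing K] (m : K) {P : ℕ} {f : ℕ → ℕ} (hf : NCM P f) :
    Dep P (hat m P f) := by
  intro w w' h
  unfold hat
  refine Finset.prod_congr rfl fun x hx => ?_
  rw [Finset.mem_range] at hx
  rw [h x hx, h _ (hf.lt hx)]

/-- the symmetric weight of the arc `{x, f x}` -/
theorem hat_cap {K : Type*} [CommRing K] {m m' : K} (hm : m * m' = 1) {P p : ℕ} (hp : p ≤ P)
    {f : ℕ → ℕ} (hf : NCM (P + 2) f) (w : ℕ → Bool) :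
    SC m' p (hat m (P + 2) f) w = (m + m') ^ (capc p f) * hat m P (capf p f) w := by
  have hcap := capf_ncm hf hp
  have e1 := hf.inv p
  have e2 := hf.inv (p + 1)
  have n1 := hf.ne (x := p) (by omega)
  have n2 := hf.ne (x := p + 1) (by omega)
  unfold SC hat capc
  by_cases h1 : f p = p + 1
  · rw [if_pos h1, pow_one]
    have h2 : f (p + 1) = p := by rw [← h1]; exact e1
    have hy : ∀ y, up p (capf p f y) = f (up p y) := by
      intro y
      have := cupf_capf hf h1
      conv_rhs => rw [← this]
      rw [cupf_up]
    rw [prod_up hp, prod_up hp]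
    simp only [h1, h2, ins_left, ins_right]
    rw [if_pos (by omega), if_neg (by omega)]
    have h3 : ∀ s t : Bool, (∏ y ∈ Finset.range P, if up p y < f (up p y) then
        cw m (ins p s t w (up p y)) (ins p s t w (f (up p y))) else 1) =
        ∏ y ∈ Finset.range P, if y < capf p f y then cw m (w y) (w (capf p f y)) else 1 := by
      intro s t
      refine Finset.prod_congr rfl fun y _ => ?_
      rw [← hy, ins_up, ins_up]
      simp only [up_lt_up]
    rw [h3, h3]
    generalize (∏ y ∈ Finset.range P, if y < capf p f y then cw m (w y) (w (capf p f y)) else 1) = Z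
    have h4 : ¬ (p + 1 < p) := by omega
    have h5 : p < p + 1 := by omega
    simp only [cw, h4, h5, if_false, if_true]
    ring1
  · rw [if_neg h1, pow_zero, one_mul]
    have m1 : f p ≠ p := n1
    have m2 : f (p + 1) ≠ p := by intro hh; rw [hh] at e2; exact h1 e2
    -- the two partners
    obtain ⟨u, hu⟩ : ∃ u, f p = up p u := by
      rcases up_cases p (f p) with h | h | h
      · exact absurd h n1
      · exact absurd h h1
      · exact h
    obtain ⟨v, hv⟩ : ∃ v, f (p + 1) = up p v := by
      rcases up_cases p (f (p + 1)) with h | h | h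
      · exact absurd h m2
      · exact absurd h n2
      · exact h
    have hfu : f (up p u) = p := by rw [← hu]; exact e1
    have hfv : f (up p v) = p + 1 := by rw [← hv]; exact e2
    have huP : u < P := by
      rw [← up_lt hp, ← hu]; exact hf.lt (by omega)
    have hvP : v < P := by
      rw [← up_lt hp, ← hv]; exact hf.lt (by omega)
    have huv : u ≠ v := by
      rintro rfl
      rw [hfu] at hfv
      omega
    have gu : capf p f u = v := by
      rw [capf_eq]
      unfold rr
      rw [if_pos hfu, hv, dn_up]
    have gv : capf p f v = u := by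
      rw [capf_eq]
      unfold rr
      rw [hfv, if_neg (by omega), if_pos rfl, hu, dn_up]
    have gy : ∀ y, y ≠ u → y ≠ v → up p (capf p f y) = f (up p y) := by
      intro y h3 h4
      have k1 : f (up p y) ≠ p := by
        intro hh
        have := hf.inv (up p y)
        rw [hh, hu] at this
        exact h3 (up_inj this).symm
      have k2 : f (up p y) ≠ p + 1 := by
        intro hh
        have := hf.inv (up p y)
        rw [hh, hv] at this
        exact h4 (up_inj this).symm
      rw [capf_eq]
      unfold rr
      rw [if_neg k1, if_neg k2, up_dn k1 k2]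
    rw [prod_up hp, prod_up hp,
      prod_two huP hvP huv (fun y => if up p y < f (up p y) then
        cw m (ins p false true w (up p y)) (ins p false true w (f (up p y))) else 1),
      prod_two huP hvP huv (fun y => if up p y < f (up p y) then
        cw m (ins p true false w (up p y)) (ins p true false w (f (up p y))) else 1),
      prod_two huP hvP huv (fun y => if y < capf p f y then cw m (w y) (w (capf p f y)) else 1)]
    have h3 : ∀ s t : Bool, (∏ y ∈ Finset.range P, if y = u ∨ y = v then (1 : K) else
        if up p y < f (up p y) then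
        cw m (ins p s t w (up p y)) (ins p s t w (f (up p y))) else 1) =
        ∏ y ∈ Finset.range P, if y = u ∨ y = v then (1 : K) else
          if y < capf p f y then cw m (w y) (w (capf p f y)) else 1 := by
      intro s t
      refine Finset.prod_congr rfl fun y _ => ?_
      by_cases h4 : y = u ∨ y = v
      · rw [if_pos h4, if_pos h4]
      · rw [if_neg h4, if_neg h4]
        rw [not_or] at h4
        rw [← gy y h4.1 h4.2, ins_up, ins_up]
        simp only [up_lt_up]
    rw [h3, h3]
    generalize (∏ y ∈ Finset.range P, if y = u ∨ y = v then (1 : K) else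
          if y < capf p f y then cw m (w y) (w (capf p f y)) else 1) = Z
    rw [hfu, hfv, hu, hv, gu, gv]
    simp only [ins_left, ins_right, ins_up]
    -- positions
    have c1 := hf.nc (x := p) (y := p + 1)
    have c2 := hf.nc (x := f (p + 1)) (y := p)
    rw [hu, hv] at c1
    rw [hu, e2, hv] at c2
    have c3 := hf.nc' (x := f (p + 1)) (y := p)
    rw [e2, hu, hv] at c3
    have hUV : up p u < up p v ↔ u < v := up_lt_up
    have hVU : up p v < up p u ↔ v < u := up_lt_up
    rcases lt_or_ge u p with hup | hup
    · have hu1 : up p u = u := by unfold up; rw [if_pos hup]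
      rw [hu1] at c1 c2 c3 hUV hVU ⊢
      rcases lt_or_ge v p with hvp | hvp
      · have hv1 : up p v = v := by unfold up; rw [if_pos hvp]
        rw [hv1] at c1 c2 c3 hUV hVU ⊢
        split_ifs <;> first | (exfalso; omega) | skip
        all_goals
          cases w u <;> cases w v <;> simp [cw] <;>
            first | done | ring1 | linear_combination Z * hm | linear_combination m * Z * hm
      · have hv1 : up p v = v + 2 := by unfold up; rw [if_neg (by omega)]
        rw [hv1] at c1 c2 c3 hUV hVU ⊢
        split_ifs <;> first | (exfalso; omega) | skip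
        all_goals
          cases w u <;> cases w v <;> simp [cw] <;>
            first | done | ring1 | linear_combination Z * hm | linear_combination m * Z * hm
    · have hu1 : up p u = u + 2 := by unfold up; rw [if_neg (by omega)]
      rw [hu1] at c1 c2 c3 hUV hVU ⊢
      rcases lt_or_ge v p with hvp | hvp
      · have hv1 : up p v = v := by unfold up; rw [if_pos hvp]
        rw [hv1] at c1 c2 c3 hUV hVU
        exfalso; omega
      · have hv1 : up p v = v + 2 := by unfold up; rw [if_neg (by omega)]
        rw [hv1] at c1 c2 c3 hUV hVU ⊢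
        split_ifs <;> first | (exfalso; omega) | skip
        all_goals
          cases w u <;> cases w v <;> simp [cw] <;>
            first | done | ring1 | linear_combination Z * hm | linear_combination m * Z * hm

/-! ### operators -/

theorem SC_zero {K : Type*} [CommRing K] (m' : K) (p : ℕ) : SC m' p (0 : (ℕ → Bool) → K) = 0 := by
  funext w; simp [SC]

theorem SC_smul {K : Type*} [CommRing K] (m' : K) (p : ℕ) (c : K) (F : (ℕ → Bool) → K) :
    SC m' p (c • F) = c • SC m' p F := by
  funext w; simp [SC]; ring

theorem SC_add {K : Type*} [CommRing K] (m' : K) (p : ℕ) (F H : (ℕ → Bool) → K) :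
    SC m' p (F + H) = SC m' p F + SC m' p H := by
  funext w; simp [SC]; ring

theorem SU_smul {K : Type*} [CommRing K] (m : K) (p : ℕ) (c : K) (F : (ℕ → Bool) → K) :
    SU m p (c • F) = c • SU m p F := by
  funext w; simp [SU]; ring

theorem ins_ins {p q : ℕ} (hpq : p ≤ q) (s t s' t' : Bool) (w : ℕ → Bool) :
    ins (q + 2) s' t' (ins p s t w) = ins p s t (ins q s' t' w) := by
  funext x
  simp only [ins, dn]
  split_ifs <;> first | rfl | (exfalso; omega) | (congr 1; omega)

theorem SC_SC {K : Type*} [CommRing K] (m' : K) {p q : ℕ} (hpq : p ≤ q) (F : (ℕ → Bool) → K) :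
    SC m' p (SC m' (q + 2) F) = SC m' q (SC m' p F) := by
  funext w
  simp only [SC, ins_ins hpq]
  ring

theorem del_ins {p q : ℕ} (hpq : p ≤ q) (s t : Bool) (w : ℕ → Bool) :
    del (q + 2) (ins p s t w) = ins p s t (del q w) := by
  funext x
  simp only [ins, del, dn, up]
  split_ifs <;> first | rfl | (exfalso; omega) | (congr 1; omega)

theorem del_ins' {p q : ℕ} (hpq : q ≤ p) (s t : Bool) (w : ℕ → Bool) :
    del q (ins (p + 2) s t w) = ins p s t (del q w) := by
  funext x
  simp only [ins, del, dn, up]
  split_ifs <;> first | rfl | (exfalso; omega) | (congr 1; omega)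

theorem SC_SU {K : Type*} [CommRing K] (m m' : K) {p q : ℕ} (hpq : p ≤ q) (F : (ℕ → Bool) → K) :
    SC m' p (SU m (q + 2) F) = SU m q (SC m' p F) := by
  funext w
  have h1 : ∀ s t : Bool, ins p s t w (q + 2) = w q := by
    intro s t; simp only [ins, dn]; split_ifs <;> first | rfl | (exfalso; omega)
  have h2 : ∀ s t : Bool, ins p s t w (q + 2 + 1) = w (q + 1) := by
    intro s t; simp only [ins, dn]
    split_ifs <;> first | rfl | (exfalso; omega)
  simp only [SC, SU, del_ins hpq, h1, h2]
  ring

theorem SC_SU' {K : Type*} [CommRing K] (m m' : K) {p q : ℕ} (hpq : q ≤ p) (F : (ℕ → Bool) → K) :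
    SC m' (p + 2) (SU m q F) = SU m q (SC m' p F) := by
  funext w
  have h1 : ∀ s t : Bool, ins (p + 2) s t w q = w q := by
    intro s t; simp only [ins, dn]; split_ifs <;> first | rfl | (exfalso; omega)
  have h2 : ∀ s t : Bool, ins (p + 2) s t w (q + 1) = w (q + 1) := by
    intro s t; simp only [ins, dn]
    split_ifs <;> first | rfl | (exfalso; omega)
  simp only [SC, SU, del_ins' hpq, h1, h2]
  ring

theorem SC_SU_self {K : Type*} [CommRing K] (m m' : K) (p : ℕ) (F : (ℕ → Bool) → K) :
    SC m' p (SU m p F) = (m + m') • F := by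
  funext w
  have h : ∀ s t : Bool, del p (ins p s t w) = w := by
    intro s t; funext x; unfold del; rw [ins_up]
  simp only [SC, SU, h, ins_left, ins_right, cw, Pi.smul_apply, smul_eq_mul]
  ring

theorem SC_SU_right {K : Type*} [CommRing K] {m m' : K} (hm : m * m' = 1) (p : ℕ)
    (F : (ℕ → Bool) → K) : SC m' (p + 1) (SU m p F) = F := by
  funext w
  have h : ∀ s t : Bool, w p = t → del p (ins (p + 1) s t w) = w := by
    intro s t hw; funext x; simp only [ins, del, dn, up]
    split_ifs <;> first | rfl | (exfalso; omega) | (subst hw; congr 1; omega)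
  have h1 : ∀ s t : Bool, ins (p + 1) s t w p = w p := by
    intro s t; simp only [ins, dn]; split_ifs <;> first | rfl | (exfalso; omega)
  have h2 : ∀ s t : Bool, ins (p + 1) s t w (p + 1) = s := by
    intro s t; unfold ins; rw [if_pos rfl]
  simp only [SC, SU, h1, h2]
  cases hw : w p
  · rw [h true false hw]
    simp only [cw]
    ring
  · rw [h false true hw]
    simp only [cw]
    linear_combination F w * hm

theorem SC_SU_left {K : Type*} [CommRing K] {m m' : K} (hm : m * m' = 1) (p : ℕ)
    (F : (ℕ → Bool) → K) : SC m' p (SU m (p + 1) F) = F := by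
  funext w
  have h : ∀ s t : Bool, w p = s → del (p + 1) (ins p s t w) = w := by
    intro s t hw; funext x; simp only [ins, del, dn, up]
    split_ifs <;> first | rfl | (exfalso; omega) | (subst hw; congr 1; omega)
  have h1 : ∀ s t : Bool, ins p s t w (p + 1) = t := by
    intro s t; unfold ins; rw [if_neg (by omega), if_pos rfl]
  have h2 : ∀ s t : Bool, ins p s t w (p + 1 + 1) = w p := by
    intro s t; simp only [ins, dn]; split_ifs <;> first | rfl | (exfalso; omega)
  simp only [SC, SU, h1, h2]
  cases hw : w p
  · rw [h false true hw]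
    simp only [cw]
    linear_combination F w * hm
  · rw [h true false hw]
    simp only [cw]
    ring

theorem SC_ten {K : Type*} [CommRing K] (m' : K) {P p : ℕ} (hp : p ≤ P) (F : (ℕ → Bool) → K)
    (H : (ℕ → Bool) → K) :
    SC m' p (ten (P + 2) F H) = ten P (SC m' p F) H := by
  funext w
  have h : ∀ s t : Bool, (fun x => ins p s t w (P + 2 + x)) = fun x => w (P + x) := by
    intro s t; funext x; simp only [ins, dn]
    split_ifs <;> first | rfl | (exfalso; omega) | (congr 1; omega)
  simp only [SC, ten, h]
  ring

theorem SC_ten' {K : Type*} [CommRing K] (m' : K) {P : ℕ} (p : ℕ) {F : (ℕ → Bool) → K}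
    (H : (ℕ → Bool) → K) (hF : Dep P F) :
    SC m' (P + p) (ten P F H) = ten P F (SC m' p H) := by
  funext w
  have h : ∀ s t : Bool, (fun x => ins (P + p) s t w (P + x)) = ins p s t (fun x => w (P + x)) := by
    intro s t; funext x; simp only [ins, dn]
    split_ifs <;> first | rfl | (exfalso; omega) | (congr 1; omega)
  have h1 : ∀ s t : Bool, F (ins (P + p) s t w) = F w := by
    intro s t
    apply hF
    intro x hx
    simp only [ins, dn]
    split_ifs <;> first | rfl | (exfalso; omega)
  simp only [SC, ten, h, h1]
  ring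

theorem SU_ten {K : Type*} [CommRing K] (m : K) {P p : ℕ} (hp : p ≤ P) (F : (ℕ → Bool) → K)
    (H : (ℕ → Bool) → K) :
    SU m p (ten P F H) = ten (P + 2) (SU m p F) H := by
  funext w
  have h : (fun x => del p w (P + x)) = fun x => w (P + 2 + x) := by
    funext x; simp only [del, up]
    split_ifs <;> first | rfl | (exfalso; omega) | (congr 1; omega)
  simp only [SU, ten, h]
  ring

theorem SU_ten' {K : Type*} [CommRing K] (m : K) {P : ℕ} (p : ℕ) {F : (ℕ → Bool) → K}
    (H : (ℕ → Bool) → K) (hF : Dep P F) :
    SU m (P + p) (ten P F H) = ten P F (SU m p H) := by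
  funext w
  have h : (fun x => del (P + p) w (P + x)) = del p (fun x => w (P + x)) := by
    funext x; simp only [del, up]
    split_ifs <;> first | rfl | (exfalso; omega) | (congr 1; omega)
  have h1 : F (del (P + p) w) = F w := by
    apply hF
    intro x hx
    simp only [del, up]
    split_ifs <;> first | rfl | (exfalso; omega)
  simp only [SU, ten, h, h1]
  rw [show P + p + 1 = P + (p + 1) by omega]
  ring

theorem SC_dep {K : Type*} [CommRing K] (m' : K) {P p : ℕ} (hp : p ≤ P) {F : (ℕ → Bool) → K}
    (hF : Dep (P + 2) F) : Dep P (SC m' p F) := by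
  intro w w' h
  have h1 : ∀ s t : Bool, F (ins p s t w) = F (ins p s t w') := by
    intro s t
    apply hF
    intro x hx
    rcases up_cases p x with rfl | rfl | ⟨y, rfl⟩
    · rw [ins_left, ins_left]
    · rw [ins_right, ins_right]
    · rw [ins_up, ins_up]
      exact h y ((up_lt hp).1 hx)
  simp only [SC, h1]

theorem SU_dep {K : Type*} [CommRing K] (m : K) {P p : ℕ} (hp : p ≤ P) {F : (ℕ → Bool) → K}
    (hF : Dep P F) : Dep (P + 2) (SU m p F) := by
  intro w w' h
  have h1 : F (del p w) = F (del p w') := by
    apply hF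
    intro x hx
    exact h _ ((up_lt hp).2 hx)
  simp only [SU, h1, h p (by omega), h (p + 1) (by omega)]

theorem ten_dep {K : Type*} [CommRing K] {P Q : ℕ} {F H : (ℕ → Bool) → K}
    (hF : Dep P F) (hH : Dep Q H) : Dep (P + Q) (ten P F H) := by
  intro w w' h
  simp only [ten]
  rw [hF w w' (fun x hx => h x (by omega)), hH _ (fun x => w' (P + x)) (fun x hx => h _ (by omega))]

theorem ten_assoc {K : Type*} [CommRing K] (P Q : ℕ) (F G H : (ℕ → Bool) → K) :
    ten P F (ten Q G H) = ten (P + Q) (ten P F G) H := by
  funext w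
  simp only [ten]
  rw [mul_assoc]
  congr 3
  funext x
  congr 1
  omega

/-- iterated caps -/
def GG {K : Type*} [CommRing K] (m' : K) (l : ℕ) : ℕ → ((ℕ → Bool) → K) → ((ℕ → Bool) → K)
  | 0, F => F
  | m + 1, F => GG m' l m (SC m' (l + m) F)

theorem GG_smul {K : Type*} [CommRing K] (m' : K) (l m : ℕ) : ∀ (c : K) (F : (ℕ → Bool) → K),
    GG m' l m (c • F) = c • GG m' l m F := by
  induction m with
  | zero => intro c F; rfl
  | succ m ih => intro c F; simp only [GG, SC_smul, ih]

theorem hat_glue {K : Type*} [CommRing K] {m₀ m' : K} (hm : m₀ * m' = 1) (l m : ℕ) :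
    ∀ (k : ℕ) (f : ℕ → ℕ), NCM (l + m + m + k) f →
      GG m' l m (hat m₀ (l + m + m + k) f) =
        (m₀ + m') ^ (glue l m f).1 • hat m₀ (l + k) (glue l m f).2 := by
  induction m with
  | zero => intro k f _; simp [GG, glue_zero]
  | succ m ih =>
    intro k f hf
    have e : l + (m + 1) + (m + 1) + k = l + m + m + k + 2 := by omega
    rw [e] at hf ⊢
    have h1 : SC m' (l + m) (hat m₀ (l + m + m + k + 2) f) =
        (m₀ + m') ^ (capc (l + m) f) • hat m₀ (l + m + m + k) (capf (l + m) f) := by
      funext w
      rw [hat_cap hm (by omega) hf w]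
      rfl
    simp only [GG, glue_succ]
    rw [h1, GG_smul, ih k _ (capf_ncm hf (by omega)), smul_smul, ← pow_add]

/-- moving a cap to the right of the nested caps through them -/
theorem GG_SC {K : Type*} [CommRing K] (m' : K) (l m : ℕ) : ∀ (p : ℕ), l ≤ p →
    ∀ F : (ℕ → Bool) → K, GG m' l m (SC m' (p + 2 * m) F) = SC m' p (GG m' l m F) := by
  induction m with
  | zero => intro p hp F; rfl
  | succ m ih =>
    intro p hp F
    simp only [GG]
    rw [show p + 2 * (m + 1) = p + 2 * m + 2 by ring, SC_SC m' (by omega), ih p hp]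

theorem GG_SU {K : Type*} [CommRing K] (m m' : K) (l n : ℕ) : ∀ (p : ℕ), l ≤ p →
    ∀ F : (ℕ → Bool) → K, GG m' l n (SU m (p + 2 * n) F) = SU m p (GG m' l n F) := by
  induction n with
  | zero => intro p hp F; rfl
  | succ n ih =>
    intro p hp F
    simp only [GG]
    rw [show p + 2 * (n + 1) = p + 2 * n + 2 by ring, SC_SU m m' (by omega), ih p hp]

theorem GG_GG {K : Type*} [CommRing K] (m' : K) (l m m2 : ℕ) : ∀ F : (ℕ → Bool) → K,
    GG m' l m (GG m' (l + 2 * m) m2 F) = GG m' l m2 (GG m' l m F) := by
  induction m2 with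
  | zero => intro F; rfl
  | succ m2 ih =>
    intro F
    simp only [GG]
    rw [ih, show l + 2 * m + m2 = l + m2 + 2 * m by ring, GG_SC m' l m (l + m2) (by omega)]

theorem GG_add {K : Type*} [CommRing K] (m' : K) (l k m : ℕ) : ∀ F : (ℕ → Bool) → K,
    GG m' l (k + m) F = GG m' l k (GG m' (l + k) m F) := by
  induction m with
  | zero => intro F; rfl
  | succ m ih =>
    intro F
    rw [← add_assoc]
    simp only [GG]
    rw [ih, add_assoc]

/-- a cup or cap on the left end, away from the nested caps -/
theorem SC_GG {K : Type*} [CommRing K] (m' : K) (l m p : ℕ) (hp : p ≤ l) : ∀ F : (ℕ → Bool) → K,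
    SC m' p (GG m' (l + 2) m F) = GG m' l m (SC m' p F) := by
  induction m with
  | zero => intro F; rfl
  | succ m ih =>
    intro F
    simp only [GG]
    rw [ih, show l + 2 + m = l + m + 2 by ring, SC_SC m' (by omega)]

theorem SU_GG {K : Type*} [CommRing K] (m m' : K) (l n p : ℕ) (hp : p ≤ l) :
    ∀ F : (ℕ → Bool) → K, SU m p (GG m' l n F) = GG m' (l + 2) n (SU m p F) := by
  induction n with
  | zero => intro F; rfl
  | succ n ih =>
    intro F
    simp only [GG]
    rw [ih, show l + 2 + n = l + n + 2 by ring, SC_SU' m m' (by omega)]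

end Pool.Agent.H47.TL
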