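import Pool.Agent.H47.TL.Spin

namespace Pool.Agent.H47.TL

/-- the word of a matching: `true` at the right ends of the arcs -/
def wd (f : ℕ → ℕ) (x : ℕ) : Bool := decide (f x < x)

/-- sum of the places of the letters `true` -/
def vv (P : ℕ) (w : ℕ → Bool) : ℕ := ∑ x ∈ Finset.range P, if w x then x else 0

theorem pair_sum {P : ℕ} {f : ℕ → ℕ} (hf : NCM P f) (h : ℕ → ℕ) :
    ∑ x ∈ Finset.range P, h x =
      ∑ x ∈ Finset.range P, if x < f x then h x + h (f x) else 0 := by
  have h1 : ∑ x ∈ Finset.range P, h x = ∑ x ∈ Finset.range P, ((if x < f x then h x else 0) +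
      (if x < f x then 0 else h x)) := by
    refine Finset.sum_congr rfl fun x _ => ?_
    split_ifs <;> simp
  have h2 : ∑ x ∈ Finset.range P, (if x < f x then 0 else h x) =
      ∑ x ∈ Finset.range P, (if x < f x then h (f x) else 0) := by
    refine Finset.sum_nbij' f f ?_ ?_ ?_ ?_ ?_
    · intro x hx
      exact Finset.mem_range.2 (hf.lt (Finset.mem_range.1 hx))
    · intro x hx
      exact Finset.mem_range.2 (hf.lt (Finset.mem_range.1 hx))
    · intro x _
      exact hf.inv x
    · intro x _
      exact hf.inv x
    · intro x hx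
      have := hf.ne (Finset.mem_range.1 hx)
      rw [hf.inv]
      split_ifs <;> first | rfl | (exfalso; omega)
  rw [h1, Finset.sum_add_distrib, h2, ← Finset.sum_add_distrib]
  refine Finset.sum_congr rfl fun x _ => ?_
  split_ifs <;> simp

theorem hat_ne_zero {K : Type*} [CommRing K] {m : K} {P : ℕ} {f : ℕ → ℕ} {w : ℕ → Bool}
    (h : hat m P f w ≠ 0) {x : ℕ} (hx : x < P) (hfx : x < f x) : w x ≠ w (f x) := by
  intro hh
  apply h
  unfold hat
  apply Finset.prod_eq_zero (Finset.mem_range.2 hx)
  rw [if_pos hfx, hh]
  cases w (f x) <;> rfl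

theorem hat_wd {K : Type*} [CommRing K] (m : K) {P : ℕ} {f : ℕ → ℕ} (hf : NCM P f) :
    hat m P f (wd f) = 1 := by
  unfold hat
  apply Finset.prod_eq_one
  intro x hx
  split_ifs with h
  · have h1 : wd f x = false := by
      unfold wd; exact decide_eq_false (by omega)
    have h2 : wd f (f x) = true := by
      unfold wd; rw [hf.inv]; exact decide_eq_true h
    rw [h1, h2]
    rfl
  · rfl

theorem vv_le {P : ℕ} {f : ℕ → ℕ} (hf : NCM P f) {w : ℕ → Bool}
    (h : ∀ x, x < P → x < f x → w x ≠ w (f x)) :
    vv P w ≤ vv P (wd f) ∧ (vv P w = vv P (wd f) → ∀ x, x < P → w x = wd f x) := by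
  have e1 : vv P w = ∑ x ∈ Finset.range P, if x < f x then
      ((if w x then x else 0) + (if w (f x) then f x else 0)) else 0 := by
    unfold vv; rw [pair_sum hf]
  have e2 : vv P (wd f) = ∑ x ∈ Finset.range P, if x < f x then f x else 0 := by
    unfold vv
    rw [pair_sum hf]
    refine Finset.sum_congr rfl fun x hx => ?_
    split_ifs with h1 h2 h3 h4
    · unfold wd at h2 h3
      simp only [decide_eq_true_eq] at h2
      omega
    · unfold wd at h2 h3
      simp only [decide_eq_true_eq] at h2
      omega
    · omega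
    · unfold wd at h4
      rw [hf.inv] at h4
      simp only [decide_eq_true_eq] at h4
      omega
    · rfl
  have h3 : ∀ x ∈ Finset.range P, (if x < f x then
      ((if w x then x else 0) + (if w (f x) then f x else 0)) else 0) ≤
      (if x < f x then f x else 0) := by
    intro x hx
    by_cases h1 : x < f x
    · rw [if_pos h1, if_pos h1]
      have := h x (Finset.mem_range.1 hx) h1
      revert this
      cases w x <;> cases w (f x) <;> simp <;> omega
    · rw [if_neg h1, if_neg h1]
  constructor
  · rw [e1, e2]
    exact Finset.sum_le_sum h3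
  · intro heq
    rw [e1, e2] at heq
    have h4 := (Finset.sum_eq_sum_iff_of_le h3).1 heq
    have h5 : ∀ x, x < P → x < f x → w x = false ∧ w (f x) = true := by
      intro x hx hfx
      have := h4 x (Finset.mem_range.2 hx)
      rw [if_pos hfx, if_pos hfx] at this
      have h6 := h x hx hfx
      revert this h6
      cases w x <;> cases w (f x) <;> simp <;> omega
    intro x hx
    rcases lt_or_ge x (f x) with h1 | h1
    · rw [(h5 x hx h1).1]
      unfold wd
      exact (decide_eq_false (by omega)).symm
    · have h2 := hf.ne hx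
      have h6 := (h5 (f x) (hf.lt hx) (by rw [hf.inv]; omega)).2
      rw [hf.inv] at h6
      rw [h6]
      unfold wd
      exact (decide_eq_true (by omega)).symm

theorem ncm_ext {P : ℕ} {f g : ℕ → ℕ} (hf : NCM P f) (hg : NCM P g)
    (h : ∀ x, x < P → wd f x = wd g x) : f = g := by
  have h' : ∀ x, f x < x ↔ g x < x := by
    intro x
    by_cases hx : x < P
    · have := h x hx
      unfold wd at this
      exact decide_eq_decide.1 this
    · rw [hf.out (by omega), hg.out (by omega)]
  -- closings agree
  have key : ∀ x, f x < x → f x = g x := by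
    intro x
    induction x using Nat.strong_induction_on with
    | _ x ih =>
      intro hx
      have hgx := (h' x).1 hx
      have main : ∀ (u v : ℕ → ℕ), NCM P u → NCM P v → (∀ x, u x < x ↔ v x < x) →
          (∀ y, y < x → u y < y → u y = v y) → u x < x → v x < x → ¬ u x < v x := by
        intro u v hu hv huv ih hux hvx hlt
        -- `z = v x` is an opening for `v`, hence for `u`
        have a1 : ¬ v (v x) < v x := by rw [hv.inv]; omega
        have a2 : ¬ u (v x) < v x := by rw [huv]; exact a1
        have a3 : u (v x) < x := by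
          have := hu.nc (x := u x) (y := v x) hlt (by rw [hu.inv]; exact hvx)
          rwa [hu.inv] at this
        have hvP : v x < P := by
          have hxP : x < P := by
            by_contra hc
            rw [hv.out (by omega)] at hvx
            omega
          exact hv.lt hxP
        have a4 : u (v x) ≠ v x := hu.ne hvP
        have a5 := ih (u (v x)) a3 (by rw [hu.inv]; omega)
        rw [hu.inv] at a5
        have a6 := congrArg v a5
        rw [hv.inv, hv.inv] at a6
        omega
      have m1 := main f g hf hg h' (fun y hy hfy => ih y hy hfy) hx hgx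
      have m2 := main g f hg hf (fun x => (h' x).symm)
        (fun y hy hgy => (ih y hy ((h' y).2 hgy)).symm) hgx hx
      omega
  funext x
  rcases lt_trichotomy (f x) x with h1 | h1 | h1
  · exact key x h1
  · have h2 : ¬ x < P := fun hx => hf.ne hx h1
    rw [hf.out (by omega), hg.out (by omega)]
  · have h2 := key (f x) (by rw [hf.inv]; exact h1)
    rw [hf.inv] at h2
    have h3 := congrArg g h2
    rw [hg.inv] at h3
    exact h3.symm

theorem hat_antisymm {K : Type*} [CommRing K] {m : K} {P : ℕ} {f g : ℕ → ℕ} (hf : NCM P f)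
    (hg : NCM P g) (h1 : hat m P f (wd g) ≠ 0) (h2 : vv P (wd f) ≤ vv P (wd g)) : f = g := by
  have h3 := vv_le hf (w := wd g) (fun x hx hfx => hat_ne_zero h1 hx hfx)
  exact (ncm_ext hg hf (h3.2 (le_antisymm h3.1 h2))).symm

/-- combinatorial identities can be checked on the functions of words with `m = 2` -/
theorem transfer {P : ℕ} {f g : ℕ → ℕ} (hf : NCM P f) (hg : NCM P g) {c d : ℕ}
    (h : ((2 : ℚ) + 1 / 2) ^ c • hat (2 : ℚ) P f = ((2 : ℚ) + 1 / 2) ^ d • hat (2 : ℚ) P g) :
    c = d ∧ f = g := by
  have h1 : hat (2 : ℚ) P f (wd g) ≠ 0 := by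
    intro hh
    have := congrFun h (wd g)
    simp only [Pi.smul_apply, smul_eq_mul, hh, mul_zero, hat_wd (2 : ℚ) hg, mul_one] at this
    exact absurd this.symm (pow_ne_zero _ (by norm_num))
  have h2 : hat (2 : ℚ) P g (wd f) ≠ 0 := by
    intro hh
    have := congrFun h (wd f)
    simp only [Pi.smul_apply, smul_eq_mul, hh, mul_zero, hat_wd (2 : ℚ) hf, mul_one] at this
    exact absurd this (pow_ne_zero _ (by norm_num))
  have h3 := (vv_le hf (w := wd g) (fun x hx hfx => hat_ne_zero h1 hx hfx)).1
  have hfg : f = g := by
    have h4 := (vv_le hg (w := wd f) (fun x hx hfx => hat_ne_zero h2 hx hfx)).1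
    exact hat_antisymm hf hg h1 h4
  refine ⟨?_, hfg⟩
  subst hfg
  have := congrFun h (wd f)
  simp only [Pi.smul_apply, smul_eq_mul, hat_wd (2 : ℚ) hf, mul_one] at this
  exact pow_right_injective₀ (by norm_num) (by norm_num) this

/-- linear independence of the functions of words -/
theorem hat_indep {K : Type*} [CommRing K] (m : K) (P : ℕ) (c : {f : ℕ → ℕ // NCM P f} →₀ K)
    (h : ∀ w, (c.sum fun f x => x * hat m P f.1 w) = 0) : c = 0 := by
  classical
  by_contra hc
  have hne : c.support.Nonempty := by
    rwa [Finsupp.support_nonempty_iff]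
  obtain ⟨g, hg, hmax⟩ := Finset.exists_max_image c.support (fun f => vv P (wd f.1)) hne
  have h1 := h (wd g.1)
  rw [Finsupp.sum, Finset.sum_eq_single g] at h1
  · rw [hat_wd m g.2, mul_one] at h1
    exact (Finsupp.mem_support_iff.1 hg) h1
  · intro f hf hfg
    by_cases h2 : hat m P f.1 (wd g.1) = 0
    · rw [h2, mul_zero]
    · exact absurd (Subtype.ext (hat_antisymm f.2 g.2 h2 (hmax f hf))) hfg
  · intro h2
    exact absurd hg h2

end Pool.Agent.H47.TL
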