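import Pool.Agent.H47.TL.Alg
import Pool.Agent.H47.TL.Cls

namespace Pool.Agent.H47.TL

universe u

section
variable {R : Type u} [CommRing R] {a : R} {L k : ℕ}

theorem NCM.cast {P Q : ℕ} {f : ℕ → ℕ} (h : NCM P f) (e : P = Q) : NCM Q f := e ▸ h

/-! ### augmentation and the trivial module -/

/-- the coefficient of the identity diagram -/
noncomputable def eps₀ (R : Type u) [CommRing R] (a : R) (L : ℕ) : TLA R a L →ₗ[R] R :=
  Finsupp.lapply (one' L)

theorem eps₀_bs (f : Dg (L + L)) : eps₀ R a L (bs a f) = if f = one' L then 1 else 0 := by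
  refine (Finsupp.single_apply (M := R)).trans ?_
  by_cases h : f = one' L
  · rw [if_pos h]
  · rw [if_neg h]

theorem mulD_ne_one {f g : Dg (L + L)} (hf : f ≠ one' L) : mulD f g ≠ one' L := by
  have h1 : ∃ p, p + 2 ≤ L ∧ f.1 p = p + 1 := by
    by_contra hc
    push Not at hc
    exact hf (Subtype.ext (idd_of_left f.2 hc))
  obtain ⟨p, hp, hfp⟩ := h1
  obtain ⟨L', rfl⟩ : ∃ L', L = L' + 2 := ⟨L - 2, by omega⟩
  have h2 : NCM (L' + (L' + 2) + 2) f.1 := f.2.cast (by ring)
  have h3 := capf_ncm h2 (by omega : p ≤ L' + (L' + 2))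
  have h4 := cup_cmp h3 g.2 (by omega : p ≤ L')
  rw [cupf_capf f.2 hfp] at h4
  intro h5
  have h6 : (mulD f g).1 = idd (L' + 2) := congrArg Subtype.val h5
  have h7 : (mulD f g).1 p = p + 1 := by
    change (cmp (L' + 2) (L' + 2) f.1 g.1).2 p = p + 1
    rw [h4.2, cupf_left]
  rw [h6] at h7
  unfold idd at h7
  rw [if_pos (by omega)] at h7
  omega

theorem mulD_one (f : Dg (L + L)) : mulD f (one' L) = f ∧ loops f (one' L) = 0 :=
  ⟨Subtype.ext (congrArg Prod.snd (cmp_id f.2)), congrArg Prod.fst (cmp_id f.2)⟩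

theorem one_mulD (f : Dg (L + k)) : mulD (one' L) f = f ∧ loops (one' L) f = 0 :=
  ⟨Subtype.ext (congrArg Prod.snd (id_cmp f.2)), congrArg Prod.fst (id_cmp f.2)⟩

theorem eps₀_mul (x y : TLA R a L) : eps₀ R a L (x * y) = eps₀ R a L x * eps₀ R a L y := by
  induction x using TLM.induction with
  | h0 => rw [zero_mul, map_zero, zero_mul]
  | hadd x y hx hy => rw [add_mul, map_add, map_add, hx, hy, add_mul]
  | hs c f =>
    induction y using TLM.induction with
    | h0 => rw [mul_zero, map_zero, mul_zero]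
    | hadd x y hx hy => rw [mul_add, map_add, map_add, hx, hy, mul_add]
    | hs d g =>
      rw [smul_mul_assoc, mul_smul_comm, bs_mul_bs]
      simp only [map_smul, eps₀_bs, smul_eq_mul]
      by_cases hf : f = one' L
      · subst hf
        rw [(one_mulD g).1, (one_mulD g).2, if_pos rfl]
        ring
      · rw [if_neg hf, if_neg (mulD_ne_one hf)]
        ring

theorem eps₀_one : eps₀ R a L 1 = 1 := by rw [TLA.one_def, eps₀_bs, if_pos rfl]

/-- the augmentation: identity diagram to `1`, all other diagrams to `0` -/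
noncomputable def eps (R : Type u) [CommRing R] (a : R) (L : ℕ) : TLA R a L →ₐ[R] R :=
  AlgHom.ofLinearMap (eps₀ R a L) eps₀_one eps₀_mul

theorem eps_bs (f : Dg (L + L)) : eps R a L (bs a f) = if f = one' L then 1 else 0 :=
  eps₀_bs (a := a) f

/-- the trivial module -/
def Triv (R : Type u) [CommRing R] (_a : R) (_L : ℕ) : Type u := R

noncomputable instance Triv.instAddCommGroup : AddCommGroup (Triv R a L) :=
  Ring.toAddCommGroup (R := R)

noncomputable instance Triv.instModule : Module R (Triv R a L) := Semiring.toModule (R := R)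

noncomputable instance Triv.instModuleTLA : Module (TLA R a L) (Triv R a L) :=
  Module.compHom R (eps R a L).toRingHom

theorem smul_triv (x : TLA R a L) (t : Triv R a L) : x • t = (eps R a L x • t : Triv R a L) := rfl

instance : IsScalarTower R (TLA R a L) (Triv R a L) where
  smul_assoc r x t := by
    rw [smul_triv, smul_triv, map_smul, smul_assoc]

end

end Pool.Agent.H47.TL
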