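import Pool.Agent.H47.TL.Mod

namespace Pool.Agent.H47.TL

universe u

section
variable {R : Type u} [CommRing R] {a : R} {L k : ℕ}

theorem UU_zigzag {p q : ℕ} (hp : p + 2 ≤ L) (hq : q + 2 ≤ L) (hpq : q = p + 1 ∨ p = q + 1)
    (g : Dg (L + k)) (hg : g.1 p = p + 1) :
    UU a p hp • (UU a q hq • bs a g) = bs a g := by
  have hg2 : NCM (L - 2 + k) (capf p g.1) := capfL_ncm hp g.2
  have e0 : cupf p (capf p g.1) = g.1 := cupf_capf g.2 hg
  rw [UU_smul_bs]
  rcases hpq with rfl | rfl
  · have h1 := capf_succ_cupf hg2 (by omega : p + 1 ≤ L - 2 + k)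
    rw [e0] at h1
    rw [h1.2, pow_zero, one_smul, UU_smul_bs]
    have h2 := capf_cupf_succ hg2 (by omega : p + 1 ≤ L - 2 + k)
    have h3 : (UD (p + 1) hq g).1 = cupf (p + 1) (capf p g.1) := by
      change cupf (p + 1) (capf (p + 1) g.1) = _
      rw [h1.1]
    rw [h3, h2.2, pow_zero, one_smul]
    congr 1
    apply Subtype.ext
    change cupf p (capf p (UD (p + 1) hq g).1) = g.1
    rw [h3, h2.1, e0]
  · have h1 := capf_cupf_succ hg2 (by omega : q + 1 ≤ L - 2 + k)
    rw [e0] at h1
    rw [h1.2, pow_zero, one_smul, UU_smul_bs]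
    have h2 := capf_succ_cupf hg2 (by omega : q + 1 ≤ L - 2 + k)
    have h3 : (UD q hq g).1 = cupf q (capf (q + 1) g.1) := by
      change cupf q (capf q g.1) = _
      rw [h1.1]
    rw [h3, h2.2, pow_zero, one_smul]
    congr 1
    apply Subtype.ext
    change cupf (q + 1) (capf (q + 1) (UD q hq g).1) = g.1
    rw [h3, h2.1, e0]

theorem map_UU_smul (φ : TLM R a L k →ₗ[TLA R a L] Triv R a L) {p : ℕ} (hp : p + 2 ≤ L)
    (m : TLM R a L k) : φ (UU a p hp • m) = 0 := by
  rw [map_smul, smul_triv, eps_UU, zero_smul]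

/-- there is no nonzero homomorphism to the trivial module if `1 < k < L` -/
theorem hom_triv_zero (hk : 2 ≤ k) (hkL : k < L) (φ : TLM R a L k →ₗ[TLA R a L] Triv R a L)
    (m : TLM R a L k) : φ m = 0 := by
  induction m using TLM.induction with
  | h0 => exact map_zero _
  | hadd x y hx hy => rw [map_add, hx, hy, add_zero]
  | hs c g =>
    obtain ⟨p, hp, hg⟩ := exists_left g.2 hkL
    have h0 : ∃ m', bs a g = UU a p hp • m' := by
      by_cases h1 : p + 3 ≤ L
      · exact ⟨_, (UU_zigzag hp (q := p + 1) (by omega) (Or.inl rfl) g hg).symm⟩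
      · exact ⟨_, (UU_zigzag hp (q := p - 1) (by omega) (Or.inr (by omega)) g hg).symm⟩
    obtain ⟨m', hm'⟩ := h0
    rw [hm', ← smul_comm, map_UU_smul]

/-- for `k = 0`: multiplication by `a` kills the homomorphisms to the trivial module -/
theorem hom_triv_zero' (hL : 1 ≤ L) (φ : TLM R a L 0 →ₗ[TLA R a L] Triv R a L)
    (m : TLM R a L 0) : a • φ m = 0 := by
  induction m using TLM.induction with
  | h0 => rw [map_zero, smul_zero]
  | hadd x y hx hy => rw [map_add, smul_add, hx, hy, add_zero]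
  | hs c g =>
    obtain ⟨p, hp, hg⟩ := exists_left g.2 (by omega : 0 < L)
    have h1 := map_UU_smul φ hp (c • bs a g)
    rw [← smul_comm, UU_smul_bs] at h1
    have h2 : UD p hp g = g := Subtype.ext (cupf_capf g.2 hg)
    have h3 : capc p g.1 = 1 := by unfold capc; rw [if_pos hg]
    rw [h2, h3, pow_one] at h1
    have h4 : c • a • bs a g = a • (c • bs a g) := smul_comm _ _ _
    rw [h4] at h1
    have h5 : φ (a • (c • bs a g)) = a • φ (c • bs a g) := by
      have h6 := φ.map_smul (algebraMap R (TLA R a L) a) (c • bs a g)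
      rw [algebraMap_smul, algebraMap_smul] at h6
      exact h6
    rw [← h5]
    exact h1

theorem proj_TLM (R : Type u) [CommRing R] (a : R) (L : ℕ) : ∀ j k : ℕ, 1 ≤ k → k + 2 * j = L →
    Module.Projective (TLA R a L) (TLM R a L k) := by
  intro j
  induction j with
  | zero =>
    intro k _ hk
    have : k = L := by omega
    subst this
    exact (inferInstance : Module.Projective (TLA R a k) (TLA R a k))
  | succ j ih =>
    intro k hk1 hk
    have h := ih (k + 2) (by omega) (by omega)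
    exact Module.Projective.of_split (rcup a L k 0 (Nat.zero_le k)) (rcap a L k 1 hk1)
      (LinearMap.ext fun x => rcap_rcup hk1 x)

/-! ### the modules `X(k; q)` -/

/-- diagrams with an arc joining two neighbouring right nodes with number `≥ q` -/
def bad (L k q : ℕ) : Set (Dg (L + k)) := {g | ∃ p, q ≤ p ∧ p + 2 ≤ k ∧ g.1 (L + p) = L + p + 1}

/-- their span -/
noncomputable def NR (a : R) (L k q : ℕ) : Submodule R (TLM R a L k) :=
  Submodule.span R {x | ∃ g ∈ bad L k q, x = bs a g}

theorem bs_mem_NR {q : ℕ} {g : Dg (L + k)} (hg : g ∈ bad L k q) : bs a g ∈ NR a L k q :=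
  Submodule.subset_span ⟨g, hg, rfl⟩

theorem bad_eq_cup {g : Dg (L + (k + 2))} {p : ℕ} (hp : p ≤ k) (hg : g.1 (L + p) = L + p + 1) :
    g = cupD p hp (capD p hp g) := by
  apply Subtype.ext
  exact (cupf_capf g.2 hg).symm

theorem mulD_bad {q : ℕ} (f : Dg (L + L)) {g : Dg (L + k)} (hg : g ∈ bad L k q) :
    mulD f g ∈ bad L k q := by
  obtain ⟨p, hp1, hp2, hp3⟩ := hg
  obtain ⟨k', rfl⟩ : ∃ k', k = k' + 2 := ⟨k - 2, by omega⟩
  refine ⟨p, hp1, hp2, ?_⟩
  have h1 := bad_eq_cup (by omega : p ≤ k') hp3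
  have h := cmp_cup f.2 (capD p (by omega : p ≤ k') g).2 (by omega : p ≤ k')
  have h2 : (mulD f g).1 = cupf (L + p) (cmp L L f.1 (capD p (by omega : p ≤ k') g).1).2 := by
    rw [← h.2]
    change (cmp L L f.1 g.1).2 = _
    conv_lhs => rw [h1]
    rfl
  rw [h2, cupf_left]

theorem smul_mem_NR {q : ℕ} (x : TLA R a L) {m : TLM R a L k} (hm : m ∈ NR a L k q) :
    x • m ∈ NR a L k q := by
  unfold NR at hm
  induction hm using Submodule.span_induction with
  | mem m hm =>
    obtain ⟨g, hg, rfl⟩ := hm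
    induction x using TLM.induction with
    | h0 => rw [zero_smul]; exact Submodule.zero_mem _
    | hadd x y hx hy => rw [add_smul]; exact Submodule.add_mem _ hx hy
    | hs c f =>
      rw [smul_assoc, bs_smul_bs]
      exact Submodule.smul_mem _ _ (Submodule.smul_mem _ _ (bs_mem_NR (mulD_bad f hg)))
  | zero => rw [smul_zero]; exact Submodule.zero_mem _
  | add m m' _ _ h1 h2 => rw [smul_add]; exact Submodule.add_mem _ h1 h2
  | smul c m _ h1 => rw [smul_comm]; exact Submodule.smul_mem _ _ h1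

/-- the span as a submodule over the algebra -/
noncomputable def NN (a : R) (L k q : ℕ) : Submodule (TLA R a L) (TLM R a L k) where
  carrier := NR a L k q
  add_mem' := fun h1 h2 => (NR a L k q).add_mem h1 h2
  zero_mem' := (NR a L k q).zero_mem
  smul_mem' := fun x _ hm => smul_mem_NR x hm

theorem mem_NN {q : ℕ} {m : TLM R a L k} : m ∈ NN a L k q ↔ m ∈ NR a L k q := Iff.rfl

theorem bad_mono {q : ℕ} : bad L k (q + 1) ⊆ bad L k q := fun _ ⟨p, h1, h2, h3⟩ =>
  ⟨p, by omega, h2, h3⟩

theorem NR_mono {q : ℕ} : NR a L k (q + 1) ≤ NR a L k q :=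
  Submodule.span_le.2 (by
    rintro x ⟨g, hg, rfl⟩
    exact bs_mem_NR (bad_mono hg))

theorem NN_mono {q : ℕ} : NN a L k (q + 1) ≤ NN a L k q := NR_mono

theorem NR_top {q : ℕ} (hq : k ≤ q + 1) : NR a L k q = ⊥ := by
  unfold NR
  rw [Submodule.span_eq_bot]
  rintro x ⟨g, ⟨p, h1, h2, _⟩, rfl⟩
  omega

theorem cupD_bad {q : ℕ} (hq : q ≤ k) {g : Dg (L + k)} (hg : g ∈ bad L k q) :
    cupD q hq g ∈ bad L (k + 2) (q + 1) := by
  obtain ⟨p, h1, h2, h3⟩ := hg
  refine ⟨p + 2, by omega, by omega, ?_⟩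
  have e := cupf_up (L + q) g.1 (L + p)
  rw [h3] at e
  have u1 : up (L + q) (L + p) = L + (p + 2) := by unfold up; rw [if_neg (by omega)]; ring
  have u2 : up (L + q) (L + p + 1) = L + (p + 2) + 1 := by
    unfold up; rw [if_neg (by omega)]; ring
  rw [u1, u2] at e
  exact e

theorem capD_bad {q : ℕ} (hq : q ≤ k) {g : Dg (L + (k + 2))} (hg : g ∈ bad L (k + 2) (q + 1))
    (hg2 : g.1 (L + q) = L + q + 1) : capD q hq g ∈ bad L k q := by
  obtain ⟨p, h1, h2, h3⟩ := hg
  have hne : p ≠ q + 1 := by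
    rintro rfl
    have := g.2.inv (L + q)
    rw [hg2, show L + q + 1 = L + (q + 1) by ring, h3] at this
    omega
  refine ⟨p - 2, by omega, by omega, ?_⟩
  have h4 := capf_arc g.2 (l := L + q) (b := L + p) h3 (by omega) (by omega) (by omega)
  have u1 : dn (L + q) (L + p) = L + (p - 2) := by unfold dn; rw [if_neg (by omega)]; omega
  rw [u1] at h4
  exact h4

theorem rcup_mem {q : ℕ} (hq : q ≤ k) : NN a L k q ≤ (NN a L (k + 2) (q + 1)).comap
    (rcup a L k q hq) := by
  intro m hm
  rw [Submodule.mem_comap, mem_NN]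
  rw [mem_NN] at hm
  unfold NR at hm
  induction hm using Submodule.span_induction with
  | mem m hm =>
    obtain ⟨g, hg, rfl⟩ := hm
    rw [rcup_bs]
    exact bs_mem_NR (cupD_bad hq hg)
  | zero => rw [map_zero]; exact Submodule.zero_mem _
  | add m m' _ _ h1 h2 => rw [map_add]; exact Submodule.add_mem _ h1 h2
  | smul c m _ h1 => rw [rcup_smulR]; exact Submodule.smul_mem _ _ h1

/-- the modules `X(k; q)` -/
abbrev XX (a : R) (L k q : ℕ) : Type u := TLM R a L k ⧸ NN a L k q

/-- first map of the short exact sequence -/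
noncomputable def incX (a : R) (L k q : ℕ) (hq : q ≤ k) :
    XX a L k q →ₗ[TLA R a L] XX a L (k + 2) (q + 1) :=
  Submodule.mapQ _ _ (rcup a L k q hq) (rcup_mem hq)

/-- second map of the short exact sequence -/
noncomputable def prjX (a : R) (L k q : ℕ) : XX a L k (q + 1) →ₗ[TLA R a L] XX a L k q :=
  Submodule.mapQ _ _ LinearMap.id (by rw [Submodule.comap_id]; exact NN_mono)

theorem prjX_surjective (a : R) (L k q : ℕ) : Function.Surjective (prjX a L k q) := by
  intro x
  obtain ⟨m, rfl⟩ := Submodule.Quotient.mk_surjective _ x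
  exact ⟨Submodule.Quotient.mk m, rfl⟩

/-- the retraction -/
noncomputable def rtr (a : R) (L k q : ℕ) (hq : q ≤ k) : TLM R a L (k + 2) →ₗ[R] TLM R a L k :=
  lft (fun g => if g.1 (L + q) = L + q + 1 then bs a (capD q hq g) else 0)

theorem rtr_rcup {q : ℕ} (hq : q ≤ k) (m : TLM R a L k) :
    rtr a L k q hq (rcup a L k q hq m) = m := by
  induction m using TLM.induction with
  | h0 => rw [map_zero, map_zero]
  | hadd x y hx hy => rw [map_add, map_add, hx, hy]
  | hs c g =>
    rw [rcup_smulR, map_smul, rcup_bs]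
    unfold rtr
    rw [lft_bs]
    have h1 : (cupD q hq g).1 (L + q) = L + q + 1 := cupf_left _ _
    have h2 : capD q hq (cupD q hq g) = g := Subtype.ext (capf_cupf _ _)
    rw [if_pos h1, h2]

theorem rtr_mem {q : ℕ} (hq : q ≤ k) {m : TLM R a L (k + 2)} (hm : m ∈ NR a L (k + 2) (q + 1)) :
    rtr a L k q hq m ∈ NR a L k q := by
  unfold NR at hm
  induction hm using Submodule.span_induction with
  | mem m hm =>
    obtain ⟨g, hg, rfl⟩ := hm
    unfold rtr
    rw [lft_bs]
    split_ifs with h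
    · exact bs_mem_NR (capD_bad hq hg h)
    · exact Submodule.zero_mem _
  | zero => rw [map_zero]; exact Submodule.zero_mem _
  | add m m' _ _ h1 h2 => rw [map_add]; exact Submodule.add_mem _ h1 h2
  | smul c m _ h1 => rw [map_smul]; exact Submodule.smul_mem _ _ h1

theorem incX_injective (a : R) (L k q : ℕ) (hq : q ≤ k) :
    Function.Injective (incX a L k q hq) := by
  rw [← LinearMap.ker_eq_bot, Submodule.eq_bot_iff]
  intro x hx
  obtain ⟨m, rfl⟩ := Submodule.Quotient.mk_surjective _ x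
  rw [LinearMap.mem_ker] at hx
  unfold incX at hx
  rw [Submodule.mapQ_apply, Submodule.Quotient.mk_eq_zero, mem_NN] at hx
  rw [Submodule.Quotient.mk_eq_zero, mem_NN]
  have := rtr_mem hq hx
  rwa [rtr_rcup] at this

theorem incX_exact (a : R) (L k q : ℕ) (hq : q ≤ k) :
    Function.Exact (incX a L k q hq) (prjX a L (k + 2) q) := by
  intro x
  constructor
  · obtain ⟨m, rfl⟩ := Submodule.Quotient.mk_surjective _ x
    intro hx
    unfold prjX at hx
    rw [Submodule.mapQ_apply, Submodule.Quotient.mk_eq_zero, mem_NN] at hx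
    change m ∈ NR a L (k + 2) q at hx
    unfold NR at hx
    induction hx using Submodule.span_induction with
    | mem m hm =>
      obtain ⟨g, ⟨p, h1, h2, h3⟩, rfl⟩ := hm
      by_cases hpq : p = q
      · subst hpq
        refine ⟨Submodule.Quotient.mk (bs a (capD p hq g)), ?_⟩
        unfold incX
        rw [Submodule.mapQ_apply, rcup_bs, ← bad_eq_cup hq h3]
      · refine ⟨0, ?_⟩
        rw [map_zero]
        symm
        rw [Submodule.Quotient.mk_eq_zero, mem_NN]
        exact bs_mem_NR ⟨p, by omega, h2, h3⟩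
    | zero => exact ⟨0, by rw [map_zero]; rfl⟩
    | add m m' _ _ h1 h2 =>
      obtain ⟨y, hy⟩ := h1
      obtain ⟨y', hy'⟩ := h2
      exact ⟨y + y', by rw [map_add, hy, hy']; rfl⟩
    | smul c m _ h1 =>
      obtain ⟨y, hy⟩ := h1
      refine ⟨algebraMap R (TLA R a L) c • y, ?_⟩
      rw [map_smul, hy]
      rw [← Submodule.Quotient.mk_smul, algebraMap_smul]
  · rintro ⟨y, rfl⟩
    obtain ⟨m, rfl⟩ := Submodule.Quotient.mk_surjective _ y
    unfold incX prjX
    rw [Submodule.mapQ_apply, Submodule.mapQ_apply, Submodule.Quotient.mk_eq_zero, mem_NN]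
    change rcup a L k q hq m ∈ NR a L (k + 2) q
    induction m using TLM.induction with
    | h0 => rw [map_zero]; exact Submodule.zero_mem _
    | hadd x y hx hy => rw [map_add]; exact Submodule.add_mem _ hx hy
    | hs c g =>
      rw [rcup_smulR, rcup_bs]
      exact Submodule.smul_mem _ _ (bs_mem_NR ⟨q, le_rfl, by omega, cupf_left _ _⟩)

end

end Pool.Agent.H47.TL
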